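import Mathlib

set_option autoImplicit false
set_option linter.unusedSectionVars false

namespace Pool.Agent.Lib.MP_f81d8e_an

open Matrix Finset
open scoped Matrix.Norms.L2Operator

section L2

variable {S : Type*} [Fintype S]

/-- Euclidean norm of a real vector. -/
noncomputable def l2 (f : S → ℝ) : ℝ := Real.sqrt (∑ s, f s ^ 2)

lemma l2_nonneg (f : S → ℝ) : 0 ≤ l2 f := Real.sqrt_nonneg _

lemma l2_sq (f : S → ℝ) : l2 f ^ 2 = ∑ s, f s ^ 2 :=
  Real.sq_sqrt (sum_nonneg fun _ _ => sq_nonneg _)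

lemma l2_eq_norm (f : S → ℝ) : l2 f = ‖(WithLp.toLp 2 f : EuclideanSpace ℝ S)‖ := by
  rw [EuclideanSpace.norm_eq]
  simp [l2]

lemma l2_mono {f g : S → ℝ} (h0 : ∀ s, 0 ≤ f s) (h : ∀ s, f s ≤ g s) : l2 f ≤ l2 g := by
  apply Real.sqrt_le_sqrt
  apply sum_le_sum
  intro s _
  exact pow_le_pow_left₀ (h0 s) (h s) 2

lemma l2_add_le (f g : S → ℝ) : l2 (fun s => f s + g s) ≤ l2 f + l2 g := by
  rw [l2_eq_norm, l2_eq_norm, l2_eq_norm]
  exact norm_add_le (WithLp.toLp 2 f : EuclideanSpace ℝ S) (WithLp.toLp 2 g)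

lemma l2_le_add {f g h : S → ℝ} (h0 : ∀ s, 0 ≤ f s) (hh : ∀ s, f s ≤ g s + h s) :
    l2 f ≤ l2 g + l2 h := (l2_mono h0 hh).trans (l2_add_le g h)

lemma l2_mul (c : ℝ) (hc : 0 ≤ c) (f : S → ℝ) : l2 (fun s => c * f s) = c * l2 f := by
  unfold l2
  simp_rw [mul_pow]
  rw [← mul_sum, Real.sqrt_mul (sq_nonneg c), Real.sqrt_sq hc]

lemma l2_const (c : ℝ) (hc : 0 ≤ c) :
    l2 (fun _ : S => c) = Real.sqrt (Fintype.card S) * c := by
  unfold l2
  rw [sum_const, card_univ, nsmul_eq_mul, Real.sqrt_mul (Nat.cast_nonneg _), Real.sqrt_sq hc]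

lemma sum_le_l2 (f : S → ℝ) : ∑ s, f s ≤ Real.sqrt (Fintype.card S) * l2 f := by
  have h := Real.sum_mul_le_sqrt_mul_sqrt (univ : Finset S) (fun _ => (1 : ℝ)) f
  simpa [l2] using h

lemma le_l2 (f : S → ℝ) (s : S) : f s ≤ l2 f := by
  apply Real.le_sqrt_of_sq_le
  exact single_le_sum (f := fun s => f s ^ 2) (fun _ _ => sq_nonneg _) (mem_univ s)

lemma l2_le_of_sq_le {f : S → ℝ} {c : ℝ} (hc : 0 ≤ c) (h : ∑ s, f s ^ 2 ≤ c ^ 2) : l2 f ≤ c := by
  unfold l2
  exact Real.sqrt_le_iff.mpr ⟨hc, h⟩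

end L2

section Frob

variable {m n l k : Type*} [Fintype m] [Fintype n] [Fintype l] [Fintype k]

/-- A matrix as a vector of the Hilbert-Schmidt space. -/
noncomputable def vec (x : Matrix m n ℂ) : EuclideanSpace ℂ (m × n) :=
  WithLp.toLp 2 (fun p => x p.1 p.2)

/-- Hilbert-Schmidt (Frobenius) norm. -/
noncomputable def fr (x : Matrix m n ℂ) : ℝ := ‖vec x‖

/-- Real part of the trace. -/
noncomputable def tr (x : Matrix n n ℂ) : ℝ := (trace x).re

lemma vec_add (x y : Matrix m n ℂ) : vec (x + y) = vec x + vec y := rfl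
lemma vec_sub (x y : Matrix m n ℂ) : vec (x - y) = vec x - vec y := rfl
lemma vec_smul (c : ℂ) (x : Matrix m n ℂ) : vec (c • x) = c • vec x := rfl
lemma vec_neg (x : Matrix m n ℂ) : vec (-x) = -vec x := rfl
lemma vec_zero : vec (0 : Matrix m n ℂ) = 0 := rfl

lemma fr_nonneg (x : Matrix m n ℂ) : 0 ≤ fr x := norm_nonneg _

lemma fr_sq (x : Matrix m n ℂ) : fr x ^ 2 = ∑ i, ∑ j, ‖x i j‖ ^ 2 := by
  unfold fr
  rw [EuclideanSpace.norm_sq_eq, Fintype.sum_prod_type]
  rfl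

lemma inner_vec (x y : Matrix m n ℂ) : inner ℂ (vec x) (vec y) = trace (xᴴ * y) := by
  simp only [vec, PiLp.inner_apply, Fintype.sum_prod_type, trace, diag_apply, mul_apply,
    conjTranspose_apply]
  rw [sum_comm]
  simp [mul_comm]

lemma fr_sq_eq_tr (x : Matrix m n ℂ) : fr x ^ 2 = tr (xᴴ * x) := by
  unfold tr fr
  rw [← inner_vec, ← inner_self_eq_norm_sq (𝕜 := ℂ)]
  rfl

lemma tr_add (x y : Matrix n n ℂ) : tr (x + y) = tr x + tr y := by simp [tr]
lemma tr_sub (x y : Matrix n n ℂ) : tr (x - y) = tr x - tr y := by simp [tr]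
lemma tr_neg (x : Matrix n n ℂ) : tr (-x) = -tr x := by simp [tr]
lemma tr_zero : tr (0 : Matrix n n ℂ) = 0 := by simp [tr]
lemma tr_smul (c : ℝ) (x : Matrix n n ℂ) : tr ((c : ℂ) • x) = c * tr x := by simp [tr]
lemma tr_sum {ι : Type*} (s : Finset ι) (x : ι → Matrix n n ℂ) :
    tr (∑ i ∈ s, x i) = ∑ i ∈ s, tr (x i) := by simp [tr, trace_sum]
lemma tr_mul_comm (x : Matrix m n ℂ) (y : Matrix n m ℂ) : tr (x * y) = tr (y * x) := by
  unfold tr
  rw [trace_mul_comm]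
lemma tr_conjTranspose (x : Matrix n n ℂ) : tr xᴴ = tr x := by
  unfold tr
  rw [trace_conjTranspose]
  simp
lemma tr_one [DecidableEq n] : tr (1 : Matrix n n ℂ) = Fintype.card n := by simp [tr]

lemma fr_sq_eq_tr' (x : Matrix m n ℂ) : fr x ^ 2 = tr (x * xᴴ) := by
  rw [fr_sq_eq_tr, tr_mul_comm]

lemma fr_add_le (x y : Matrix m n ℂ) : fr (x + y) ≤ fr x + fr y := by
  unfold fr
  rw [vec_add]
  exact norm_add_le _ _

lemma fr_sub_le (x y : Matrix m n ℂ) : fr (x - y) ≤ fr x + fr y := by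
  unfold fr
  rw [vec_sub]
  exact norm_sub_le _ _

lemma fr_neg (x : Matrix m n ℂ) : fr (-x) = fr x := by
  unfold fr
  rw [vec_neg, norm_neg]

lemma fr_sub_comm (x y : Matrix m n ℂ) : fr (x - y) = fr (y - x) := by
  rw [← fr_neg, neg_sub]

lemma fr_triangle (x y z : Matrix m n ℂ) : fr (x - z) ≤ fr (x - y) + fr (y - z) := by
  have : x - z = (x - y) + (y - z) := by abel
  rw [this]
  exact fr_add_le _ _

lemma fr_zero : fr (0 : Matrix m n ℂ) = 0 := by
  unfold fr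
  rw [vec_zero, norm_zero]

lemma fr_smul (c : ℂ) (x : Matrix m n ℂ) : fr (c • x) = ‖c‖ * fr x := by
  unfold fr
  rw [vec_smul, norm_smul]

lemma fr_smul_real (c : ℝ) (x : Matrix m n ℂ) : fr ((c : ℂ) • x) = |c| * fr x := by
  rw [fr_smul, Complex.norm_real, Real.norm_eq_abs]

lemma fr_eq_zero {x : Matrix m n ℂ} (h : fr x = 0) : x = 0 := by
  unfold fr at h
  rw [norm_eq_zero] at h
  ext i j
  exact congrArg (fun v : EuclideanSpace ℂ (m × n) => v (i, j)) h

lemma fr_pos {x : Matrix m n ℂ} (h : x ≠ 0) : 0 < fr x :=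
  lt_of_le_of_ne (fr_nonneg x) (fun h' => h (fr_eq_zero h'.symm))

lemma fr_conjTranspose (x : Matrix m n ℂ) : fr xᴴ = fr x := by
  have : fr xᴴ ^ 2 = fr x ^ 2 := by
    rw [fr_sq_eq_tr, conjTranspose_conjTranspose, fr_sq_eq_tr']
  exact (pow_left_inj₀ (fr_nonneg _) (fr_nonneg _) two_ne_zero).mp this

lemma tr_mul_le (x y : Matrix m n ℂ) : tr (xᴴ * y) ≤ fr x * fr y := by
  unfold tr fr
  rw [← inner_vec]
  exact (Complex.re_le_norm _).trans (norm_inner_le_norm _ _)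

lemma abs_tr_mul_le (x y : Matrix m n ℂ) : |tr (xᴴ * y)| ≤ fr x * fr y := by
  unfold tr fr
  rw [← inner_vec]
  exact (Complex.abs_re_le_norm _).trans (norm_inner_le_norm _ _)

lemma fr_add_sq (x y : Matrix m n ℂ) :
    fr (x + y) ^ 2 = fr x ^ 2 + 2 * tr (xᴴ * y) + fr y ^ 2 := by
  unfold tr fr
  rw [vec_add, ← inner_vec, @norm_add_sq ℂ]
  rfl

lemma fr_sub_sq (x y : Matrix m n ℂ) :
    fr (x - y) ^ 2 = fr x ^ 2 - 2 * tr (xᴴ * y) + fr y ^ 2 := by
  unfold tr fr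
  rw [vec_sub, ← inner_vec, @norm_sub_sq ℂ]
  rfl

lemma fr_add_sq_le (x y : Matrix m n ℂ) : fr (x + y) ^ 2 ≤ 2 * fr x ^ 2 + 2 * fr y ^ 2 := by
  have := fr_add_le x y
  nlinarith [fr_nonneg (x + y), fr_nonneg x, fr_nonneg y, sq_nonneg (fr x - fr y)]

lemma fr_mul_le_left [DecidableEq n] (x : Matrix m n ℂ) (y : Matrix n l ℂ) :
    fr (x * y) ≤ ‖x‖ * fr y := by
  have h : fr (x * y) ^ 2 ≤ (‖x‖ * fr y) ^ 2 := by
    rw [mul_pow, fr_sq, fr_sq, sum_comm, sum_comm (f := fun i j => ‖y i j‖ ^ 2), mul_sum]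
    apply sum_le_sum
    intro j _
    have h1 := l2_opNorm_mulVec x (WithLp.toLp 2 (fun i => y i j) : EuclideanSpace ℂ n)
    have h2 := pow_le_pow_left₀ (norm_nonneg _) h1 2
    rw [mul_pow, EuclideanSpace.norm_sq_eq, EuclideanSpace.norm_sq_eq] at h2
    simpa [mul_apply, mulVec, dotProduct] using h2
  exact (pow_le_pow_iff_left₀ (fr_nonneg _) (mul_nonneg (norm_nonneg _) (fr_nonneg _))
    two_ne_zero).mp h

lemma fr_mul_le_right [DecidableEq n] [DecidableEq l] (x : Matrix m n ℂ) (y : Matrix n l ℂ) :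
    fr (x * y) ≤ fr x * ‖y‖ := by
  rw [← fr_conjTranspose, conjTranspose_mul, ← fr_conjTranspose x, ← l2_opNorm_conjTranspose y,
    mul_comm]
  exact fr_mul_le_left _ _

lemma fr_mul_le_left' [DecidableEq n] {x : Matrix m n ℂ} (hx : ‖x‖ ≤ 1) (y : Matrix n l ℂ) :
    fr (x * y) ≤ fr y :=
  (fr_mul_le_left x y).trans (mul_le_of_le_one_left (fr_nonneg _) hx)

lemma fr_mul_le_right' [DecidableEq n] [DecidableEq l] (x : Matrix m n ℂ) {y : Matrix n l ℂ}
    (hy : ‖y‖ ≤ 1) : fr (x * y) ≤ fr x :=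
  (fr_mul_le_right x y).trans (mul_le_of_le_one_right (fr_nonneg _) hy)

lemma fr_isometry_mul [DecidableEq n] {v : Matrix m n ℂ} (hv : vᴴ * v = 1) (y : Matrix n l ℂ) :
    fr (v * y) = fr y := by
  have : fr (v * y) ^ 2 = fr y ^ 2 := by
    rw [fr_sq_eq_tr, fr_sq_eq_tr, conjTranspose_mul, Matrix.mul_assoc, ← Matrix.mul_assoc vᴴ, hv,
      Matrix.one_mul]
  exact (pow_left_inj₀ (fr_nonneg _) (fr_nonneg _) two_ne_zero).mp this

lemma fr_mul_coisometry [DecidableEq n] (y : Matrix l n ℂ) {v : Matrix n m ℂ} (hv : v * vᴴ = 1) :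
    fr (y * v) = fr y := by
  rw [← fr_conjTranspose, conjTranspose_mul, fr_isometry_mul (by simpa using hv), fr_conjTranspose]

lemma opNorm_mul_le_one [DecidableEq n] [DecidableEq l] {x : Matrix m n ℂ} {y : Matrix n l ℂ}
    (hx : ‖x‖ ≤ 1) (hy : ‖y‖ ≤ 1) : ‖x * y‖ ≤ 1 :=
  (l2_opNorm_mul x y).trans (mul_le_one₀ hx (norm_nonneg _) hy)

lemma opNorm_conjTranspose_le_one [DecidableEq m] [DecidableEq n] {x : Matrix m n ℂ}
    (hx : ‖x‖ ≤ 1) : ‖xᴴ‖ ≤ 1 := by rwa [l2_opNorm_conjTranspose]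

lemma fr_sum_sq_sigma {ι κ : Type*} [Fintype ι] [Fintype κ] {α : ι → Type*} {β : κ → Type*}
    [∀ i, Fintype (α i)] [∀ j, Fintype (β j)] (x : Matrix (Σ i, α i) (Σ j, β j) ℂ) :
    fr x ^ 2 = ∑ i, ∑ j, fr (Matrix.of fun (a : α i) (b : β j) => x ⟨i, a⟩ ⟨j, b⟩) ^ 2 := by
  simp only [fr_sq, Fintype.sum_sigma, of_apply]
  apply sum_congr rfl
  intro i _
  rw [sum_comm]

lemma fr_sum_sq_sigma_col {κ : Type*} [Fintype κ] {β : κ → Type*}
    [∀ j, Fintype (β j)] (x : Matrix m (Σ j, β j) ℂ) :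
    fr x ^ 2 = ∑ j, fr (Matrix.of fun (a : m) (b : β j) => x a ⟨j, b⟩) ^ 2 := by
  simp only [fr_sq, Fintype.sum_sigma, of_apply]
  rw [sum_comm]

end Frob

section Proj

variable {m n l : Type*} [Fintype m] [Fintype n] [Fintype l] [DecidableEq n]

/-- Orthogonal projections. -/
structure IsProj (p : Matrix n n ℂ) : Prop where
  herm : pᴴ = p
  idem : p * p = p

lemma isProj_zero : IsProj (0 : Matrix n n ℂ) := ⟨by simp, by simp⟩
lemma isProj_one : IsProj (1 : Matrix n n ℂ) := ⟨by simp, by simp⟩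

lemma IsProj.isHermitian {p : Matrix n n ℂ} (hp : IsProj p) : p.IsHermitian := hp.herm

lemma IsProj.one_sub {p : Matrix n n ℂ} (hp : IsProj p) : IsProj (1 - p) :=
  ⟨by simp [hp.herm], by simp [sub_mul, mul_sub, hp.idem]⟩

lemma IsProj.mul_one_sub {p : Matrix n n ℂ} (hp : IsProj p) : p * (1 - p) = 0 := by
  simp [mul_sub, hp.idem]

lemma IsProj.one_sub_mul {p : Matrix n n ℂ} (hp : IsProj p) : (1 - p) * p = 0 := by
  simp [sub_mul, hp.idem]

lemma IsProj.norm_le {p : Matrix n n ℂ} (hp : IsProj p) : ‖p‖ ≤ 1 := by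
  have h := l2_opNorm_conjTranspose_mul_self p
  rw [hp.herm, hp.idem] at h
  nlinarith [norm_nonneg p]

lemma IsProj.fr_sq {p : Matrix n n ℂ} (hp : IsProj p) : fr p ^ 2 = tr p := by
  rw [fr_sq_eq_tr, hp.herm, hp.idem]

lemma IsProj.tr_nonneg {p : Matrix n n ℂ} (hp : IsProj p) : 0 ≤ tr p := by
  rw [← hp.fr_sq]
  positivity

lemma IsProj.fr_eq {p : Matrix n n ℂ} (hp : IsProj p) : fr p = Real.sqrt (tr p) := by
  rw [← hp.fr_sq, Real.sqrt_sq (fr_nonneg _)]

lemma IsProj.add {p q : Matrix n n ℂ} (hp : IsProj p) (hq : IsProj q) (h : p * q = 0) :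
    IsProj (p + q) := by
  have h' : q * p = 0 := by
    have := congrArg conjTranspose h
    simpa [hp.herm, hq.herm] using this
  exact ⟨by simp [hp.herm, hq.herm], by simp [add_mul, mul_add, hp.idem, hq.idem, h, h']⟩

lemma IsProj.mul_comm_of_le {p q : Matrix n n ℂ} (hp : IsProj p) (hq : IsProj q)
    (h : p * q = q) : q * p = q := by
  have := congrArg conjTranspose h
  simpa [hp.herm, hq.herm] using this

lemma IsProj.sub {p q : Matrix n n ℂ} (hp : IsProj p) (hq : IsProj q) (h : p * q = q) :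
    IsProj (p - q) := by
  have h' := hp.mul_comm_of_le hq h
  exact ⟨by simp [hp.herm, hq.herm], by simp [sub_mul, mul_sub, hp.idem, hq.idem, h, h']⟩

lemma IsProj.tr_le_of_le {p q : Matrix n n ℂ} (hp : IsProj p) (hq : IsProj q) (h : p * q = q) :
    tr q ≤ tr p := by
  have := (hp.sub hq h).tr_nonneg
  rw [tr_sub] at this
  linarith

lemma IsProj.tr_le_card {p : Matrix n n ℂ} (hp : IsProj p) : tr p ≤ Fintype.card n := by
  rw [← tr_one]
  exact isProj_one.tr_le_of_le hp (by simp)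

/-- The traces of two projections differ by at most their squared distance. -/
lemma IsProj.tr_sub_le {p q : Matrix n n ℂ} (hp : IsProj p) (hq : IsProj q) :
    tr p - tr q ≤ fr (p - q) ^ 2 := by
  rw [fr_sub_sq, hp.fr_sq, hq.fr_sq, hp.herm]
  have h1 : tr (p * q) ≤ tr q := by
    have h2 : fr (p * q) ^ 2 = tr (p * q) := by
      rw [fr_sq_eq_tr, conjTranspose_mul, hp.herm, hq.herm, Matrix.mul_assoc,
        ← Matrix.mul_assoc p, hp.idem, tr_mul_comm, Matrix.mul_assoc, hq.idem]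
    rw [← h2, ← hq.fr_sq]
    exact pow_le_pow_left₀ (fr_nonneg _) (fr_mul_le_left' hp.norm_le q) 2
  linarith

lemma norm_one_le : ‖(1 : Matrix n n ℂ)‖ ≤ 1 := isProj_one.norm_le

lemma isometry_norm_le {v : Matrix m n ℂ} (hv : vᴴ * v = 1) : ‖v‖ ≤ 1 := by
  have h := l2_opNorm_conjTranspose_mul_self v
  rw [hv] at h
  have := norm_one_le (n := n)
  nlinarith [norm_nonneg v]

lemma coisometry_norm_le [DecidableEq m] {v : Matrix m n ℂ} (hv : v * vᴴ = 1) : ‖v‖ ≤ 1 := by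
  rw [← l2_opNorm_conjTranspose]
  exact isometry_norm_le (by simpa using hv)

lemma fr_one : fr (1 : Matrix n n ℂ) = Real.sqrt (Fintype.card n) := by
  rw [isProj_one.fr_eq, tr_one]

lemma fr_le_of_norm_le_right {x : Matrix m n ℂ} {c : ℝ} (hx : ‖x‖ ≤ c) :
    fr x ≤ c * Real.sqrt (Fintype.card n) := by
  have := fr_mul_le_left x (1 : Matrix n n ℂ)
  rw [Matrix.mul_one, fr_one] at this
  exact this.trans (mul_le_mul_of_nonneg_right hx (Real.sqrt_nonneg _))

lemma fr_le_of_norm_le_left [DecidableEq m] {x : Matrix m n ℂ} {c : ℝ} (hx : ‖x‖ ≤ c) :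
    fr x ≤ c * Real.sqrt (Fintype.card m) := by
  rw [← fr_conjTranspose]
  exact fr_le_of_norm_le_right (by rwa [l2_opNorm_conjTranspose])

/-- Pythagoras for a decomposition on the left. -/
lemma IsProj.fr_sq_split_left {p : Matrix n n ℂ} (hp : IsProj p) (x : Matrix n l ℂ) :
    fr x ^ 2 = fr (p * x) ^ 2 + fr ((1 - p) * x) ^ 2 := by
  have h : x = p * x + (1 - p) * x := by simp [Matrix.sub_mul]
  conv_lhs => rw [h]
  rw [fr_add_sq, conjTranspose_mul, hp.herm, Matrix.mul_assoc, ← Matrix.mul_assoc p,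
    hp.mul_one_sub]
  simp [tr_zero]

/-- Pythagoras for a decomposition on the right. -/
lemma IsProj.fr_sq_split_right {p : Matrix n n ℂ} (hp : IsProj p) (x : Matrix l n ℂ) :
    fr x ^ 2 = fr (x * p) ^ 2 + fr (x * (1 - p)) ^ 2 := by
  rw [← fr_conjTranspose x, hp.fr_sq_split_left xᴴ, ← fr_conjTranspose (x * p),
    ← fr_conjTranspose (x * (1 - p))]
  simp [hp.herm]

end Proj

section Energy

variable {S : Type*} [Fintype S]
variable {m n l : Type*} [Fintype m] [Fintype n] [Fintype l]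
  [DecidableEq m] [DecidableEq n] [DecidableEq l]

/-- Intertwining energy (on the scale of norms). -/
noncomputable def en (a : S → Matrix m m ℂ) (b : S → Matrix n n ℂ) (x : Matrix m n ℂ) : ℝ :=
  l2 (fun s => fr (a s * x - x * b s))

lemma en_nonneg (a : S → Matrix m m ℂ) (b : S → Matrix n n ℂ) (x : Matrix m n ℂ) :
    0 ≤ en a b x := l2_nonneg _

lemma en_sq (a : S → Matrix m m ℂ) (b : S → Matrix n n ℂ) (x : Matrix m n ℂ) :
    en a b x ^ 2 = ∑ s, fr (a s * x - x * b s) ^ 2 := l2_sq _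

lemma fr_le_en (a : S → Matrix m m ℂ) (b : S → Matrix n n ℂ) (x : Matrix m n ℂ) (s : S) :
    fr (a s * x - x * b s) ≤ en a b x := le_l2 (fun s => fr (a s * x - x * b s)) s

lemma en_add_le (a : S → Matrix m m ℂ) (b : S → Matrix n n ℂ) (x y : Matrix m n ℂ) :
    en a b (x + y) ≤ en a b x + en a b y := by
  apply l2_le_add (fun _ => fr_nonneg _)
  intro s
  have : a s * (x + y) - (x + y) * b s = (a s * x - x * b s) + (a s * y - y * b s) := by
    rw [Matrix.mul_add, Matrix.add_mul]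
    abel
  rw [this]
  exact fr_add_le _ _

lemma en_neg (a : S → Matrix m m ℂ) (b : S → Matrix n n ℂ) (x : Matrix m n ℂ) :
    en a b (-x) = en a b x := by
  unfold en
  congr 1
  ext s
  rw [← fr_neg]
  congr 1
  rw [Matrix.mul_neg, Matrix.neg_mul]
  abel

lemma en_sub_le (a : S → Matrix m m ℂ) (b : S → Matrix n n ℂ) (x y : Matrix m n ℂ) :
    en a b (x - y) ≤ en a b x + en a b y := by
  rw [sub_eq_add_neg, ← en_neg a b y]
  exact en_add_le _ _ _ _

lemma en_smul (a : S → Matrix m m ℂ) (b : S → Matrix n n ℂ) (c : ℂ) (x : Matrix m n ℂ) :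
    en a b (c • x) = ‖c‖ * en a b x := by
  unfold en
  rw [← l2_mul _ (norm_nonneg c)]
  congr 1
  ext s
  rw [← fr_smul, Matrix.mul_smul, Matrix.smul_mul, smul_sub]

lemma en_zero (a : S → Matrix m m ℂ) (b : S → Matrix n n ℂ) : en a b (0 : Matrix m n ℂ) = 0 := by
  simp [en, l2, fr_zero]

lemma en_one (a : S → Matrix m m ℂ) : en a a (1 : Matrix m m ℂ) = 0 := by
  simp [en, l2, fr_zero]

lemma en_le_fr {a : S → Matrix m m ℂ} {b : S → Matrix n n ℂ} (ha : ∀ s, ‖a s‖ ≤ 1)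
    (hb : ∀ s, ‖b s‖ ≤ 1) (x : Matrix m n ℂ) :
    en a b x ≤ 2 * Real.sqrt (Fintype.card S) * fr x := by
  have : en a b x ≤ l2 (fun _ : S => 2 * fr x) := by
    apply l2_mono (fun _ => fr_nonneg _)
    intro s
    have h1 := fr_sub_le (a s * x) (x * b s)
    have h2 := fr_mul_le_left' (ha s) x
    have h3 := fr_mul_le_right' x (hb s)
    linarith
  rw [l2_const _ (by have := fr_nonneg x; positivity)] at this
  linarith

lemma en_le_add_fr {a : S → Matrix m m ℂ} {b : S → Matrix n n ℂ} (ha : ∀ s, ‖a s‖ ≤ 1)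
    (hb : ∀ s, ‖b s‖ ≤ 1) (x y : Matrix m n ℂ) :
    en a b x ≤ en a b y + 2 * Real.sqrt (Fintype.card S) * fr (x - y) := by
  have : x = y + (x - y) := by abel
  conv_lhs => rw [this]
  exact (en_add_le _ _ _ _).trans (add_le_add_right (en_le_fr ha hb _) _)

lemma en_mul_le (a : S → Matrix m m ℂ) (b : S → Matrix n n ℂ) (c : S → Matrix l l ℂ)
    (x : Matrix m n ℂ) (y : Matrix n l ℂ) :
    en a c (x * y) ≤ ‖y‖ * en a b x + ‖x‖ * en b c y := by
  unfold en
  rw [← l2_mul _ (norm_nonneg _), ← l2_mul _ (norm_nonneg _)]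
  apply l2_le_add (fun _ => fr_nonneg _)
  intro s
  have : a s * (x * y) - x * y * c s = (a s * x - x * b s) * y + x * (b s * y - y * c s) := by
    simp only [Matrix.sub_mul, Matrix.mul_sub, Matrix.mul_assoc]
    abel
  rw [this]
  refine (fr_add_le _ _).trans (add_le_add ?_ (fr_mul_le_left _ _))
  rw [mul_comm]
  exact fr_mul_le_right _ _

lemma en_mul_le' (a : S → Matrix m m ℂ) (b : S → Matrix n n ℂ) (c : S → Matrix l l ℂ)
    {x : Matrix m n ℂ} {y : Matrix n l ℂ} (hx : ‖x‖ ≤ 1) (hy : ‖y‖ ≤ 1) :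
    en a c (x * y) ≤ en a b x + en b c y :=
  (en_mul_le a b c x y).trans (add_le_add (mul_le_of_le_one_left (en_nonneg _ _ _) hy)
    (mul_le_of_le_one_left (en_nonneg _ _ _) hx))

/-- A family is closed under adjoints through the permutation `σ` of the index set. -/
def AdjClosed (σ : Equiv.Perm S) (a : S → Matrix m m ℂ) : Prop := ∀ s, a (σ s) = (a s)ᴴ

lemma en_conjTranspose {σ : Equiv.Perm S} {a : S → Matrix m m ℂ} {b : S → Matrix n n ℂ}
    (ha : AdjClosed σ a) (hb : AdjClosed σ b) (x : Matrix m n ℂ) : en b a xᴴ = en a b x := by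
  unfold en l2
  congr 1
  rw [← Equiv.sum_comp σ]
  apply sum_congr rfl
  intro s _
  beta_reduce
  rw [ha s, hb s, ← fr_conjTranspose, fr_sub_comm]
  simp

lemma commute_of_en_eq_zero {a : S → Matrix m m ℂ} {b : S → Matrix n n ℂ} {x : Matrix m n ℂ}
    (h : en a b x = 0) (s : S) : a s * x = x * b s := by
  have := fr_le_en a b x s
  rw [h] at this
  exact sub_eq_zero.mp (fr_eq_zero (le_antisymm this (fr_nonneg _)))

lemma en_eq_zero_of_commute {a : S → Matrix m m ℂ} {b : S → Matrix n n ℂ} {x : Matrix m n ℂ}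
    (h : ∀ s, a s * x = x * b s) : en a b x = 0 := by
  simp [en, l2, h, fr_zero]

end Energy

end Pool.Agent.Lib.MP_f81d8e_an
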