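import Mathlib

set_option autoImplicit false

namespace Pool.Agent.Lib.MP_f81d8e_an

open Matrix Filter Topology

/-- Unitary representations of `G` on `H`. -/
def UnitaryRep (G H : Type) [Group G] [NormedAddCommGroup H] [InnerProductSpace ℂ H] : Type :=
  G →* (H ≃ₗᵢ[ℂ] H)

/-- The unitary by which `g` acts. -/
def UnitaryRep.op {G H : Type} [Group G] [NormedAddCommGroup H] [InnerProductSpace ℂ H]
    (ρ : UnitaryRep G H) (g : G) : H ≃ₗᵢ[ℂ] H :=
  DFunLike.coe (F := G →* (H ≃ₗᵢ[ℂ] H)) ρ g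

/-- The action of `g` on a vector. -/
def UnitaryRep.act {G H : Type} [Group G] [NormedAddCommGroup H] [InnerProductSpace ℂ H]
    (ρ : UnitaryRep G H) (g : G) (ξ : H) : H :=
  ρ.op g ξ

/-- Kazhdan's property (T) of a discrete group: there is a Kazhdan pair `(K, ε)`. -/
def HasPropertyT (G : Type) [Group G] : Prop :=
  ∃ (K : Finset G) (ε : ℝ), 0 < ε ∧
    ∀ (H : Type) [NormedAddCommGroup H] [InnerProductSpace ℂ H] [CompleteSpace H]
      (ρ : UnitaryRep G H), (∃ ξ : H, ‖ξ‖ = 1 ∧ ∀ s ∈ K, ‖ρ.act s ξ - ξ‖ < ε) →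
      ∃ ξ : H, ξ ≠ 0 ∧ ∀ g, ρ.act g ξ = ξ

open scoped Matrix.Norms.L2Operator in
/-- Operator norm of a complex matrix acting on Euclidean space. -/
noncomputable def opNorm {d : ℕ} (x : Matrix (Fin d) (Fin d) ℂ) : ℝ := ‖x‖

/-- The norm `tr(x* x)^(1/2)` for the normalised trace. -/
noncomputable def norm2 {d : ℕ} (x : Matrix (Fin d) (Fin d) ℂ) : ℝ :=
  Real.sqrt ((Matrix.trace (xᴴ * x)).re / d)

/-- Compress to the common upper-left corner, then pad with zeros. -/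
def resize {d : ℕ} (m : ℕ) (x : Matrix (Fin d) (Fin d) ℂ) : Matrix (Fin m) (Fin m) ℂ :=
  Matrix.of fun i j => if h : (i : ℕ) < d ∧ (j : ℕ) < d then x ⟨i, h.1⟩ ⟨j, h.2⟩ else 0

end Pool.Agent.Lib.MP_f81d8e_an
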