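import Mathlib
import Pool.Agent.Lib.MP_f81d8e_an.Basic
import Pool.Agent.Lib.MP_f81d8e_an.Defs0

set_option autoImplicit false

namespace Pool.Agent.Lib.MP_f81d8e_an

open Matrix Filter Topology

section Aux

open scoped Matrix.Norms.L2Operator

variable {d : ℕ}

lemma opNorm_eq (x : Matrix (Fin d) (Fin d) ℂ) : opNorm x = ‖x‖ := rfl

lemma norm2_eq (x : Matrix (Fin d) (Fin d) ℂ) : norm2 x = fr x / Real.sqrt d := by
  have : (Matrix.trace (xᴴ * x)).re = fr x ^ 2 := (fr_sq_eq_tr x).symm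
  unfold norm2
  rw [this, Real.sqrt_div (sq_nonneg _), Real.sqrt_sq (fr_nonneg _)]

lemma norm2_nonneg (x : Matrix (Fin d) (Fin d) ℂ) : 0 ≤ norm2 x := Real.sqrt_nonneg _

lemma norm2_zero : norm2 (0 : Matrix (Fin d) (Fin d) ℂ) = 0 := by simp [norm2]

lemma norm2_add_le (x y : Matrix (Fin d) (Fin d) ℂ) : norm2 (x + y) ≤ norm2 x + norm2 y := by
  rw [norm2_eq, norm2_eq, norm2_eq, ← add_div]
  exact div_le_div_of_nonneg_right (fr_add_le x y) (Real.sqrt_nonneg _)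

lemma norm2_sub_comm (x y : Matrix (Fin d) (Fin d) ℂ) : norm2 (x - y) = norm2 (y - x) := by
  rw [norm2_eq, norm2_eq, fr_sub_comm]

lemma norm2_conjTranspose (x : Matrix (Fin d) (Fin d) ℂ) : norm2 xᴴ = norm2 x := by
  rw [norm2_eq, norm2_eq, fr_conjTranspose]

lemma norm2_mul_le_left (x y : Matrix (Fin d) (Fin d) ℂ) : norm2 (x * y) ≤ ‖x‖ * norm2 y := by
  rw [norm2_eq, norm2_eq, ← mul_div_assoc]
  exact div_le_div_of_nonneg_right (fr_mul_le_left x y) (Real.sqrt_nonneg _)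

lemma norm2_mul_le_right (x y : Matrix (Fin d) (Fin d) ℂ) : norm2 (x * y) ≤ ‖y‖ * norm2 x := by
  rw [norm2_eq, norm2_eq, ← mul_div_assoc, mul_comm ‖y‖]
  exact div_le_div_of_nonneg_right (fr_mul_le_right x y) (Real.sqrt_nonneg _)

/-- The rectangular identity matrix. -/
def corner (m d : ℕ) : Matrix (Fin m) (Fin d) ℂ :=
  Matrix.of fun i j => if (i : ℕ) = j then 1 else 0

lemma corner_mul {l : Type*} (m : ℕ) (x : Matrix (Fin d) l ℂ) (i : Fin m) (j : l) :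
    (corner m d * x) i j = if h : (i : ℕ) < d then x ⟨i, h⟩ j else 0 := by
  simp only [corner, mul_apply, of_apply]
  split_ifs with h
  · rw [Finset.sum_eq_single ⟨i, h⟩]
    · simp
    · intro b _ hb
      rw [if_neg (fun h' => hb (Fin.ext h'.symm)), zero_mul]
    · simp
  · apply Finset.sum_eq_zero
    intro b _
    rw [if_neg (fun h' : (i : ℕ) = b => h (h' ▸ b.2)), zero_mul]

lemma corner_conjTranspose (m : ℕ) : (corner m d)ᴴ = corner d m := by
  ext i j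
  simp [corner, eq_comm, apply_ite (star : ℂ → ℂ)]

lemma resize_eq (m : ℕ) (x : Matrix (Fin d) (Fin d) ℂ) :
    resize m x = corner m d * x * (corner m d)ᴴ := by
  have : x * (corner m d)ᴴ = (corner m d * xᴴ)ᴴ := by simp
  ext i j
  rw [Matrix.mul_assoc, corner_mul, this]
  simp only [resize, of_apply, conjTranspose_apply, corner_mul]
  by_cases h1 : (i : ℕ) < d <;> by_cases h2 : (j : ℕ) < d <;> simp [h1, h2]

lemma norm_corner_le (m : ℕ) : ‖corner m d‖ ≤ 1 := by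
  have h1 : (corner m d)ᴴ * corner m d = 
      diagonal (fun i : Fin d => if (i : ℕ) < m then (1 : ℂ) else 0) := by
    ext i j
    rw [corner_conjTranspose, corner_mul, diagonal_apply]
    simp only [corner, of_apply, Fin.ext_iff]
    split_ifs <;> rfl
  have h2 : ‖(corner m d)ᴴ * corner m d‖ ≤ 1 := by
    rw [h1, l2_opNorm_diagonal, pi_norm_le_iff_of_nonneg zero_le_one]
    intro i
    split_ifs <;> simp
  rw [l2_opNorm_conjTranspose_mul_self] at h2
  nlinarith [norm_nonneg (corner m d)]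

lemma norm_resize_le (m : ℕ) (x : Matrix (Fin d) (Fin d) ℂ) : ‖resize m x‖ ≤ ‖x‖ := by
  rw [resize_eq]
  refine (l2_opNorm_mul _ _).trans ?_
  refine (mul_le_of_le_one_right (norm_nonneg _)
    (opNorm_conjTranspose_le_one (norm_corner_le m))).trans ?_
  exact (l2_opNorm_mul _ _).trans (mul_le_of_le_one_left (norm_nonneg _) (norm_corner_le m))

lemma fr_resize_le (m : ℕ) (x : Matrix (Fin d) (Fin d) ℂ) : fr (resize m x) ≤ fr x := by
  rw [resize_eq]
  exact (fr_mul_le_right' _ (opNorm_conjTranspose_le_one (norm_corner_le m))).trans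
    (fr_mul_le_left' (norm_corner_le m) _)

lemma resize_sub (m : ℕ) (x y : Matrix (Fin d) (Fin d) ℂ) :
    resize m (x - y) = resize m x - resize m y := by
  simp only [resize_eq, Matrix.mul_sub, Matrix.sub_mul]

lemma norm2_resize_le (m : ℕ) (x : Matrix (Fin d) (Fin d) ℂ) :
    norm2 (resize m x) ≤ Real.sqrt ((m : ℝ) / d)⁻¹ * norm2 x := by
  rw [norm2_eq, norm2_eq]
  refine (div_le_div_of_nonneg_right (fr_resize_le m x) (Real.sqrt_nonneg _)).trans ?_
  rcases Nat.eq_zero_or_pos d with rfl | hd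
  · rw [Subsingleton.elim x 0, fr_zero]
    simp
  · rw [inv_div, Real.sqrt_div (Nat.cast_nonneg _)]
    have : 0 < Real.sqrt d := by positivity
    apply le_of_eq
    field_simp

variable {D : ℕ → ℕ}

lemma bdd_mul {x y : ∀ n, Matrix (Fin (D n)) (Fin (D n)) ℂ} (hx : ∃ C, ∀ n, opNorm (x n) ≤ C)
    (hy : ∃ C, ∀ n, opNorm (y n) ≤ C) : ∃ C, ∀ n, opNorm ((x * y) n) ≤ C := by
  obtain ⟨C, hC⟩ := hx
  obtain ⟨C', hC'⟩ := hy
  exact ⟨C * C', fun n => (l2_opNorm_mul (x n) (y n)).trans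
    (mul_le_mul (hC n) (hC' n) (norm_nonneg _) ((norm_nonneg _).trans (hC n)))⟩

lemma bdd_add {x y : ∀ n, Matrix (Fin (D n)) (Fin (D n)) ℂ} (hx : ∃ C, ∀ n, opNorm (x n) ≤ C)
    (hy : ∃ C, ∀ n, opNorm (y n) ≤ C) : ∃ C, ∀ n, opNorm ((x + y) n) ≤ C := by
  obtain ⟨C, hC⟩ := hx
  obtain ⟨C', hC'⟩ := hy
  exact ⟨C + C', fun n => (norm_add_le (x n) (y n)).trans (add_le_add (hC n) (hC' n))⟩

lemma bdd_one : ∃ C, ∀ n, opNorm ((1 : ∀ n, Matrix (Fin (D n)) (Fin (D n)) ℂ) n) ≤ C :=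
  ⟨1, fun _ => norm_one_le⟩

lemma bdd_zero : ∃ C, ∀ n, opNorm ((0 : ∀ n, Matrix (Fin (D n)) (Fin (D n)) ℂ) n) ≤ C :=
  ⟨0, fun _ => norm_zero.le⟩

lemma bdd_neg {x : ∀ n, Matrix (Fin (D n)) (Fin (D n)) ℂ} (hx : ∃ C, ∀ n, opNorm (x n) ≤ C) :
    ∃ C, ∀ n, opNorm ((-x) n) ≤ C := by
  obtain ⟨C, hC⟩ := hx
  exact ⟨C, fun n => (norm_neg (x n)).trans_le (hC n)⟩

lemma bdd_star {x : ∀ n, Matrix (Fin (D n)) (Fin (D n)) ℂ} (hx : ∃ C, ∀ n, opNorm (x n) ≤ C) :
    ∃ C, ∀ n, opNorm ((star x) n) ≤ C := by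
  obtain ⟨C, hC⟩ := hx
  exact ⟨C, fun n => (l2_opNorm_conjTranspose (x n)).trans_le (hC n)⟩

lemma bdd_resize (m : ℕ → ℕ) {x : ∀ n, Matrix (Fin (D n)) (Fin (D n)) ℂ}
    (hx : ∃ C, ∀ n, opNorm (x n) ≤ C) : ∃ C, ∀ n, opNorm (resize (m n) (x n)) ≤ C := by
  obtain ⟨C, hC⟩ := hx
  exact ⟨C, fun n => (norm_resize_le (m n) (x n)).trans (hC n)⟩

variable {F : Filter ℕ}

lemma null_refl (x : ∀ n, Matrix (Fin (D n)) (Fin (D n)) ℂ) :
    Tendsto (fun n => norm2 (x n - x n)) F (𝓝 0) := by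
  simpa [norm2_zero] using tendsto_const_nhds

lemma null_symm {x y : ∀ n, Matrix (Fin (D n)) (Fin (D n)) ℂ}
    (h : Tendsto (fun n => norm2 (x n - y n)) F (𝓝 0)) :
    Tendsto (fun n => norm2 (y n - x n)) F (𝓝 0) := by
  simpa only [norm2_sub_comm] using h

lemma null_add {x y x' y' : ∀ n, Matrix (Fin (D n)) (Fin (D n)) ℂ}
    (h : Tendsto (fun n => norm2 (x n - y n)) F (𝓝 0))
    (h' : Tendsto (fun n => norm2 (x' n - y' n)) F (𝓝 0)) :
    Tendsto (fun n => norm2 ((x + x') n - (y + y') n)) F (𝓝 0) := by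
  refine squeeze_zero (fun _ => norm2_nonneg _) (fun n => ?_) (by simpa using h.add h')
  rw [Pi.add_apply, Pi.add_apply, add_sub_add_comm]
  exact norm2_add_le _ _

lemma null_trans {x y z : ∀ n, Matrix (Fin (D n)) (Fin (D n)) ℂ}
    (h : Tendsto (fun n => norm2 (x n - y n)) F (𝓝 0))
    (h' : Tendsto (fun n => norm2 (y n - z n)) F (𝓝 0)) :
    Tendsto (fun n => norm2 (x n - z n)) F (𝓝 0) := by
  refine squeeze_zero (fun _ => norm2_nonneg _) (fun n => ?_) (by simpa using h.add h')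
  rw [← sub_add_sub_cancel (x n) (y n) (z n)]
  exact norm2_add_le _ _

lemma null_mul {x y x' y' : ∀ n, Matrix (Fin (D n)) (Fin (D n)) ℂ}
    (hy : ∃ C, ∀ n, opNorm (y n) ≤ C) (hx' : ∃ C, ∀ n, opNorm (x' n) ≤ C)
    (h : Tendsto (fun n => norm2 (x n - y n)) F (𝓝 0))
    (h' : Tendsto (fun n => norm2 (x' n - y' n)) F (𝓝 0)) :
    Tendsto (fun n => norm2 ((x * x') n - (y * y') n)) F (𝓝 0) := by
  obtain ⟨C, hC⟩ := hy
  obtain ⟨C', hC'⟩ := hx'
  refine squeeze_zero (fun _ => norm2_nonneg _) (fun n => ?_)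
    (by simpa using (h.const_mul C').add (h'.const_mul C))
  have : (x * x') n - (y * y') n = (x n - y n) * x' n + y n * (x' n - y' n) := by
    simp only [Pi.mul_apply, sub_mul, mul_sub]
    abel
  rw [this]
  exact (norm2_add_le _ _).trans (add_le_add
    ((norm2_mul_le_right _ _).trans (mul_le_mul_of_nonneg_right (hC' n) (norm2_nonneg _)))
    ((norm2_mul_le_left _ _).trans (mul_le_mul_of_nonneg_right (hC n) (norm2_nonneg _))))

lemma null_star {x y : ∀ n, Matrix (Fin (D n)) (Fin (D n)) ℂ}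
    (h : Tendsto (fun n => norm2 (x n - y n)) F (𝓝 0)) :
    Tendsto (fun n => norm2 ((star x) n - (star y) n)) F (𝓝 0) := by
  refine h.congr (fun n => ?_)
  rw [← norm2_conjTranspose, conjTranspose_sub]
  rfl

lemma null_resize {m : ℕ → ℕ} (hm : Tendsto (fun n => (m n : ℝ) / D n) F (𝓝 1))
    {x y : ∀ n, Matrix (Fin (D n)) (Fin (D n)) ℂ}
    (h : Tendsto (fun n => norm2 (x n - y n)) F (𝓝 0)) :
    Tendsto (fun n => norm2 (resize (m n) (x n) - resize (m n) (y n))) F (𝓝 0) := by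
  refine squeeze_zero (fun _ => norm2_nonneg _) (fun n => ?_)
    (by simpa only [mul_zero] using (hm.inv₀ one_ne_zero).sqrt.mul h)
  rw [← resize_sub]
  exact norm2_resize_le _ _

end Aux

end Pool.Agent.Lib.MP_f81d8e_an
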