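import Mathlib
import Pool.Agent.Lib.MP_f81d8e_an.DefsAux

set_option autoImplicit false

namespace Pool.Agent.Lib.MP_f81d8e_an

open Matrix Filter Topology

/-- The norm-bounded sequences of matrices, as a subring of the product. -/
def bddSubring (d : ℕ → ℕ) : Subring (∀ n, Matrix (Fin (d n)) (Fin (d n)) ℂ) where
  carrier := {x | ∃ C, ∀ n, opNorm (x n) ≤ C}
  mul_mem' hx hy := id (bdd_mul hx hy)
  one_mem' := id bdd_one
  add_mem' hx hy := id (bdd_add hx hy)
  zero_mem' := id bdd_zero
  neg_mem' hx := id (bdd_neg hx)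

/-- The ring of norm-bounded sequences of matrices. -/
def BddSeq (d : ℕ → ℕ) : Type := bddSubring d

noncomputable instance (d : ℕ → ℕ) : Ring (BddSeq d) := Subring.toRing (bddSubring d)

/-- The `n`-th matrix of a bounded sequence. -/
def BddSeq.entry {d : ℕ → ℕ} (x : BddSeq d) (n : ℕ) : Matrix (Fin (d n)) (Fin (d n)) ℂ :=
  Subtype.val x n

/-- The sequence of adjoints. -/
def BddSeq.adj {d : ℕ → ℕ} (x : BddSeq d) : BddSeq d :=
  Subtype.mk (fun n => (x.entry n)ᴴ) (id (bdd_star x.2))

/-- The sequence of resized matrices. -/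
def BddSeq.resize {d : ℕ → ℕ} (m : ℕ → ℕ) (x : BddSeq d) : BddSeq m :=
  Subtype.mk (fun n => MP_f81d8e_an.resize (m n) (x.entry n)) (id (bdd_resize m x.2))

/-- Two bounded sequences are identified when their difference tends to zero in 2-norm
along the ultrafilter. -/
noncomputable def nullCon (U : Ultrafilter ℕ) (d : ℕ → ℕ) : RingCon (BddSeq d) where
  r x y := Tendsto (fun n => norm2 (x.entry n - y.entry n)) U (𝓝 0)
  iseqv := ⟨fun x => null_refl x.1, null_symm, null_trans⟩
  mul' := fun {_ x y _} h h' => null_mul x.2 y.2 h h'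
  add' h h' := id (null_add h h')

/-- The tracial ultraproduct of the matrix algebras. -/
def Ultra (U : Ultrafilter ℕ) (d : ℕ → ℕ) : Type := (nullCon U d).Quotient

noncomputable instance (U : Ultrafilter ℕ) (d : ℕ → ℕ) : Ring (Ultra U d) :=
  RingCon.instRingQuotient (nullCon U d)

/-- The class of a bounded sequence. -/
noncomputable def Ultra.mk (U : Ultrafilter ℕ) {d : ℕ → ℕ} (x : BddSeq d) : Ultra U d :=
  (nullCon U d).toQuotient x

noncomputable instance (U : Ultrafilter ℕ) (d : ℕ → ℕ) : StarMul (Ultra U d) where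
  star := Quotient.map' BddSeq.adj (fun _ _ h => null_star h)
  star_involutive x := Quotient.inductionOn' x
    (fun a => congrArg (Ultra.mk U) (Subtype.ext (star_star a.1)))
  star_mul x y := Quotient.inductionOn₂' x y
    (fun a b => congrArg (Ultra.mk U) (Subtype.ext (star_mul a.1 b.1)))

/-- The canonical identification of the ultraproducts when `m n / d n` tends to one. -/
noncomputable def transport {U : Ultrafilter ℕ} {d m : ℕ → ℕ}
    (h : Tendsto (fun n => (m n : ℝ) / d n) U (𝓝 1)) : Ultra U d → Ultra U m :=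
  Quotient.map' (BddSeq.resize m) (fun _ _ hxy => null_resize h hxy)

end Pool.Agent.Lib.MP_f81d8e_an
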