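import Mathlib
import Pool.Agent.Lib.MP_f81d8e_an.Basic

-- part Pool.Agent.Lib.MP_f81d8e_an.FC
section

set_option autoImplicit false
set_option linter.unusedSectionVars false

namespace Pool.Agent.Lib.MP_f81d8e_an

open Matrix Finset MeasureTheory
open scoped Matrix.Norms.L2Operator ComplexOrder

section FC

variable {m n : Type*} [Fintype m] [Fintype n] [DecidableEq m] [DecidableEq n]

/-- The unitary of eigenvectors. -/
noncomputable def eu {a : Matrix n n ℂ} (ha : a.IsHermitian) : Matrix n n ℂ :=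
  (ha.eigenvectorUnitary : Matrix n n ℂ)

lemma eu_mul_star {a : Matrix n n ℂ} (ha : a.IsHermitian) : eu ha * (eu ha)ᴴ = 1 :=
  Unitary.coe_mul_star_self ha.eigenvectorUnitary

lemma star_mul_eu {a : Matrix n n ℂ} (ha : a.IsHermitian) : (eu ha)ᴴ * eu ha = 1 :=
  Unitary.coe_star_mul_self ha.eigenvectorUnitary

/-- Functional calculus of a Hermitian matrix. -/
noncomputable def fc {a : Matrix n n ℂ} (ha : a.IsHermitian) (f : ℝ → ℝ) : Matrix n n ℂ :=
  eu ha * diagonal (fun i => ((f (ha.eigenvalues i) : ℝ) : ℂ)) * (eu ha)ᴴ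

variable {a : Matrix n n ℂ} (ha : a.IsHermitian)

lemma fc_congr_mat {b : Matrix n n ℂ} (hb : b.IsHermitian) (h : a = b) (f : ℝ → ℝ) :
    fc ha f = fc hb f := by
  subst h
  rfl

lemma fc_congr {f g : ℝ → ℝ} (h : ∀ i, f (ha.eigenvalues i) = g (ha.eigenvalues i)) :
    fc ha f = fc ha g := by
  unfold fc
  simp_rw [h]

lemma fc_id : fc ha (fun x => x) = a := by
  conv_rhs => rw [ha.spectral_theorem]
  rfl

lemma fc_herm (f : ℝ → ℝ) : (fc ha f)ᴴ = fc ha f := by
  unfold fc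
  simp only [conjTranspose_mul, conjTranspose_conjTranspose, diagonal_conjTranspose,
    Matrix.mul_assoc]
  congr 3
  ext i
  simp

lemma fc_isHermitian (f : ℝ → ℝ) : (fc ha f).IsHermitian := fc_herm ha f

lemma fc_mul (f g : ℝ → ℝ) : fc ha f * fc ha g = fc ha (fun x => f x * g x) := by
  unfold fc
  simp only [Matrix.mul_assoc]
  rw [← Matrix.mul_assoc (eu ha)ᴴ, star_mul_eu, Matrix.one_mul, ← Matrix.mul_assoc (diagonal _),
    diagonal_mul_diagonal]
  simp

lemma fc_add (f g : ℝ → ℝ) : fc ha f + fc ha g = fc ha (fun x => f x + g x) := by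
  unfold fc
  rw [← Matrix.add_mul, ← Matrix.mul_add, diagonal_add]
  simp

lemma fc_sub (f g : ℝ → ℝ) : fc ha f - fc ha g = fc ha (fun x => f x - g x) := by
  unfold fc
  rw [← Matrix.sub_mul, ← Matrix.mul_sub, diagonal_sub]
  simp

lemma fc_smul (c : ℝ) (f : ℝ → ℝ) : (c : ℂ) • fc ha f = fc ha (fun x => c * f x) := by
  unfold fc
  rw [← Matrix.smul_mul, ← Matrix.mul_smul, ← diagonal_smul]
  congr 3
  ext i
  simp

lemma fc_neg (f : ℝ → ℝ) : -fc ha f = fc ha (fun x => -f x) := by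
  unfold fc
  rw [← Matrix.neg_mul, ← Matrix.mul_neg, diagonal_neg]
  simp

lemma fc_one : fc ha (fun _ => 1) = 1 := by
  unfold fc
  simp [eu_mul_star]

lemma fc_zero : fc ha (fun _ => 0) = 0 := by
  unfold fc
  simp

lemma fc_const (c : ℝ) : fc ha (fun _ => c) = (c : ℂ) • (1 : Matrix n n ℂ) := by
  rw [← fc_one ha, fc_smul]
  simp

lemma trace_fc (f : ℝ → ℝ) : trace (fc ha f) = ∑ i, ((f (ha.eigenvalues i) : ℝ) : ℂ) := by
  unfold fc
  rw [trace_mul_comm, ← Matrix.mul_assoc, star_mul_eu, Matrix.one_mul, trace_diagonal]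

lemma tr_fc (f : ℝ → ℝ) : tr (fc ha f) = ∑ i, f (ha.eigenvalues i) := by
  unfold tr
  rw [trace_fc]
  simp

lemma tr_eq_sum : tr a = ∑ i, ha.eigenvalues i := by
  conv_lhs => rw [← fc_id ha]
  rw [tr_fc]

lemma fr_fc_sq (f : ℝ → ℝ) : fr (fc ha f) ^ 2 = ∑ i, f (ha.eigenvalues i) ^ 2 := by
  rw [fr_sq_eq_tr, fc_herm, fc_mul, tr_fc]
  simp [sq]

lemma det_fc (f : ℝ → ℝ) : det (fc ha f) = ((∏ i, f (ha.eigenvalues i) : ℝ) : ℂ) := by
  unfold fc
  rw [det_mul, det_mul, mul_comm, ← mul_assoc, ← det_mul, star_mul_eu, det_one, one_mul,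
    det_diagonal]
  simp

lemma norm_fc_le {f : ℝ → ℝ} {c : ℝ} (hc : 0 ≤ c) (h : ∀ i, |f (ha.eigenvalues i)| ≤ c) :
    ‖fc ha f‖ ≤ c := by
  unfold fc
  have h1 : ‖eu ha‖ ≤ 1 := isometry_norm_le (star_mul_eu ha)
  have h2 : ‖(eu ha)ᴴ‖ ≤ 1 := opNorm_conjTranspose_le_one h1
  have h3 : ‖(diagonal (fun i => ((f (ha.eigenvalues i) : ℝ) : ℂ)) : Matrix n n ℂ)‖ ≤ c := by
    rw [l2_opNorm_diagonal, pi_norm_le_iff_of_nonneg hc]
    intro i
    simpa using h i
  calc _ ≤ ‖eu ha * diagonal (fun i => ((f (ha.eigenvalues i) : ℝ) : ℂ))‖ * ‖(eu ha)ᴴ‖ :=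
        l2_opNorm_mul _ _
    _ ≤ (‖eu ha‖ * ‖(diagonal (fun i => ((f (ha.eigenvalues i) : ℝ) : ℂ)) : Matrix n n ℂ)‖) * 1 :=
        mul_le_mul (l2_opNorm_mul _ _) h2 (norm_nonneg _) (by positivity)
    _ ≤ (1 * c) * 1 := by gcongr
    _ = c := by ring

lemma isProj_fc {f : ℝ → ℝ} (h : ∀ i, f (ha.eigenvalues i) = 0 ∨ f (ha.eigenvalues i) = 1) :
    IsProj (fc ha f) := by
  refine ⟨fc_herm ha f, ?_⟩
  rw [fc_mul]
  apply fc_congr
  intro i
  rcases h i with h | h <;> simp [h]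

lemma posSemidef_fc {f : ℝ → ℝ} (h : ∀ i, 0 ≤ f (ha.eigenvalues i)) : (fc ha f).PosSemidef := by
  have : fc ha f = (fc ha (fun x => Real.sqrt (f x)))ᴴ * fc ha (fun x => Real.sqrt (f x)) := by
    rw [fc_herm, fc_mul]
    apply fc_congr
    intro i
    exact (Real.mul_self_sqrt (h i)).symm
  rw [this]
  exact posSemidef_conjTranspose_mul_self _

lemma fc_injective {f g : ℝ → ℝ} (h : fc ha f = fc ha g) (i : n) :
    f (ha.eigenvalues i) = g (ha.eigenvalues i) := by
  have h1 : fr (fc ha (fun x => f x - g x)) ^ 2 = 0 := by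
    rw [← fc_sub, h, sub_self, fr_zero]
    simp
  rw [fr_fc_sq, sum_eq_zero_iff_of_nonneg (fun _ _ => sq_nonneg _)] at h1
  have := h1 i (mem_univ i)
  simpa [sub_eq_zero] using this

lemma tr_nonneg_of_posSemidef {x : Matrix n n ℂ} (hx : x.PosSemidef) : 0 ≤ tr x := by
  have := hx.trace_nonneg
  exact (Complex.le_def.mp this).1

lemma tr_mul_proj_nonneg {x p : Matrix n n ℂ} (hx : x.PosSemidef) (hp : IsProj p) :
    0 ≤ tr (x * p) := by
  have h1 := tr_nonneg_of_posSemidef (hx.conjTranspose_mul_mul_same p)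
  rwa [hp.herm, Matrix.mul_assoc, tr_mul_comm, Matrix.mul_assoc, hp.idem] at h1

lemma tr_fc_mul_proj_mono {f g : ℝ → ℝ} (h : ∀ i, f (ha.eigenvalues i) ≤ g (ha.eigenvalues i))
    {p : Matrix n n ℂ} (hp : IsProj p) : tr (fc ha f * p) ≤ tr (fc ha g * p) := by
  have := tr_mul_proj_nonneg (posSemidef_fc ha (f := fun x => g x - f x)
    (fun i => sub_nonneg.mpr (h i))) hp
  rw [← fc_sub, Matrix.sub_mul, tr_sub] at this
  linarith

lemma IsProj.posSemidef {p : Matrix n n ℂ} (hp : IsProj p) : p.PosSemidef := by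
  have := posSemidef_conjTranspose_mul_self p
  rwa [hp.herm, hp.idem] at this

lemma IsProj.eigenvalues {p : Matrix n n ℂ} (hp : IsProj p) (i : n) :
    hp.isHermitian.eigenvalues i = 0 ∨ hp.isHermitian.eigenvalues i = 1 := by
  have h := fc_injective hp.isHermitian (f := fun x => x * x) (g := fun x => x) (by
    rw [← fc_mul, fc_id, hp.idem]) i
  rcases eq_or_ne (hp.isHermitian.eigenvalues i) 0 with h0 | h0
  · exact Or.inl h0
  · exact Or.inr (mul_left_cancel₀ h0 (by simpa using h))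

lemma IsProj.tr_eq_rank {p : Matrix n n ℂ} (hp : IsProj p) : tr p = p.rank := by
  rw [tr_eq_sum hp.isHermitian, hp.isHermitian.rank_eq_card_non_zero_eigs, Fintype.card_subtype,
    card_eq_sum_ones, sum_filter]
  push_cast
  apply sum_congr rfl
  intro i _
  rcases hp.eigenvalues i with h | h <;> simp [h]

lemma IsProj.one_le_tr {p : Matrix n n ℂ} (hp : IsProj p) (h : p ≠ 0) : 1 ≤ tr p := by
  have h1 : 0 < tr p := by
    rw [← hp.fr_sq]
    exact pow_pos (fr_pos h) 2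
  rw [hp.tr_eq_rank] at h1 ⊢
  exact_mod_cast h1

/-- The two-sided formula. -/
lemma fr_fc_sub_sq {b : Matrix m m ℂ} (hb : b.IsHermitian) (f g : ℝ → ℝ) (u : Matrix n m ℂ) :
    fr (fc ha f * u - u * fc hb g) ^ 2 = ∑ i, ∑ j, ‖((eu ha)ᴴ * u * eu hb) i j‖ ^ 2 *
      (f (ha.eigenvalues i) - g (hb.eigenvalues j)) ^ 2 := by
  set v := (eu ha)ᴴ * u * eu hb with hv
  have hu : u = eu ha * v * (eu hb)ᴴ := by
    rw [hv]
    simp only [← Matrix.mul_assoc]
    rw [eu_mul_star, Matrix.one_mul, Matrix.mul_assoc, eu_mul_star, Matrix.mul_one]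
  have h1 : fc ha f * u - u * fc hb g = eu ha *
      ((diagonal (fun i => ((f (ha.eigenvalues i) : ℝ) : ℂ)) * v -
        v * diagonal (fun j => ((g (hb.eigenvalues j) : ℝ) : ℂ))) * (eu hb)ᴴ) := by
    conv_lhs => rw [hu]
    unfold fc
    simp only [Matrix.mul_assoc, Matrix.sub_mul, Matrix.mul_sub]
    rw [← Matrix.mul_assoc (eu ha)ᴴ, star_mul_eu, Matrix.one_mul, ← Matrix.mul_assoc (eu hb)ᴴ,
      star_mul_eu, Matrix.one_mul]
  rw [h1, fr_isometry_mul (star_mul_eu ha), fr_mul_coisometry _ (by simpa using star_mul_eu hb),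
    fr_sq]
  apply sum_congr rfl
  intro i _
  apply sum_congr rfl
  intro j _
  rw [Matrix.sub_apply, diagonal_mul, mul_diagonal, mul_comm (v i j), ← sub_mul, norm_mul, mul_pow,
    mul_comm, ← Complex.ofReal_sub, Complex.norm_real, Real.norm_eq_abs, sq_abs]

/-- Domination principle. -/
lemma fr_fc_dom {b : Matrix m m ℂ} (hb : b.IsHermitian) {f g f' g' : ℝ → ℝ} {L : ℝ} (hL : 0 ≤ L)
    (h : ∀ i j, |f (ha.eigenvalues i) - g (hb.eigenvalues j)| ≤
      L * |f' (ha.eigenvalues i) - g' (hb.eigenvalues j)|) (u : Matrix n m ℂ) :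
    fr (fc ha f * u - u * fc hb g) ≤ L * fr (fc ha f' * u - u * fc hb g') := by
  apply (pow_le_pow_iff_left₀ (fr_nonneg _) (mul_nonneg hL (fr_nonneg _)) two_ne_zero).mp
  rw [mul_pow, fr_fc_sub_sq, fr_fc_sub_sq, mul_sum]
  apply sum_le_sum
  intro i _
  rw [mul_sum]
  apply sum_le_sum
  intro j _
  have h1 := pow_le_pow_left₀ (abs_nonneg _) (h i j) 2
  rw [mul_pow, sq_abs, sq_abs] at h1
  nlinarith [sq_nonneg ‖((eu ha)ᴴ * u * eu hb) i j‖]

/-- One-sided domination. -/
lemma fr_fc_mul_dom {f f' : ℝ → ℝ} {L : ℝ} (hL : 0 ≤ L)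
    (h : ∀ i, |f (ha.eigenvalues i)| ≤ L * |f' (ha.eigenvalues i)|) (u : Matrix n m ℂ) :
    fr (fc ha f * u) ≤ L * fr (fc ha f' * u) := by
  have h0 : (0 : Matrix m m ℂ).IsHermitian := isHermitian_zero
  have := fr_fc_dom ha h0 (f := f) (g := fun _ => 0) (f' := f') (g' := fun _ => 0) hL
    (fun i _ => by simpa using h i) u
  simpa [fc_zero] using this

variable {S : Type*} [Fintype S]

lemma en_fc_dom {f f' : ℝ → ℝ} {L : ℝ} (hL : 0 ≤ L)
    (h : ∀ i j, |f (ha.eigenvalues i) - f (ha.eigenvalues j)| ≤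
      L * |f' (ha.eigenvalues i) - f' (ha.eigenvalues j)|) (u : S → Matrix n n ℂ) :
    en u u (fc ha f) ≤ L * en u u (fc ha f') := by
  unfold en
  rw [← l2_mul _ hL]
  apply l2_mono (fun _ => fr_nonneg _)
  intro s
  rw [fr_sub_comm, fr_sub_comm (u s * _)]
  exact fr_fc_dom ha ha hL h (u s)

/-- Indicator of `x > s`. -/
noncomputable def ind (s x : ℝ) : ℝ := if s < x then 1 else 0

lemma ind_cases (s x : ℝ) : ind s x = 0 ∨ ind s x = 1 := by
  unfold ind
  split_ifs <;> simp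

lemma isProj_fc_ind (φ : ℝ → ℝ) (s : ℝ) : IsProj (fc ha (fun x => ind s (φ x))) :=
  isProj_fc ha (fun _ => ind_cases _ _)

/-- Rounding a Hermitian matrix close to a projection. -/
lemma fr_round_le {s : ℝ} (h1 : 1 / 4 ≤ s) (h2 : s ≤ 3 / 4) {p : Matrix n n ℂ} (hp : IsProj p) :
    fr (fc ha (fun x => ind s x) - p) ≤ 4 * fr (a - p) := by
  have := fr_fc_dom ha hp.isHermitian (f := fun x => ind s x) (g := fun x => x) (f' := fun x => x)
    (g' := fun x => x) (L := 4) (by norm_num) (by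
      intro i j
      unfold ind
      rcases hp.eigenvalues j with h | h <;> rw [h] <;> split_ifs with h'
      · rw [sub_zero, sub_zero, abs_one, abs_of_pos (by linarith)]
        linarith
      · simp
      · simp
      · rw [zero_sub, abs_neg, abs_one, abs_of_neg (by linarith)]
        linarith) 1
  simpa [fc_id] using this

lemma ind_sub_sq (α β t : ℝ) :
    (ind t α - ind t β) ^ 2 = (Set.Ico (min α β) (max α β)).indicator (fun _ => (1 : ℝ)) t := by
  unfold ind
  by_cases h1 : t < α <;> by_cases h2 : t < β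
  · rw [if_pos h1, if_pos h2, Set.indicator_of_notMem]
    · simp
    · simp only [Set.mem_Ico, not_and, min_le_iff]
      rintro (h | h) <;> linarith
  · rw [if_pos h1, if_neg h2, Set.indicator_of_mem]
    · simp
    · exact ⟨(min_le_right _ _).trans (not_lt.mp h2), lt_max_of_lt_left h1⟩
  · rw [if_neg h1, if_pos h2, Set.indicator_of_mem]
    · simp
    · exact ⟨(min_le_left _ _).trans (not_lt.mp h1), lt_max_of_lt_right h2⟩
  · rw [if_neg h1, if_neg h2, Set.indicator_of_notMem]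
    · simp
    · simp only [Set.mem_Ico, not_and, lt_max_iff, not_or]
      intro _
      exact ⟨h1, h2⟩

lemma integrableOn_ind_sub_sq (α β a b : ℝ) :
    IntegrableOn (fun t => (ind t α - ind t β) ^ 2) (Set.Ioc a b) := by
  simp_rw [ind_sub_sq]
  exact (integrableOn_const (by simp)).indicator measurableSet_Ico

lemma integral_ind_sub_sq_le (α β a b : ℝ) :
    ∫ t in Set.Ioc a b, (ind t α - ind t β) ^ 2 ≤ |α - β| := by
  simp_rw [ind_sub_sq]
  rw [integral_indicator_const _ measurableSet_Ico, smul_eq_mul, mul_one,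
    measureReal_restrict_apply measurableSet_Ico]
  refine (measureReal_mono Set.inter_subset_left (by simp)).trans ?_
  rw [Real.volume_real_Ico, max_sub_min_eq_abs', max_eq_left (abs_nonneg _)]

lemma integral_ind_sub_sq_le' (α β : ℝ) {a : ℝ} (ha : 0 < a) (b : ℝ) :
    ∫ t in Set.Ioc a b, (ind t α - ind t β) ^ 2 ≤ |α - β| * (|α| + |β|) / a := by
  by_cases h : α ≤ a ∧ β ≤ a
  · have : ∫ t in Set.Ioc a b, (ind t α - ind t β) ^ 2 = 0 := by
      apply setIntegral_eq_zero_of_forall_eq_zero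
      intro t ht
      unfold ind
      rw [if_neg (by linarith [ht.1, h.1]), if_neg (by linarith [ht.1, h.2])]
      simp
    rw [this]
    positivity
  · refine (integral_ind_sub_sq_le α β a b).trans ?_
    rw [le_div_iff₀ ha]
    apply mul_le_mul_of_nonneg_left _ (abs_nonneg _)
    rw [not_and_or, not_le, not_le] at h
    rcases h with h | h
    · linarith [le_abs_self α, abs_nonneg β]
    · linarith [le_abs_self β, abs_nonneg α]

lemma integral_ind {α M : ℝ} (h0 : 0 ≤ α) (hM : α ≤ M) :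
    ∫ t in Set.Ioc 0 M, ind t α = α := by
  have : (fun t => ind t α) = (Set.Iio α).indicator (fun _ => (1 : ℝ)) := by
    ext t
    simp [ind, Set.indicator]
  rw [this, integral_indicator_const _ measurableSet_Iio, smul_eq_mul, mul_one,
    measureReal_restrict_apply measurableSet_Iio]
  have : Set.Iio α ∩ Set.Ioc 0 M = Set.Ioo 0 α := by
    ext t
    simp only [Set.mem_inter_iff, Set.mem_Iio, Set.mem_Ioc, Set.mem_Ioo]
    constructor
    · rintro ⟨h1, h2, _⟩
      exact ⟨h2, h1⟩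
    · rintro ⟨h1, h2⟩
      exact ⟨h2, h1, by linarith⟩
  rw [this, Real.volume_real_Ioo]
  simp [h0]

lemma integrableOn_ind (α a b : ℝ) : IntegrableOn (fun t => ind t α) (Set.Ioc a b) := by
  have : (fun t => ind t α) = (Set.Iio α).indicator (fun _ => (1 : ℝ)) := by
    ext t
    simp [ind, Set.indicator]
  rw [this]
  exact (integrableOn_const (by simp)).indicator measurableSet_Iio

lemma en_fc_sq (f : ℝ → ℝ) (u : S → Matrix n n ℂ) :
    en u u (fc ha f) ^ 2 = ∑ s, ∑ i, ∑ j, ‖((eu ha)ᴴ * u s * eu ha) i j‖ ^ 2 *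
      (f (ha.eigenvalues i) - f (ha.eigenvalues j)) ^ 2 := by
  rw [en_sq]
  apply sum_congr rfl
  intro s _
  rw [fr_sub_comm, fr_fc_sub_sq]

/-- The Cauchy-Schwarz step shared by the co-area formula and the Cheeger inequality. -/
lemma sum_abs_mul_le (φ : ℝ → ℝ) {u : S → Matrix n n ℂ} (hu : ∀ s, ‖u s‖ ≤ 1) :
    ∑ s, ∑ i, ∑ j, ‖((eu ha)ᴴ * u s * eu ha) i j‖ ^ 2 *
      (|φ (ha.eigenvalues i) - φ (ha.eigenvalues j)| *
        (|φ (ha.eigenvalues i)| + |φ (ha.eigenvalues j)|)) ≤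
      2 * Real.sqrt (Fintype.card S) * en u u (fc ha φ) * fr (fc ha φ) := by
  have key : ∀ s, ∑ i, ∑ j, ‖((eu ha)ᴴ * u s * eu ha) i j‖ ^ 2 *
      (|φ (ha.eigenvalues i) - φ (ha.eigenvalues j)| *
        (|φ (ha.eigenvalues i)| + |φ (ha.eigenvalues j)|)) ≤
      fr (u s * fc ha φ - fc ha φ * u s) * (2 * fr (fc ha φ)) := by
    intro s
    set c := fun i j => ‖((eu ha)ᴴ * u s * eu ha) i j‖ with hc
    have h1 := Real.sum_mul_le_sqrt_mul_sqrt (univ : Finset (n × n))
      (fun p => c p.1 p.2 * |φ (ha.eigenvalues p.1) - φ (ha.eigenvalues p.2)|)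
      (fun p => c p.1 p.2 * (|φ (ha.eigenvalues p.1)| + |φ (ha.eigenvalues p.2)|))
    simp only [Fintype.sum_prod_type, mul_pow, sq_abs] at h1
    have h2 := fr_fc_sub_sq ha ha φ φ (u s)
    have h3 := fr_fc_sub_sq ha ha (fun x => |φ x|) (fun x => -|φ x|) (u s)
    simp only [sub_neg_eq_add] at h3
    rw [← h2, ← h3, Real.sqrt_sq (fr_nonneg _), Real.sqrt_sq (fr_nonneg _)] at h1
    have h4 : fr (fc ha (fun x => |φ x|)) = fr (fc ha φ) := by
      apply (pow_left_inj₀ (fr_nonneg _) (fr_nonneg _) two_ne_zero).mp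
      rw [fr_fc_sq, fr_fc_sq]
      simp
    have h5 : fr (fc ha (fun x => |φ x|) * u s - u s * fc ha (fun x => -|φ x|)) ≤
        2 * fr (fc ha φ) := by
      refine (fr_sub_le _ _).trans ?_
      have e1 := fr_mul_le_right' (fc ha (fun x => |φ x|)) (hu s)
      have e2 := fr_mul_le_left' (hu s) (fc ha (fun x => -|φ x|))
      rw [← fc_neg, fr_neg] at e2
      rw [← fc_neg]
      linarith
    rw [fr_sub_comm (u s * _)]
    refine le_trans (le_of_eq ?_) (h1.trans (mul_le_mul_of_nonneg_left h5 (fr_nonneg _)))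
    apply sum_congr rfl
    intro i _
    apply sum_congr rfl
    intro j _
    ring
  refine (sum_le_sum (fun s _ => key s)).trans ?_
  rw [← sum_mul]
  have := sum_le_l2 (fun s => fr (u s * fc ha φ - fc ha φ * u s))
  have h0 := fr_nonneg (fc ha φ)
  unfold en
  nlinarith

lemma integrableOn_en_ind_sq (φ : ℝ → ℝ) (u : S → Matrix n n ℂ) (α β : ℝ) :
    IntegrableOn (fun t => en u u (fc ha (fun x => ind t (φ x))) ^ 2) (Set.Ioc α β) := by
  simp_rw [en_fc_sq]
  refine integrable_finsetSum _ (fun s _ => integrable_finsetSum _ (fun i _ =>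
    integrable_finsetSum _ (fun j _ => ?_)))
  exact (integrableOn_ind_sub_sq _ _ _ _).const_mul _

lemma integral_en_ind_sq (φ : ℝ → ℝ) (u : S → Matrix n n ℂ) (α β : ℝ) :
    ∫ t in Set.Ioc α β, en u u (fc ha (fun x => ind t (φ x))) ^ 2 =
      ∑ s, ∑ i, ∑ j, ‖((eu ha)ᴴ * u s * eu ha) i j‖ ^ 2 *
        ∫ t in Set.Ioc α β, (ind t (φ (ha.eigenvalues i)) - ind t (φ (ha.eigenvalues j))) ^ 2 := by
  simp_rw [en_fc_sq]
  rw [integral_finsetSum _ (fun s _ => integrable_finsetSum _ (fun i _ =>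
    integrable_finsetSum _ (fun j _ => (integrableOn_ind_sub_sq _ _ _ _).const_mul _)))]
  apply sum_congr rfl
  intro s _
  rw [integral_finsetSum _ (fun i _ =>
    integrable_finsetSum _ (fun j _ => (integrableOn_ind_sub_sq _ _ _ _).const_mul _))]
  apply sum_congr rfl
  intro i _
  rw [integral_finsetSum _ (fun j _ => (integrableOn_ind_sub_sq _ _ _ _).const_mul _)]
  apply sum_congr rfl
  intro j _
  rw [integral_const_mul]

/-- Co-area formula: some spectral projection has small energy. -/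
lemma exists_level (φ : ℝ → ℝ) {u : S → Matrix n n ℂ} (hu : ∀ s, ‖u s‖ ≤ 1) {α β : ℝ}
    (hα : 0 < α) (hαβ : α < β) :
    ∃ t, α < t ∧ t ≤ β ∧ en u u (fc ha (fun x => ind t (φ x))) ^ 2 ≤
      2 * Real.sqrt (Fintype.card S) / (α * (β - α)) * (en u u (fc ha φ) * fr (fc ha φ)) := by
  obtain ⟨t, ht, h⟩ := exists_le_setAverage (μ := volume) (s := Set.Ioc α β) (by simpa using hαβ)
    (by simp) (integrableOn_en_ind_sq ha φ u α β)
  refine ⟨t, ht.1, ht.2, h.trans ?_⟩
  rw [setAverage_eq, Real.volume_real_Ioc, max_eq_left (by linarith), smul_eq_mul,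
    integral_en_ind_sq]
  have h1 : ∑ s, ∑ i, ∑ j, ‖((eu ha)ᴴ * u s * eu ha) i j‖ ^ 2 *
        ∫ t in Set.Ioc α β, (ind t (φ (ha.eigenvalues i)) - ind t (φ (ha.eigenvalues j))) ^ 2 ≤
      (∑ s, ∑ i, ∑ j, ‖((eu ha)ᴴ * u s * eu ha) i j‖ ^ 2 *
      (|φ (ha.eigenvalues i) - φ (ha.eigenvalues j)| *
        (|φ (ha.eigenvalues i)| + |φ (ha.eigenvalues j)|))) / α := by
    simp only [sum_div]
    refine sum_le_sum (fun s _ => sum_le_sum (fun i _ => sum_le_sum (fun j _ => ?_)))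
    rw [mul_div_assoc]
    exact mul_le_mul_of_nonneg_left (integral_ind_sub_sq_le' _ _ hα _) (sq_nonneg _)
  have h2 := sum_abs_mul_le ha φ hu
  have hβ : 0 < β - α := by linarith
  calc _ ≤ (β - α)⁻¹ * ((2 * Real.sqrt (Fintype.card S) * en u u (fc ha φ) * fr (fc ha φ)) / α) := by
        apply mul_le_mul_of_nonneg_left _ (by positivity)
        exact h1.trans (div_le_div_of_nonneg_right h2 hα.le)
    _ = _ := by field_simp

/-- Rounding: a Hermitian matrix has a spectral projection, at a level between `1/4` and `3/4`,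
of controlled energy. -/
lemma exists_round {u : S → Matrix n n ℂ} (hu : ∀ s, ‖u s‖ ≤ 1) :
    ∃ t, 1 / 4 < t ∧ t ≤ 3 / 4 ∧ en u u (fc ha (fun x => ind t x)) ^ 2 ≤
      16 * Real.sqrt (Fintype.card S) * (en u u a * fr a) := by
  obtain ⟨t, h1, h2, h3⟩ := exists_level ha (fun x => x) hu (α := 1 / 4) (β := 3 / 4)
    (by norm_num) (by norm_num)
  refine ⟨t, h1, h2, h3.trans (le_of_eq ?_)⟩
  rw [fc_id]
  ring

lemma mul_fc_ind_eq_zero {x : Matrix m n ℂ} (hx : x * a = 0) {t : ℝ} (ht : 0 < t) :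
    x * fc ha (fun y => ind t y) = 0 := by
  have : fc ha (fun y => ind t y) = fc ha (fun y => y) * fc ha (fun y => ind t y / y) := by
    rw [fc_mul]
    apply fc_congr
    intro i
    unfold ind
    split_ifs with h
    · have : ha.eigenvalues i ≠ 0 := by linarith
      field_simp
    · simp
  rw [this, fc_id, ← Matrix.mul_assoc, hx, Matrix.zero_mul]

end FC

end Pool.Agent.Lib.MP_f81d8e_an
end

-- part Pool.Agent.Lib.MP_f81d8e_an.Ridge
section

set_option autoImplicit false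
set_option linter.unusedSectionVars false

namespace Pool.Agent.Lib.MP_f81d8e_an

open Matrix Finset
open scoped Matrix.Norms.L2Operator ComplexOrder

attribute [local irreducible] fr tr en fc

section Ridge

variable {n l : Type*} [Fintype n] [Fintype l] [DecidableEq n] [DecidableEq l]

lemma ridge_step {M p : Matrix n n ℂ} {t : ℝ} (ht : 0 < t) (hM : Mᴴ = M)
    (hMt : ∀ δ : Matrix l n ℂ, t * fr δ ^ 2 ≤ tr (δ * M * δᴴ)) (hp : IsProj p)
    {θ θ' α : Matrix l n ℂ} (hα : α * p = α) (h : θ' * (M + p) = θ * M + α) :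
    t * fr (θ * p - α) ^ 2 ≤
      (1 + t) * (fr α ^ 2 - tr (θ' * (M + p) * θ'ᴴ) + tr (θ * M * θᴴ)) := by
  obtain ⟨δ, rfl⟩ : ∃ δ, θ = θ' - δ := ⟨θ' - θ, by abel⟩
  obtain ⟨e, rfl⟩ : ∃ e, α = θ' * p - e := ⟨θ' * p - α, by abel⟩
  have hep : e * p = e := by
    rw [Matrix.sub_mul, Matrix.mul_assoc, hp.idem] at hα
    exact sub_right_injective hα
  have h1 : δ * M = -e := by
    rw [Matrix.mul_add, Matrix.sub_mul] at h
    calc δ * M = θ' * M + (θ' * p - e) - (θ' * M - δ * M + (θ' * p - e)) := by abel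
      _ = -e := by
        rw [← h]
        abel
  have h2 : tr (θ' * (M + p) * θ'ᴴ) = tr (θ' * M * θ'ᴴ) + fr (θ' * p) ^ 2 := by
    rw [Matrix.mul_add, Matrix.add_mul, tr_add, fr_sq_eq_tr', conjTranspose_mul, hp.herm]
    congr 2
    rw [Matrix.mul_assoc, Matrix.mul_assoc, ← Matrix.mul_assoc p, hp.idem]
  have h3 : tr (θ' * M * δᴴ) = tr (δ * M * θ'ᴴ) := by
    rw [← tr_conjTranspose]
    simp [hM, Matrix.mul_assoc]
  have h4 : tr ((θ' - δ) * M * (θ' - δ)ᴴ) =
      tr (θ' * M * θ'ᴴ) - 2 * tr (δ * M * θ'ᴴ) + tr (δ * M * δᴴ) := by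
    rw [conjTranspose_sub, Matrix.sub_mul, Matrix.sub_mul, Matrix.mul_sub, Matrix.mul_sub, tr_sub,
      tr_sub, tr_sub, h3]
    ring
  have h5 : tr (δ * M * θ'ᴴ) = -tr ((θ' * p)ᴴ * e) := by
    rw [h1, Matrix.neg_mul, tr_neg, conjTranspose_mul, hp.herm, Matrix.mul_assoc, tr_mul_comm p,
      Matrix.mul_assoc, hep, tr_mul_comm]
  have h6 := fr_sub_sq (θ' * p) e
  have h7 : fr ((θ' - δ) * p - (θ' * p - e)) ≤ fr e + fr δ := by
    have : (θ' - δ) * p - (θ' * p - e) = e - δ * p := by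
      rw [Matrix.sub_mul]
      abel
    rw [this]
    exact (fr_sub_le _ _).trans (add_le_add_right (fr_mul_le_right' _ hp.norm_le) _)
  have h8 := pow_le_pow_left₀ (fr_nonneg _) h7 2
  have h9 := hMt δ
  rw [h2, h4, h5, h6]
  have h10 : t * (fr e + fr δ) ^ 2 ≤ (1 + t) * (fr e ^ 2 + t * fr δ ^ 2) := by
    nlinarith [sq_nonneg (fr e - t * fr δ)]
  nlinarith

/-- Partial sums of a sequence of projections. -/
noncomputable def ps (p : ℕ → Matrix n n ℂ) (i : ℕ) : Matrix n n ℂ := ∑ j ∈ range i, p j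

lemma ps_succ (p : ℕ → Matrix n n ℂ) (i : ℕ) : ps p (i + 1) = ps p i + p i := sum_range_succ _ _

lemma ps_zero (p : ℕ → Matrix n n ℂ) : ps p 0 = 0 := by simp [ps]

lemma ps_psd {p : ℕ → Matrix n n ℂ} (hp : ∀ j, IsProj (p j)) (i : ℕ) : (ps p i).PosSemidef := by
  induction i with
  | zero => rw [ps_zero]; exact PosSemidef.zero
  | succ i ih => rw [ps_succ]; exact ih.add (hp i).posSemidef

/-- Resolvent. -/
noncomputable def res {w : Matrix n n ℂ} (hw : w.PosSemidef) (t : ℝ) : Matrix n n ℂ :=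
  fc hw.1 (fun x => 1 / (x + t))

/-- Normalised resolvent. -/
noncomputable def rho {w : Matrix n n ℂ} (hw : w.PosSemidef) (t : ℝ) : Matrix n n ℂ :=
  fc hw.1 (fun x => t / (x + t))

variable {w : Matrix n n ℂ} (hw : w.PosSemidef) {t : ℝ}

lemma rho_eq : rho hw t = (t : ℂ) • res hw t := by
  unfold rho res
  rw [fc_smul]
  apply fc_congr
  intro i
  ring

lemma add_smul_eq_fc : w + (t : ℂ) • 1 = fc hw.1 (fun x => x + t) := by
  rw [← fc_add, fc_id, fc_const]

lemma res_mul (ht : 0 < t) : res hw t * (w + (t : ℂ) • 1) = 1 := by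
  rw [add_smul_eq_fc hw, res, fc_mul, ← fc_one hw.1]
  apply fc_congr
  intro i
  have := hw.eigenvalues_nonneg i
  field_simp

lemma mul_res (ht : 0 < t) : (w + (t : ℂ) • 1) * res hw t = 1 := by
  rw [add_smul_eq_fc hw, res, fc_mul, ← fc_one hw.1]
  apply fc_congr
  intro i
  have := hw.eigenvalues_nonneg i
  field_simp

lemma res_herm : (res hw t)ᴴ = res hw t := fc_herm _ _

lemma rho_herm : (rho hw t)ᴴ = rho hw t := fc_herm _ _

lemma norm_res_le (ht : 0 < t) : ‖res hw t‖ ≤ 1 / t := by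
  apply norm_fc_le _ (by positivity)
  intro i
  have := hw.eigenvalues_nonneg i
  rw [abs_of_nonneg (by positivity)]
  exact one_div_le_one_div_of_le ht (by linarith)

lemma norm_rho_le (ht : 0 < t) : ‖rho hw t‖ ≤ 1 := by
  apply norm_fc_le _ (by positivity)
  intro i
  have := hw.eigenvalues_nonneg i
  rw [abs_of_nonneg (by positivity), div_le_one (by positivity)]
  linarith

include hw in
lemma tr_conj_ge (δ : Matrix l n ℂ) : t * fr δ ^ 2 ≤ tr (δ * (w + (t : ℂ) • 1) * δᴴ) := by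
  have h1 := tr_nonneg_of_posSemidef (hw.mul_mul_conjTranspose_same δ)
  rw [Matrix.mul_add, Matrix.add_mul, tr_add, Matrix.mul_smul, Matrix.smul_mul, tr_smul,
    Matrix.mul_one, ← fr_sq_eq_tr']
  linarith

include hw in
lemma add_smul_herm : (w + (t : ℂ) • 1)ᴴ = w + (t : ℂ) • 1 := by
  rw [add_smul_eq_fc hw, fc_herm]

variable {p : ℕ → Matrix n n ℂ} (hp : ∀ j, IsProj (p j))

/-- The regret bound of online ridge regression. -/
lemma ridge (ht : 0 < t) (k : Matrix l n ℂ) (α : ℕ → Matrix l n ℂ) (hα : ∀ j, α j * p j = α j)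
    (N : ℕ) :
    t * ∑ i ∈ range N, fr ((k + ∑ j ∈ range i, α j) * res (ps_psd hp i) t * p i - α i) ^ 2 ≤
      (1 + t) * (fr k ^ 2 / t + ∑ i ∈ range N, fr (α i) ^ 2) := by
  set θ : ℕ → Matrix l n ℂ := fun i => (k + ∑ j ∈ range i, α j) * res (ps_psd hp i) t with hθ
  have hθM : ∀ i, θ i * (ps p i + (t : ℂ) • 1) = k + ∑ j ∈ range i, α j := by
    intro i
    rw [hθ, Matrix.mul_assoc, res_mul _ ht, Matrix.mul_one]
  set Φ : ℕ → ℝ := fun i => tr (θ i * (ps p i + (t : ℂ) • 1) * (θ i)ᴴ) with hΦ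
  have key : ∀ N, t * ∑ i ∈ range N, fr (θ i * p i - α i) ^ 2 ≤
      (1 + t) * (∑ i ∈ range N, fr (α i) ^ 2 - Φ N + Φ 0) := by
    intro N
    induction N with
    | zero => simp
    | succ N ih =>
      have e : ps p (N + 1) + (t : ℂ) • 1 = ps p N + (t : ℂ) • 1 + p N := by
        rw [ps_succ]
        abel
      have := ridge_step ht (add_smul_herm (ps_psd hp N)) (tr_conj_ge (ps_psd hp N)) (hp N)
        (θ := θ N) (θ' := θ (N + 1)) (hα N) (by
          rw [← e, hθM, hθM, sum_range_succ]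
          abel)
      rw [← e] at this
      rw [sum_range_succ, sum_range_succ]
      simp only [hΦ] at ih ⊢
      nlinarith
  have h0 : Φ 0 ≤ fr k ^ 2 / t := by
    simp only [hΦ]
    rw [hθM]
    simp only [range_zero, sum_empty, add_zero, hθ]
    rw [tr_mul_comm]
    refine (tr_mul_le _ _).trans ?_
    have := fr_mul_le_right k (res (ps_psd hp 0) t)
    have h2 := norm_res_le (ps_psd hp 0) ht
    have h3 := fr_nonneg k
    calc _ ≤ fr k * (1 / t) * fr k := by
          apply mul_le_mul_of_nonneg_right _ h3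
          exact this.trans (mul_le_mul_of_nonneg_left h2 h3)
      _ = _ := by ring
  have hN : 0 ≤ Φ N := by
    have := tr_conj_ge (t := t) (ps_psd hp N) (θ N)
    have h2 : 0 ≤ t * fr (θ N) ^ 2 := by positivity
    exact h2.trans this
  refine (key N).trans ?_
  apply mul_le_mul_of_nonneg_left _ (by linarith)
  linarith

/-- The vectors `rho i * p i` form a near contraction. -/
lemma sum_fr_rho_le (ht : 0 < t) (k : Matrix l n ℂ) (N : ℕ) :
    ∑ i ∈ range N, fr (k * (rho (ps_psd hp i) t * p i)) ^ 2 ≤ (1 + t) * fr k ^ 2 := by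
  have := ridge hp ht k (fun _ => 0) (fun _ => by simp) N
  simp only [sum_const_zero, add_zero, sub_zero, fr_zero, ne_eq, OfNat.ofNat_ne_zero,
    not_false_eq_true, zero_pow] at this
  have e : ∀ i, fr (k * (rho (ps_psd hp i) t * p i)) ^ 2 =
      t ^ 2 * fr (k * res (ps_psd hp i) t * p i) ^ 2 := by
    intro i
    rw [rho_eq, Matrix.smul_mul, Matrix.mul_smul, fr_smul_real, mul_pow, sq_abs, Matrix.mul_assoc]
  simp_rw [e]
  rw [← mul_sum]
  calc _ = t * (t * ∑ i ∈ range N, fr (k * res (ps_psd hp i) t * p i) ^ 2) := by ring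
    _ ≤ t * ((1 + t) * (fr k ^ 2 / t)) := mul_le_mul_of_nonneg_left this ht.le
    _ = _ := by field_simp

lemma fr_res_sum_le (ht : 0 < t) (y : ℕ → Matrix n l ℂ) (i : ℕ) :
    fr (res (ps_psd hp i) t * ∑ j ∈ range i, p j * y j) ^ 2 ≤
      1 / t * ∑ j ∈ range i, fr (y j) ^ 2 := by
  have hRh : (res (ps_psd hp i) t)ᴴ = res (ps_psd hp i) t := res_herm _
  have hRn := norm_res_le (ps_psd hp i) ht
  have hRm := mul_res (ps_psd hp i) ht
  generalize res (ps_psd hp i) t = R at hRh hRn hRm ⊢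
  obtain ⟨Y, hY⟩ : ∃ Y, Y = R * ∑ j ∈ range i, p j * y j := ⟨_, rfl⟩
  rw [← hY]
  have h1 : fr Y ^ 2 ≤ ∑ j ∈ range i, fr (p j * (R * Y)) * fr (y j) := by
    have e : Yᴴ * Y = ∑ j ∈ range i, (p j * (R * Y))ᴴ * y j := by
      conv_lhs => rw [show Yᴴ * Y = Yᴴ * (R * ∑ j ∈ range i, p j * y j) by rw [← hY]]
      rw [Matrix.mul_sum, Matrix.mul_sum]
      apply sum_congr rfl
      intro j _
      rw [conjTranspose_mul, conjTranspose_mul, hRh, (hp j).herm]
      simp only [Matrix.mul_assoc]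
    rw [fr_sq_eq_tr, e, tr_sum]
    exact sum_le_sum (fun j _ => tr_mul_le _ _)
  have h2 : ∑ j ∈ range i, fr (p j * (R * Y)) ^ 2 ≤ 1 / t * fr Y ^ 2 := by
    have e : ∑ j ∈ range i, fr (p j * (R * Y)) ^ 2 = tr ((R * Y)ᴴ * ps p i * (R * Y)) := by
      unfold ps
      rw [Matrix.mul_sum, Matrix.sum_mul, tr_sum]
      apply sum_congr rfl
      intro j _
      rw [fr_sq_eq_tr, conjTranspose_mul, (hp j).herm, Matrix.mul_assoc, ← Matrix.mul_assoc (p j),
        (hp j).idem, Matrix.mul_assoc]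
    have e2 : tr ((R * Y)ᴴ * (ps p i + (t : ℂ) • 1) * (R * Y)) = tr ((R * Y)ᴴ * Y) := by
      rw [Matrix.mul_assoc _ (ps p i + (t : ℂ) • 1), ← Matrix.mul_assoc _ R Y, hRm, Matrix.one_mul]
    rw [Matrix.mul_add, Matrix.add_mul, tr_add, Matrix.mul_smul, Matrix.smul_mul, tr_smul,
      Matrix.mul_one, ← fr_sq_eq_tr] at e2
    have e3 := tr_mul_le (R * Y) Y
    have e4 : fr (R * Y) ≤ 1 / t * fr Y := (fr_mul_le_left _ _).trans
      (mul_le_mul_of_nonneg_right hRn (fr_nonneg _))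
    have e5 : 0 ≤ t * fr (R * Y) ^ 2 := by positivity
    have e6 := mul_le_mul_of_nonneg_right e4 (fr_nonneg Y)
    rw [e]
    nlinarith
  have h3 := sum_mul_sq_le_sq_mul_sq (range i) (fun j => fr (p j * (R * Y))) (fun j => fr (y j))
  have h4 : 0 ≤ ∑ j ∈ range i, fr (y j) ^ 2 := sum_nonneg (fun _ _ => sq_nonneg _)
  rcases eq_or_lt_of_le (sq_nonneg (fr Y)) with h | h
  · rw [← h]
    positivity
  · have h5 : (fr Y ^ 2) ^ 2 ≤ (1 / t * fr Y ^ 2) * ∑ j ∈ range i, fr (y j) ^ 2 :=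
      (pow_le_pow_left₀ (sq_nonneg _) h1 2).trans (h3.trans (mul_le_mul_of_nonneg_right h2 h4))
    apply le_of_mul_le_mul_left _ h
    calc _ = (fr Y ^ 2) ^ 2 := by ring
      _ ≤ _ := h5
      _ = _ := by ring

lemma IsProj.fr_comm_sq {q : Matrix n n ℂ} (hq : IsProj q) (u : Matrix n n ℂ) :
    fr (u * q - q * u) ^ 2 = fr ((1 - q) * u * q) ^ 2 + fr (q * u * (1 - q)) ^ 2 := by
  rw [hq.fr_sq_split_left (u * q - q * u), add_comm]
  congr 2
  · congr 1
    rw [Matrix.mul_sub, ← Matrix.mul_assoc (1 - q) q, hq.one_sub_mul]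
    simp [Matrix.mul_assoc]
  · rw [← fr_neg]
    congr 1
    rw [Matrix.mul_sub, Matrix.mul_sub, ← Matrix.mul_assoc q q, hq.idem]
    simp [Matrix.mul_assoc]

lemma comm_res (ht : 0 < t) (u : Matrix n n ℂ) (i : ℕ) :
    u * res (ps_psd hp i) t - res (ps_psd hp i) t * u =
      res (ps_psd hp i) t * (∑ j ∈ range i, p j * (p j * u * (1 - p j))) * res (ps_psd hp i) t -
      res (ps_psd hp i) t * (∑ j ∈ range i, (1 - p j) * u * p j) * res (ps_psd hp i) t := by
  have h1 : (∑ j ∈ range i, p j * (p j * u * (1 - p j))) - ∑ j ∈ range i, (1 - p j) * u * p j =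
      (ps p i + (t : ℂ) • 1) * u - u * (ps p i + (t : ℂ) • 1) := by
    rw [← sum_sub_distrib, Matrix.add_mul, Matrix.mul_add, Matrix.smul_mul, Matrix.mul_smul,
      Matrix.one_mul, Matrix.mul_one, add_sub_add_right_eq_sub, ps, Matrix.sum_mul,
      Matrix.mul_sum, ← sum_sub_distrib]
    apply sum_congr rfl
    intro j _
    rw [← Matrix.mul_assoc, ← Matrix.mul_assoc, (hp j).idem]
    simp only [Matrix.mul_sub, Matrix.sub_mul, Matrix.mul_one, Matrix.one_mul]
    abel
  rw [← Matrix.sub_mul, ← Matrix.mul_sub, h1, Matrix.mul_sub, Matrix.sub_mul, ← Matrix.mul_assoc,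
    res_mul _ ht, Matrix.one_mul, Matrix.mul_assoc, Matrix.mul_assoc, mul_res _ ht, Matrix.mul_one]

lemma sum_fr_comm_rho_le (ht : 0 < t) (ht1 : t ≤ 1) (u : Matrix n n ℂ) (N : ℕ) :
    ∑ i ∈ range N, fr ((u * rho (ps_psd hp i) t - rho (ps_psd hp i) t * u) * p i) ^ 2 ≤
      12 / t * ∑ j ∈ range N, fr (u * p j - p j * u) ^ 2 := by
  set Δ : ℕ → Matrix n n ℂ := fun j => (1 - p j) * u * p j with hΔ
  set Δ' : ℕ → Matrix n n ℂ := fun j => p j * u * (1 - p j) with hΔ'
  have hd : ∀ i, (u * rho (ps_psd hp i) t - rho (ps_psd hp i) t * u) * p i =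
      res (ps_psd hp i) t * (∑ j ∈ range i, p j * (Δ' j * (rho (ps_psd hp i) t * p i))) -
      rho (ps_psd hp i) t * ((∑ j ∈ range i, Δ j) * res (ps_psd hp i) t * p i) := by
    intro i
    have e : ∑ j ∈ range i, p j * (Δ' j * (rho (ps_psd hp i) t * p i)) =
        (∑ j ∈ range i, p j * Δ' j) * (rho (ps_psd hp i) t * p i) := by
      rw [Matrix.sum_mul]
      simp only [Matrix.mul_assoc]
    rw [e, rho_eq, Matrix.mul_smul, Matrix.smul_mul, ← smul_sub, comm_res hp ht]
    simp only [Matrix.smul_mul, Matrix.mul_smul, Matrix.mul_assoc, Matrix.sub_mul, smul_sub, hΔ, hΔ']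
  have hA : ∑ i ∈ range N, fr (res (ps_psd hp i) t *
      (∑ j ∈ range i, p j * (Δ' j * (rho (ps_psd hp i) t * p i)))) ^ 2 ≤
      2 / t * ∑ j ∈ range N, fr (Δ' j) ^ 2 := by
    calc _ ≤ ∑ i ∈ range N, 1 / t * ∑ j ∈ range N, fr (Δ' j * (rho (ps_psd hp i) t * p i)) ^ 2 := by
          apply sum_le_sum
          intro i hi
          refine (fr_res_sum_le hp ht _ i).trans ?_
          apply mul_le_mul_of_nonneg_left _ (by positivity)
          exact sum_le_sum_of_subset_of_nonneg (range_mono (mem_range.mp hi).le)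
            (fun _ _ _ => sq_nonneg _)
      _ = 1 / t * ∑ j ∈ range N, ∑ i ∈ range N, fr (Δ' j * (rho (ps_psd hp i) t * p i)) ^ 2 := by
          rw [← mul_sum, sum_comm]
      _ ≤ 1 / t * ∑ j ∈ range N, 2 * fr (Δ' j) ^ 2 := by
          apply mul_le_mul_of_nonneg_left _ (by positivity)
          apply sum_le_sum
          intro j _
          refine (sum_fr_rho_le hp ht _ N).trans ?_
          exact mul_le_mul_of_nonneg_right (by linarith) (sq_nonneg _)
      _ = _ := by rw [← mul_sum]; ring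
  have hB : ∑ i ∈ range N, fr (rho (ps_psd hp i) t *
      ((∑ j ∈ range i, Δ j) * res (ps_psd hp i) t * p i)) ^ 2 ≤
      6 / t * ∑ j ∈ range N, fr (Δ j) ^ 2 := by
    have h1 := ridge hp ht (0 : Matrix n n ℂ) Δ (fun j => by
      simp only [hΔ, Matrix.mul_assoc, (hp j).idem]) N
    simp only [zero_add, fr_zero, ne_eq, OfNat.ofNat_ne_zero, not_false_eq_true, zero_pow,
      zero_div] at h1
    have h2 : ∑ i ∈ range N, fr (rho (ps_psd hp i) t *
        ((∑ j ∈ range i, Δ j) * res (ps_psd hp i) t * p i)) ^ 2 ≤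
        ∑ i ∈ range N, (2 * fr ((∑ j ∈ range i, Δ j) * res (ps_psd hp i) t * p i - Δ i) ^ 2 +
          2 * fr (Δ i) ^ 2) := by
      apply sum_le_sum
      intro i _
      refine (pow_le_pow_left₀ (fr_nonneg _) (fr_mul_le_left' (norm_rho_le _ ht) _) 2).trans ?_
      have := fr_add_sq_le ((∑ j ∈ range i, Δ j) * res (ps_psd hp i) t * p i - Δ i) (Δ i)
      rwa [sub_add_cancel] at this
    rw [sum_add_distrib, ← mul_sum, ← mul_sum] at h2
    have h3 : 0 ≤ ∑ j ∈ range N, fr (Δ j) ^ 2 := sum_nonneg (fun _ _ => sq_nonneg _)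
    refine h2.trans ?_
    rw [div_mul_eq_mul_div, le_div_iff₀ ht]
    nlinarith
  have hC : ∑ j ∈ range N, fr (u * p j - p j * u) ^ 2 =
      ∑ j ∈ range N, fr (Δ j) ^ 2 + ∑ j ∈ range N, fr (Δ' j) ^ 2 := by
    rw [← sum_add_distrib]
    exact sum_congr rfl (fun j _ => (hp j).fr_comm_sq u)
  have hD : ∑ i ∈ range N, fr ((u * rho (ps_psd hp i) t - rho (ps_psd hp i) t * u) * p i) ^ 2 ≤
      ∑ i ∈ range N, (2 * fr (res (ps_psd hp i) t *
      (∑ j ∈ range i, p j * (Δ' j * (rho (ps_psd hp i) t * p i)))) ^ 2 +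
      2 * fr (rho (ps_psd hp i) t *
      ((∑ j ∈ range i, Δ j) * res (ps_psd hp i) t * p i)) ^ 2) := by
    apply sum_le_sum
    intro i _
    rw [hd, sub_eq_add_neg]
    refine (fr_add_sq_le _ _).trans ?_
    rw [fr_neg]
  rw [sum_add_distrib, ← mul_sum, ← mul_sum] at hD
  have h3 : 0 ≤ 1 / t * ∑ j ∈ range N, fr (Δ' j) ^ 2 :=
    mul_nonneg (by positivity) (sum_nonneg (fun _ _ => sq_nonneg _))
  rw [hC]
  have e1 : ∀ c x : ℝ, c / t * x = c * (1 / t * x) := fun c x => by ring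
  rw [e1] at hA hB ⊢
  rw [mul_add]
  linarith

variable {S : Type*} [Fintype S]

lemma sum_en_rho_le (ht : 0 < t) (ht1 : t ≤ 1) (u : S → Matrix n n ℂ) (N : ℕ) :
    ∑ i ∈ range N, en u u (rho (ps_psd hp i) t * p i) ^ 2 ≤
      26 / t * ∑ j ∈ range N, en u u (p j) ^ 2 := by
  simp_rw [en_sq]
  rw [sum_comm, sum_comm (s := range N), mul_sum]
  apply sum_le_sum
  intro s _
  have h1 := sum_fr_comm_rho_le hp ht ht1 (u s) N
  have h2 : ∑ i ∈ range N, fr (u s * (rho (ps_psd hp i) t * p i) -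
      rho (ps_psd hp i) t * p i * u s) ^ 2 ≤ ∑ i ∈ range N,
      (2 * fr ((u s * rho (ps_psd hp i) t - rho (ps_psd hp i) t * u s) * p i) ^ 2 +
        2 * fr (u s * p i - p i * u s) ^ 2) := by
    apply sum_le_sum
    intro i _
    have e : u s * (rho (ps_psd hp i) t * p i) - rho (ps_psd hp i) t * p i * u s =
        (u s * rho (ps_psd hp i) t - rho (ps_psd hp i) t * u s) * p i +
        rho (ps_psd hp i) t * (u s * p i - p i * u s) := by
      simp only [Matrix.mul_sub, Matrix.sub_mul, Matrix.mul_assoc]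
      abel
    rw [e]
    refine (fr_add_sq_le _ _).trans ?_
    have := pow_le_pow_left₀ (fr_nonneg _)
      (fr_mul_le_left' (norm_rho_le (ps_psd hp i) ht) (u s * p i - p i * u s)) 2
    linarith
  rw [sum_add_distrib, ← mul_sum, ← mul_sum] at h2
  have h3 : 0 ≤ ∑ j ∈ range N, fr (u s * p j - p j * u s) ^ 2 := sum_nonneg (fun _ _ => sq_nonneg _)
  have h4 : 1 ≤ 1 / t := by rw [le_div_iff₀ ht]; linarith
  have e1 : ∀ c x : ℝ, c / t * x = c * (1 / t * x) := fun c x => by ring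
  rw [e1] at h1 ⊢
  nlinarith

lemma en_rho_le (ht : 0 < t) (u : S → Matrix n n ℂ) (N : ℕ) :
    en u u (rho (ps_psd hp N) t) ^ 2 ≤ 2 / t * ∑ j ∈ range N, en u u (p j) ^ 2 := by
  simp_rw [en_sq]
  rw [sum_comm, mul_sum]
  apply sum_le_sum
  intro s _
  have hd : u s * rho (ps_psd hp N) t - rho (ps_psd hp N) t * u s =
      res (ps_psd hp N) t * (∑ j ∈ range N, p j * (p j * u s * (1 - p j))) * rho (ps_psd hp N) t -
      rho (ps_psd hp N) t * (res (ps_psd hp N) t *
        (∑ j ∈ range N, p j * ((1 - p j) * u s * p j)ᴴ))ᴴ := by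
    have e : (∑ j ∈ range N, p j * ((1 - p j) * u s * p j)ᴴ)ᴴ =
        ∑ j ∈ range N, (1 - p j) * u s * p j := by
      rw [conjTranspose_sum]
      apply sum_congr rfl
      intro j _
      rw [conjTranspose_mul, conjTranspose_conjTranspose, (hp j).herm, Matrix.mul_assoc,
        (hp j).idem]
    rw [conjTranspose_mul, e, res_herm, rho_eq, Matrix.mul_smul, Matrix.smul_mul, ← smul_sub,
      comm_res hp ht]
    simp only [Matrix.smul_mul, Matrix.mul_smul, Matrix.mul_assoc, smul_sub]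
  have hA := fr_res_sum_le hp ht (fun j => p j * u s * (1 - p j)) N
  have hB := fr_res_sum_le hp ht (fun j => ((1 - p j) * u s * p j)ᴴ) N
  simp only [fr_conjTranspose] at hB
  have hC : ∑ j ∈ range N, fr (u s * p j - p j * u s) ^ 2 =
      ∑ j ∈ range N, fr ((1 - p j) * u s * p j) ^ 2 +
        ∑ j ∈ range N, fr (p j * u s * (1 - p j)) ^ 2 := by
    rw [← sum_add_distrib]
    exact sum_congr rfl (fun j _ => (hp j).fr_comm_sq (u s))
  rw [hd, sub_eq_add_neg]
  refine (fr_add_sq_le _ _).trans ?_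
  rw [fr_neg, hC]
  have h1 := pow_le_pow_left₀ (fr_nonneg _) (fr_mul_le_right' (res (ps_psd hp N) t *
    (∑ j ∈ range N, p j * (p j * u s * (1 - p j)))) (norm_rho_le (ps_psd hp N) ht)) 2
  have h2 := pow_le_pow_left₀ (fr_nonneg _) (fr_mul_le_left' (norm_rho_le (ps_psd hp N) ht)
    (res (ps_psd hp N) t * (∑ j ∈ range N, p j * ((1 - p j) * u s * p j)ᴴ))ᴴ) 2
  rw [fr_conjTranspose] at h2
  have e1 : ∀ x : ℝ, 2 / t * x = 2 * (1 / t * x) := fun x => by ring
  rw [e1, mul_add]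
  linarith

end Ridge

end Pool.Agent.Lib.MP_f81d8e_an
end

-- part Pool.Agent.Lib.MP_f81d8e_an.Gap
section

set_option autoImplicit false
set_option linter.unusedSectionVars false

namespace Pool.Agent.Lib.MP_f81d8e_an

open Matrix Finset MeasureTheory
open scoped Matrix.Norms.L2Operator ComplexOrder

attribute [local irreducible] fr tr en fc

section ReIm

variable {n : Type*} [Fintype n] [DecidableEq n] {S : Type*} [Fintype S]

/-- Hermitian part. -/
noncomputable def hre (x : Matrix n n ℂ) : Matrix n n ℂ := (1 / 2 : ℂ) • (x + xᴴ)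

/-- Anti-Hermitian part. -/
noncomputable def him (x : Matrix n n ℂ) : Matrix n n ℂ := (-Complex.I / 2) • (x - xᴴ)

lemma hre_herm (x : Matrix n n ℂ) : (hre x).IsHermitian := by
  unfold hre Matrix.IsHermitian
  simp [add_comm]

lemma him_herm (x : Matrix n n ℂ) : (him x).IsHermitian := by
  unfold him Matrix.IsHermitian
  rw [conjTranspose_smul, conjTranspose_sub, conjTranspose_conjTranspose, ← neg_sub x, smul_neg,
    ← neg_smul]
  congr 1
  simp [neg_div]

lemma hre_add_him (x : Matrix n n ℂ) : hre x + Complex.I • him x = x := by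
  unfold hre him
  rw [smul_smul, show Complex.I * (-Complex.I / 2) = 1 / 2 by
    rw [← mul_div_assoc, mul_neg, Complex.I_mul_I]; simp, ← smul_add]
  rw [show x + xᴴ + (x - xᴴ) = (2 : ℂ) • x by rw [two_smul]; abel, smul_smul]
  simp

lemma hre_sub (x y : Matrix n n ℂ) : hre (x - y) = hre x - hre y := by
  unfold hre
  rw [← smul_sub, conjTranspose_sub]
  congr 1
  abel

lemma him_sub (x y : Matrix n n ℂ) : him (x - y) = him x - him y := by
  unfold him
  rw [← smul_sub, conjTranspose_sub]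
  congr 1
  abel

lemma fr_hre_le (x : Matrix n n ℂ) : fr (hre x) ≤ fr x := by
  unfold hre
  have := fr_add_le x xᴴ
  rw [fr_conjTranspose] at this
  rw [fr_smul]
  simp only [one_div, norm_inv, Complex.norm_ofNat]
  linarith

lemma fr_him_le (x : Matrix n n ℂ) : fr (him x) ≤ fr x := by
  unfold him
  have := fr_sub_le x xᴴ
  rw [fr_conjTranspose] at this
  rw [fr_smul]
  simp only [norm_div, norm_neg, Complex.norm_I, Complex.norm_ofNat]
  linarith

lemma norm_hre_le (x : Matrix n n ℂ) : ‖hre x‖ ≤ ‖x‖ := by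
  unfold hre
  have := norm_add_le x xᴴ
  rw [l2_opNorm_conjTranspose] at this
  rw [norm_smul]
  simp only [one_div, norm_inv, Complex.norm_ofNat]
  linarith

lemma norm_him_le (x : Matrix n n ℂ) : ‖him x‖ ≤ ‖x‖ := by
  unfold him
  have := norm_sub_le x xᴴ
  rw [l2_opNorm_conjTranspose] at this
  rw [norm_smul]
  simp only [norm_div, norm_neg, Complex.norm_I, Complex.norm_ofNat]
  linarith

lemma en_hre_le {σ : Equiv.Perm S} {a : S → Matrix n n ℂ} (ha : AdjClosed σ a)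
    (x : Matrix n n ℂ) : en a a (hre x) ≤ en a a x := by
  unfold hre
  have := en_add_le a a x xᴴ
  rw [en_conjTranspose ha ha] at this
  rw [en_smul]
  simp only [one_div, norm_inv, Complex.norm_ofNat]
  linarith

lemma en_him_le {σ : Equiv.Perm S} {a : S → Matrix n n ℂ} (ha : AdjClosed σ a)
    (x : Matrix n n ℂ) : en a a (him x) ≤ en a a x := by
  unfold him
  have := en_sub_le a a x xᴴ
  rw [en_conjTranspose ha ha] at this
  rw [en_smul]
  simp only [norm_div, norm_neg, Complex.norm_I, Complex.norm_ofNat]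
  linarith

lemma hre_of_herm {x : Matrix n n ℂ} (hx : xᴴ = x) : hre x = x := by
  unfold hre
  rw [hx, ← two_smul ℂ x, smul_smul]
  simp

lemma hre_smul_one (α : ℂ) : hre (α • (1 : Matrix n n ℂ)) = ((α.re : ℝ) : ℂ) • 1 := by
  unfold hre
  rw [conjTranspose_smul, conjTranspose_one, ← add_smul, smul_smul, Complex.re_eq_add_conj]
  congr 1
  simp only [RCLike.star_def]
  ring

end ReIm

section Cheeger

variable {n : Type*} [Fintype n] [DecidableEq n] {S : Type*} [Fintype S]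

/-- Spectral gap above the scalars. -/
def Gap (K : ℝ) (a : S → Matrix n n ℂ) : Prop :=
  ∀ x : Matrix n n ℂ, ∃ α : ℂ, fr (x - α • 1) ≤ K * en a a x

lemma Gap.real {K : ℝ} {a : S → Matrix n n ℂ} (h : Gap K a) {x : Matrix n n ℂ} (hx : xᴴ = x) :
    ∃ α : ℝ, fr (x - (α : ℂ) • 1) ≤ K * en a a x := by
  obtain ⟨α, hα⟩ := h x
  refine ⟨α.re, le_trans ?_ hα⟩
  have := fr_hre_le (x - α • 1)
  rwa [hre_sub, hre_of_herm hx, hre_smul_one] at this

lemma exists_median (f : n → ℝ) : ∃ α : ℝ, 2 * ∑ i, ind α (f i) ≤ Fintype.card n ∧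
    2 * ∑ i, ind (f i) α ≤ Fintype.card n := by
  rcases isEmpty_or_nonempty n with hn | hn
  · exact ⟨0, by simp, by simp⟩
  obtain ⟨i₁, -, h₁⟩ := exists_max_image univ f univ_nonempty
  obtain ⟨i₀, hi₀, h₀⟩ := exists_min_image
    (univ.filter (fun i => 2 * ∑ j, ind (f i) (f j) ≤ Fintype.card n)) f ⟨i₁, by
      rw [mem_filter]
      refine ⟨mem_univ _, ?_⟩
      rw [sum_eq_zero]
      · simp
      · intro j _
        exact if_neg (not_lt.mpr (h₁ j (mem_univ j)))⟩
  refine ⟨f i₀, (mem_filter.mp hi₀).2, ?_⟩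
  rcases (univ.filter (fun i => f i < f i₀)).eq_empty_or_nonempty with h | h
  · rw [sum_eq_zero]
    · simp
    · intro j _
      apply if_neg
      intro hj
      have : j ∈ univ.filter (fun i => f i < f i₀) := mem_filter.mpr ⟨mem_univ _, hj⟩
      rw [h] at this
      simp at this
  · obtain ⟨i₂, hi₂, h₂⟩ := exists_max_image _ f h
    have h3 : ¬ (2 * ∑ j, ind (f i₂) (f j) ≤ Fintype.card n) := by
      intro h3
      have := h₀ i₂ (mem_filter.mpr ⟨mem_univ _, h3⟩)
      linarith [(mem_filter.mp hi₂).2]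
    have h4 : ∑ j, (ind (f j) (f i₀) + ind (f i₂) (f j)) ≤ ∑ _j : n, (1 : ℝ) := by
      apply sum_le_sum
      intro j _
      unfold ind
      split_ifs with a b b
      · linarith [h₂ j (mem_filter.mpr ⟨mem_univ _, a⟩)]
      all_goals simp
    rw [sum_add_distrib] at h4
    simp only [sum_const, card_univ, nsmul_eq_mul, mul_one] at h4
    linarith [not_le.mp h3]

lemma cheeger_half {u : S → Matrix n n ℂ} (hu : ∀ s, ‖u s‖ ≤ 1) {h : ℝ} (hh : 0 < h)
    (hC : ∀ T : Matrix n n ℂ, IsProj T → 2 * tr T ≤ Fintype.card n → h * tr T ≤ en u u T ^ 2)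
    {a : Matrix n n ℂ} (ha : a.IsHermitian) (φ : ℝ → ℝ) (hφ0 : ∀ x, 0 ≤ φ x)
    (hφ : 2 * ∑ i, ind 0 (φ (ha.eigenvalues i)) ≤ Fintype.card n) :
    fr (fc ha φ) ≤ 2 * Real.sqrt (Fintype.card S) / h * en u u (fc ha φ) := by
  set M := ∑ i, φ (ha.eigenvalues i) ^ 2 with hM
  have hMi : ∀ i, φ (ha.eigenvalues i) ^ 2 ≤ M := fun i =>
    single_le_sum (f := fun i => φ (ha.eigenvalues i) ^ 2) (fun _ _ => sq_nonneg _) (mem_univ i)
  have h1 : ∫ t in Set.Ioc 0 M, h * ∑ i, ind t (φ (ha.eigenvalues i) ^ 2) ≤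
      ∫ t in Set.Ioc 0 M, en u u (fc ha (fun x => ind t (φ x ^ 2))) ^ 2 := by
    apply setIntegral_mono_on
    · exact (integrable_finsetSum _ (fun i _ => integrableOn_ind _ _ _)).const_mul _
    · exact integrableOn_en_ind_sq ha (fun x => φ x ^ 2) u _ _
    · exact measurableSet_Ioc
    · intro t ht
      rw [← tr_fc ha (fun x => ind t (φ x ^ 2))]
      apply hC _ (isProj_fc_ind ha (fun x => φ x ^ 2) t)
      rw [tr_fc]
      refine le_trans (mul_le_mul_of_nonneg_left (sum_le_sum ?_) (by norm_num)) hφ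
      intro i _
      unfold ind
      split_ifs with b c
      · rfl
      · exfalso
        have : φ (ha.eigenvalues i) = 0 := le_antisymm (not_lt.mp c) (hφ0 _)
        rw [this] at b
        linarith [ht.1]
      all_goals simp
  rw [integral_const_mul, integral_finsetSum _ (fun i _ => integrableOn_ind _ _ _),
    integral_en_ind_sq ha (fun x => φ x ^ 2)] at h1
  simp only [integral_ind (sq_nonneg _) (hMi _)] at h1
  rw [← fr_fc_sq] at h1
  have h2 := sum_abs_mul_le ha φ hu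
  have h3 : h * fr (fc ha φ) ^ 2 ≤
      2 * Real.sqrt (Fintype.card S) * en u u (fc ha φ) * fr (fc ha φ) := by
    refine h1.trans (le_trans ?_ h2)
    refine sum_le_sum (fun s _ => sum_le_sum (fun i _ => sum_le_sum (fun j _ => ?_)))
    apply mul_le_mul_of_nonneg_left _ (sq_nonneg _)
    refine (integral_ind_sub_sq_le _ _ _ _).trans ?_
    rw [sq_sub_sq, abs_mul, mul_comm]
    exact mul_le_mul_of_nonneg_left (abs_add_le _ _) (abs_nonneg _)
  rcases eq_or_lt_of_le (fr_nonneg (fc ha φ)) with h0 | h0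
  · rw [← h0]
    have := en_nonneg u u (fc ha φ)
    positivity
  · rw [div_mul_eq_mul_div, le_div_iff₀ hh]
    apply le_of_mul_le_mul_right _ h0
    calc _ = h * fr (fc ha φ) ^ 2 := by ring
      _ ≤ _ := h3

lemma cheeger_herm {u : S → Matrix n n ℂ} (hu : ∀ s, ‖u s‖ ≤ 1) {h : ℝ} (hh : 0 < h)
    (hC : ∀ T : Matrix n n ℂ, IsProj T → 2 * tr T ≤ Fintype.card n → h * tr T ≤ en u u T ^ 2)
    {a : Matrix n n ℂ} (ha : a.IsHermitian) :
    ∃ α : ℝ, fr (a - (α : ℂ) • 1) ≤ 4 * Real.sqrt (Fintype.card S) / h * en u u a := by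
  obtain ⟨α, h1, h2⟩ := exists_median ha.eigenvalues
  refine ⟨α, ?_⟩
  have e : a - (α : ℂ) • 1 = fc ha (fun x => max (x - α) 0) - fc ha (fun x => max (α - x) 0) := by
    have e0 : a - (α : ℂ) • 1 = fc ha (fun x => x - α) := by rw [← fc_sub, fc_id, fc_const]
    rw [fc_sub, e0]
    apply fc_congr
    intro i
    rcases le_total (ha.eigenvalues i) α with b | b
    · rw [max_eq_right (by linarith), max_eq_left (by linarith)]
      ring
    · rw [max_eq_left (by linarith), max_eq_right (by linarith)]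
      ring
  have a1 := cheeger_half hu hh hC ha (fun x => max (x - α) 0) (fun _ => le_max_right _ _) (by
    refine le_trans (le_of_eq ?_) h1
    simp [ind])
  have a2 := cheeger_half hu hh hC ha (fun x => max (α - x) 0) (fun _ => le_max_right _ _) (by
    refine le_trans (le_of_eq ?_) h2
    simp [ind])
  have b1 := en_fc_dom ha (f := fun x => max (x - α) 0) (f' := fun x => x) (L := 1) zero_le_one
    (fun i j => by
      refine (abs_max_sub_max_le_abs _ _ _).trans (le_of_eq ?_)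
      rw [one_mul]
      congr 1
      ring) u
  have b2 := en_fc_dom ha (f := fun x => max (α - x) 0) (f' := fun x => x) (L := 1) zero_le_one
    (fun i j => by
      refine (abs_max_sub_max_le_abs _ _ _).trans (le_of_eq ?_)
      rw [one_mul, abs_sub_comm]
      congr 1
      ring) u
  rw [fc_id, one_mul] at b1 b2
  rw [e]
  refine (fr_sub_le _ _).trans ?_
  have hc : 0 ≤ 2 * Real.sqrt (Fintype.card S) / h := by positivity
  have c1 := mul_le_mul_of_nonneg_left b1 hc
  have c2 := mul_le_mul_of_nonneg_left b2 hc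
  calc _ ≤ 2 * Real.sqrt (Fintype.card S) / h * en u u a +
        2 * Real.sqrt (Fintype.card S) / h * en u u a := add_le_add (a1.trans c1) (a2.trans c2)
    _ = _ := by ring

/-- The Cheeger inequality. -/
lemma gap_of_cheeger {σ : Equiv.Perm S} {u : S → Matrix n n ℂ} (hσ : AdjClosed σ u)
    (hu : ∀ s, ‖u s‖ ≤ 1) {h : ℝ} (hh : 0 < h)
    (hC : ∀ T : Matrix n n ℂ, IsProj T → 2 * tr T ≤ Fintype.card n → h * tr T ≤ en u u T ^ 2) :
    Gap (8 * Real.sqrt (Fintype.card S) / h) u := by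
  intro x
  obtain ⟨α, h1⟩ := cheeger_herm hu hh hC (hre_herm x)
  obtain ⟨β, h2⟩ := cheeger_herm hu hh hC (him_herm x)
  refine ⟨α + Complex.I * β, ?_⟩
  have e : x - ((α : ℂ) + Complex.I * β) • (1 : Matrix n n ℂ) =
      (hre x - (α : ℂ) • 1) + Complex.I • (him x - (β : ℂ) • 1) := by
    conv_lhs => rw [← hre_add_him x]
    rw [add_smul, smul_sub, smul_smul]
    abel
  rw [e]
  refine (fr_add_le _ _).trans ?_
  rw [fr_smul, Complex.norm_I, one_mul]
  have hc : 0 ≤ 4 * Real.sqrt (Fintype.card S) / h := by positivity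
  have c1 := mul_le_mul_of_nonneg_left (en_hre_le hσ x) hc
  have c2 := mul_le_mul_of_nonneg_left (en_him_le hσ x) hc
  calc _ ≤ 4 * Real.sqrt (Fintype.card S) / h * en u u x +
        4 * Real.sqrt (Fintype.card S) / h * en u u x := add_le_add (h1.trans c1) (h2.trans c2)
    _ = _ := by ring

lemma Gap.mono {K K' : ℝ} {a : S → Matrix n n ℂ} (h : Gap K a) (hK : K ≤ K') : Gap K' a := by
  intro x
  obtain ⟨α, hα⟩ := h x
  exact ⟨α, hα.trans (mul_le_mul_of_nonneg_right hK (en_nonneg _ _ _))⟩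

/-- Boundary of `T` inside `P`. -/
noncomputable def bd (u : S → Matrix n n ℂ) (P T : Matrix n n ℂ) : ℝ :=
  ∑ s, fr ((P - T) * u s * T) ^ 2

lemma bd_nonneg (u : S → Matrix n n ℂ) (P T : Matrix n n ℂ) : 0 ≤ bd u P T :=
  sum_nonneg (fun _ _ => sq_nonneg _)

lemma en_proj_sq {σ : Equiv.Perm S} {u : S → Matrix n n ℂ} (hσ : AdjClosed σ u)
    {T : Matrix n n ℂ} (hT : IsProj T) : en u u T ^ 2 = 2 * bd u 1 T := by
  rw [en_sq]
  simp_rw [hT.fr_comm_sq]
  rw [sum_add_distrib, two_mul]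
  congr 1
  unfold bd
  rw [← Equiv.sum_comp σ]
  apply sum_congr rfl
  intro s _
  rw [hσ s, ← fr_conjTranspose]
  simp [hT.herm, Matrix.mul_assoc]

lemma bd_one_le (u : S → Matrix n n ℂ) {P T : Matrix n n ℂ} (hP : IsProj P) (hT : IsProj T)
    (h : P * T = T) : bd u 1 T ≤ bd u P T + bd u 1 P := by
  unfold bd
  rw [← sum_add_distrib]
  apply sum_le_sum
  intro s _
  rw [hP.fr_sq_split_left ((1 - T) * u s * T)]
  have e1 : P * ((1 - T) * u s * T) = (P - T) * u s * T := by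
    rw [← Matrix.mul_assoc, ← Matrix.mul_assoc, Matrix.mul_sub, h, Matrix.mul_one]
  have e2 : (1 - P) * ((1 - T) * u s * T) = (1 - P) * u s * P * T := by
    rw [← Matrix.mul_assoc, ← Matrix.mul_assoc, Matrix.mul_sub (1 - P), Matrix.sub_mul 1 P T, h,
      Matrix.mul_assoc _ P T, h]
    simp
  rw [e1, e2]
  exact add_le_add_right (pow_le_pow_left₀ (fr_nonneg _) (fr_mul_le_right' _ hT.norm_le) 2) _

lemma bd_add_le (u : S → Matrix n n ℂ) {P T T₁ : Matrix n n ℂ} (hP : IsProj P) (hT : IsProj T)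
    (hT₁ : IsProj T₁) (h₁ : P * T₁ = T₁) (h : (P - T₁) * T = T) :
    bd u P (T + T₁) ≤ bd u (P - T₁) T + bd u P T₁ := by
  have hQ := hP.sub hT₁ h₁
  have h0 : T₁ * T = 0 := by
    rw [← h, ← Matrix.mul_assoc, Matrix.mul_sub, hP.mul_comm_of_le hT₁ h₁, hT₁.idem]
    simp
  have h0' : T * T₁ = 0 := by
    have := congrArg conjTranspose h0
    simpa [hT.herm, hT₁.herm] using this
  unfold bd
  rw [← sum_add_distrib]
  apply sum_le_sum
  intro s _
  rw [hT.fr_sq_split_right ((P - (T + T₁)) * u s * (T + T₁))]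
  have e1 : (P - (T + T₁)) * u s * (T + T₁) * T = (P - T₁ - T) * u s * T := by
    rw [Matrix.mul_assoc _ (T + T₁), Matrix.add_mul, h0, hT.idem, add_zero]
    congr 2
    abel
  have e2 : (P - (T + T₁)) * u s * (T + T₁) * (1 - T) = (1 - T) * ((P - T₁) * u s * T₁) := by
    rw [Matrix.mul_assoc _ (T + T₁), Matrix.add_mul, hT.mul_one_sub, zero_add, Matrix.mul_sub T₁,
      h0, ← Matrix.mul_assoc (1 - T), ← Matrix.mul_assoc (1 - T), Matrix.sub_mul 1 T,
      hQ.mul_comm_of_le hT h]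
    simp only [Matrix.mul_one, sub_zero, Matrix.one_mul]
    congr 2
    abel
  rw [e1, e2]
  exact add_le_add_right (pow_le_pow_left₀ (fr_nonneg _) (fr_mul_le_left' hT.one_sub.norm_le _) 2) _

end Cheeger

end Pool.Agent.Lib.MP_f81d8e_an
end
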