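import Mathlib
import Pool.Agent.Lib.MP_f81d8e_an.Gap

set_option autoImplicit false
set_option linter.unusedSectionVars false

namespace Pool.Agent.Lib.MP_f81d8e_an

open Matrix Finset
open scoped Matrix.Norms.L2Operator ComplexOrder

attribute [local irreducible] fr tr en fc

section LogDet

variable {n : Type*} [Fintype n] [DecidableEq n]

lemma rank_add_le' (a b : Matrix n n ℂ) : (a + b).rank ≤ a.rank + b.rank := by
  unfold Matrix.rank
  rw [Matrix.mulVecLin_add]
  refine le_trans (Submodule.finrank_mono (LinearMap.range_add_le _ _)) ?_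
  exact Submodule.finrank_add_le_finrank_add_finrank _ _

lemma log_tangent {t ν : ℝ} (ht : 0 < t) (hν : 0 ≤ ν) :
    Real.log (1 + ν) ≤ Real.log (1 + 1 / t) + (t * ν - 1) / (1 + t) := by
  have h1 : 0 < (1 + ν) / (1 + 1 / t) := by positivity
  have h2 := Real.log_le_sub_one_of_pos h1
  rw [Real.log_div (by positivity) (by positivity)] at h2
  have : (1 + ν) / (1 + 1 / t) - 1 = (t * ν - 1) / (1 + t) := by
    field_simp
    ring
  linarith

lemma one_div_le_log {t : ℝ} (ht : 0 < t) : 1 / (1 + t) ≤ Real.log (1 + 1 / t) := by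
  have := log_tangent ht le_rfl
  simp only [add_zero, Real.log_one, mul_zero, zero_sub] at this
  have e : -1 / (1 + t) = -(1 / (1 + t)) := by ring
  linarith

/-- Logarithm of the determinant of `w + t`. -/
noncomputable def ldet {w : Matrix n n ℂ} (hw : w.PosSemidef) (t : ℝ) : ℝ :=
  ∑ i, Real.log (hw.1.eigenvalues i + t)

lemma ldet_step {w q : Matrix n n ℂ} (hw : w.PosSemidef) (hq : IsProj q)
    (hw' : (w + q).PosSemidef) {t : ℝ} (ht : 0 < t) :
    ldet hw' t ≤ ldet hw t + tr q * Real.log (1 + 1 / t) - tr (q * (1 - rho hw t)) / (1 + t) := by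
  have hR : (res hw t).PosSemidef := posSemidef_fc _ (fun i => by
    have := hw.eigenvalues_nonneg i
    positivity)
  have hH : (q * res hw t * q).PosSemidef := by
    have := hR.conjTranspose_mul_mul_same q
    rwa [hq.herm] at this
  have hdet : det (w + q + (t : ℂ) • 1) = det (w + (t : ℂ) • 1) * det (1 + q * res hw t * q) := by
    have e1 : det (1 + q * res hw t * q) = det (1 + res hw t * q) := by
      rw [Matrix.mul_assoc, det_one_add_mul_comm, Matrix.mul_assoc, hq.idem]
    rw [e1, ← det_mul, Matrix.mul_add, Matrix.mul_one, ← Matrix.mul_assoc, mul_res _ ht,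
      Matrix.one_mul]
    congr 1
    abel
  have e2 : 1 + q * res hw t * q = fc hH.1 (fun x => 1 + x) := by
    rw [← fc_add, fc_id, fc_one]
  rw [add_smul_eq_fc hw', add_smul_eq_fc hw, e2, det_fc, det_fc, det_fc, ← Complex.ofReal_mul,
    Complex.ofReal_inj] at hdet
  have hlog := congrArg Real.log hdet
  have p1 : ∀ i, 0 < hw'.1.eigenvalues i + t := fun i => by
    have := hw'.eigenvalues_nonneg i
    positivity
  have p2 : ∀ i, 0 < hw.1.eigenvalues i + t := fun i => by
    have := hw.eigenvalues_nonneg i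
    positivity
  have p3 : ∀ i, 0 < 1 + hH.1.eigenvalues i := fun i => by
    have := hH.eigenvalues_nonneg i
    positivity
  rw [Real.log_mul (prod_pos (fun i _ => p2 i)).ne' (prod_pos (fun i _ => p3 i)).ne',
    Real.log_prod (fun i _ => (p1 i).ne'), Real.log_prod (fun i _ => (p2 i).ne'),
    Real.log_prod (fun i _ => (p3 i).ne')] at hlog
  have h1 : ∑ i, Real.log (1 + hH.1.eigenvalues i) ≤
      ∑ i, ((if hH.1.eigenvalues i ≠ 0 then 1 else 0) * (Real.log (1 + 1 / t) - 1 / (1 + t)) +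
        t / (1 + t) * hH.1.eigenvalues i) := by
    apply sum_le_sum
    intro i _
    split_ifs with h
    · have := log_tangent ht (hH.eigenvalues_nonneg i)
      refine this.trans (le_of_eq ?_)
      ring
    · rw [not_not.mp h]
      simp
  rw [sum_add_distrib, ← sum_mul, ← mul_sum, ← tr_eq_sum] at h1
  have h2 : ∑ i, (if hH.1.eigenvalues i ≠ 0 then (1 : ℝ) else 0) ≤ tr q := by
    have e : ∑ i, (if hH.1.eigenvalues i ≠ 0 then (1 : ℝ) else 0) = (q * res hw t * q).rank := by
      rw [hH.1.rank_eq_card_non_zero_eigs, Fintype.card_subtype, card_eq_sum_ones, sum_filter]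
      push_cast
      rfl
    rw [e, hq.tr_eq_rank]
    exact_mod_cast rank_mul_le_right _ _
  have h3 := mul_le_mul_of_nonneg_right h2 (sub_nonneg.mpr (one_div_le_log ht))
  have h4 : tr (q * (1 - rho hw t)) = tr q - t * tr (q * res hw t * q) := by
    rw [Matrix.mul_sub, Matrix.mul_one, tr_sub, rho_eq, Matrix.mul_smul, tr_smul,
      tr_mul_comm (q * res hw t), ← Matrix.mul_assoc, hq.idem]
  unfold ldet
  rw [hlog, h4]
  have e : (tr q - t * tr (q * res hw t * q)) / (1 + t) =
      tr q * (1 / (1 + t)) - t / (1 + t) * tr (q * res hw t * q) := by ring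
  rw [e]
  nlinarith

lemma ldet_congr {w w' : Matrix n n ℂ} (hw : w.PosSemidef) (hw' : w'.PosSemidef) (h : w = w')
    (t : ℝ) : ldet hw t = ldet hw' t := by
  subst h
  rfl

lemma ldet_zero {w : Matrix n n ℂ} (hw : w.PosSemidef) (h : w = 0) (t : ℝ) :
    ldet hw t = Fintype.card n * Real.log t := by
  have : ∀ i, hw.1.eigenvalues i = 0 := fun i =>
    fc_injective hw.1 (f := fun x => x) (g := fun _ => 0) (by rw [fc_id, fc_zero, h]) i
  unfold ldet
  simp [this]

variable {p : ℕ → Matrix n n ℂ} (hp : ∀ j, IsProj (p j))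

lemma tr_ps (N : ℕ) : tr (ps p N) = ∑ i ∈ range N, tr (p i) := tr_sum _ _

lemma ldet_ps {t : ℝ} (ht : 0 < t) (N : ℕ) :
    ∑ i ∈ range N, tr (p i * (1 - rho (ps_psd hp i) t)) ≤ (1 + t) *
      (tr (ps p N) * Real.log (1 + 1 / t) - ldet (ps_psd hp N) t + Fintype.card n * Real.log t) := by
  induction N with
  | zero =>
    rw [ldet_zero _ (ps_zero p), ps_zero, tr_zero]
    simp
  | succ N ih =>
    have h1 := ldet_step (ps_psd hp N) (hp N) ((ps_psd hp N).add (hp N).posSemidef) ht
    rw [← ldet_congr (ps_psd hp (N + 1)) _ (ps_succ p N)] at h1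
    have h0 : tr (ps p (N + 1)) = tr (ps p N) + tr (p N) := by rw [ps_succ, tr_add]
    rw [sum_range_succ, h0]
    have h2 : tr (p N * (1 - rho (ps_psd hp N) t)) =
      (1 + t) * (tr (p N * (1 - rho (ps_psd hp N) t)) / (1 + t)) := by field_simp
    have h3 := mul_le_mul_of_nonneg_left h1 (show 0 ≤ 1 + t by positivity)
    nlinarith

/-- Spectral projection below a level. -/
noncomputable def low {w : Matrix n n ℂ} (hw : w.PosSemidef) (s : ℝ) : Matrix n n ℂ :=
  fc hw.1 (fun x => 1 - ind s x)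

/-- Spectral projection above a level. -/
noncomputable def high {w : Matrix n n ℂ} (hw : w.PosSemidef) (s : ℝ) : Matrix n n ℂ :=
  fc hw.1 (fun x => ind s x)

lemma isProj_high {w : Matrix n n ℂ} (hw : w.PosSemidef) (s : ℝ) : IsProj (high hw s) :=
  isProj_fc_ind hw.1 (fun x => x) s

lemma low_eq {w : Matrix n n ℂ} (hw : w.PosSemidef) (s : ℝ) : low hw s = 1 - high hw s := by
  unfold low high
  rw [← fc_sub, fc_one]

lemma isProj_low {w : Matrix n n ℂ} (hw : w.PosSemidef) (s : ℝ) : IsProj (low hw s) := by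
  rw [low_eq]
  exact (isProj_high hw s).one_sub

lemma sum_tr_one_sub_rho_le {t β : ℝ} (ht : 0 < t) (hβ : 0 ≤ β) (hβ' : β ≤ 1 / 2) (N : ℕ) :
    ∑ i ∈ range N, tr (p i * (1 - rho (ps_psd hp i) t)) ≤ (1 + t) *
      ((tr (ps p N) - Fintype.card n + tr (low (ps_psd hp N) (1 - β))) * Real.log (1 + 1 / t) +
        2 * β * Fintype.card n) := by
  refine (ldet_ps hp ht N).trans (mul_le_mul_of_nonneg_left ?_ (by positivity))
  have h1 : ∑ i, ((1 - (1 - ind (1 - β) ((ps_psd hp N).1.eigenvalues i))) * Real.log (1 + 1 / t) -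
      2 * β + Real.log t) ≤ ldet (ps_psd hp N) t := by
    apply sum_le_sum
    intro i _
    have h0 := (ps_psd hp N).eigenvalues_nonneg i
    generalize (ps_psd hp N).1.eigenvalues i = x at h0
    unfold ind
    split_ifs with h
    · have e1 : Real.log ((1 - β) * (1 + 1 / t) * t) ≤ Real.log (x + t) := by
        apply Real.log_le_log (by
          have : 0 < 1 - β := by linarith
          positivity)
        have : (1 - β) * (1 + 1 / t) * t = (1 - β) * (t + 1) := by field_simp
        rw [this]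
        nlinarith
      rw [Real.log_mul (by
          have : 0 < 1 - β := by linarith
          positivity) ht.ne', Real.log_mul (by linarith) (by positivity)] at e1
      have e2 := Real.one_sub_inv_le_log_of_pos (show 0 < 1 - β by linarith)
      have e3 : -(2 * β) ≤ 1 - (1 - β)⁻¹ := by
        have : (1 - β)⁻¹ ≤ 1 + 2 * β := by
          rw [inv_le_iff_one_le_mul₀ (by linarith)]
          nlinarith
        linarith
      linarith
    · have e1 : Real.log t ≤ Real.log (x + t) := Real.log_le_log ht (by linarith)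
      linarith
  rw [sum_add_distrib, sum_sub_distrib, ← sum_mul, sum_sub_distrib] at h1
  simp only [sum_const, card_univ, nsmul_eq_mul, mul_one] at h1
  unfold low
  rw [tr_fc]
  nlinarith

lemma tr_one_sub_rho_nonneg {w q : Matrix n n ℂ} (hw : w.PosSemidef) (hq : IsProj q) {t : ℝ}
    (ht : 0 < t) : 0 ≤ tr (q * (1 - rho hw t)) := by
  rw [tr_mul_comm]
  unfold rho
  rw [← fc_one hw.1, fc_sub]
  apply tr_mul_proj_nonneg (posSemidef_fc _ _) hq
  intro i
  have := hw.eigenvalues_nonneg i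
  rw [sub_nonneg, div_le_one (by positivity)]
  linarith

lemma tr_one_sub_rho_le {w q : Matrix n n ℂ} (hw : w.PosSemidef) (hq : IsProj q) {t : ℝ}
    (ht : 0 < t) : tr (q * (1 - rho hw t)) ≤ tr q := by
  rw [tr_mul_comm]
  unfold rho
  conv_rhs => rw [← Matrix.one_mul q]
  rw [← fc_one hw.1, fc_sub]
  apply tr_fc_mul_proj_mono _ _ hq
  intro i
  have := hw.eigenvalues_nonneg i
  have : 0 ≤ t / (hw.1.eigenvalues i + t) := by positivity
  linarith

lemma fr_fc_mul_proj_sq {a q : Matrix n n ℂ} (ha : a.IsHermitian) (f : ℝ → ℝ) (hq : IsProj q) :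
    fr (fc ha f * q) ^ 2 = tr (fc ha (fun x => f x ^ 2) * q) := by
  rw [fr_sq_eq_tr, conjTranspose_mul, fc_herm, hq.herm, Matrix.mul_assoc, ← Matrix.mul_assoc (fc _ _),
    fc_mul, tr_mul_comm, Matrix.mul_assoc, hq.idem]
  simp only [sq]

lemma fr_rho_sub_sq_le {w q : Matrix n n ℂ} (hw : w.PosSemidef) (hq : IsProj q) {t : ℝ}
    (ht : 0 < t) : fr (rho hw t * q - q) ^ 2 ≤ tr (q * (1 - rho hw t)) := by
  have e : rho hw t * q - q = fc hw.1 (fun x => t / (x + t) - 1) * q := by
    rw [← fc_sub, fc_one, Matrix.sub_mul, Matrix.one_mul, rho]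
  rw [e, fr_fc_mul_proj_sq _ _ hq, tr_mul_comm q]
  unfold rho
  rw [← fc_one hw.1, fc_sub]
  apply tr_fc_mul_proj_mono _ _ hq
  intro i
  have := hw.eigenvalues_nonneg i
  have h1 : 0 ≤ t / (hw.1.eigenvalues i + t) := by positivity
  have h2 : t / (hw.1.eigenvalues i + t) ≤ 1 := by
    rw [div_le_one (by positivity)]
    linarith
  nlinarith

lemma fr_rho_sq_ge {w q : Matrix n n ℂ} (hw : w.PosSemidef) (hq : IsProj q) (t : ℝ) :
    tr q - 2 * tr (q * (1 - rho hw t)) ≤ fr (rho hw t * q) ^ 2 := by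
  have h := fr_sub_sq q (rho hw t * q)
  rw [hq.herm, hq.fr_sq, ← Matrix.mul_assoc, tr_mul_comm, ← Matrix.mul_assoc, hq.idem] at h
  rw [Matrix.mul_sub, Matrix.mul_one, tr_sub]
  nlinarith [sq_nonneg (fr (q - rho hw t * q))]

lemma tr_ps_le {t : ℝ} (ht : 0 < t) (N : ℕ) :
    tr (ps p N) ≤ (1 + t) * Fintype.card n +
      2 * ∑ i ∈ range N, tr (p i * (1 - rho (ps_psd hp i) t)) := by
  have h1 := sum_fr_rho_le hp ht (1 : Matrix n n ℂ) N
  simp only [Matrix.one_mul] at h1
  rw [isProj_one.fr_sq, tr_one] at h1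
  have h2 := sum_le_sum (s := range N) (fun i _ => fr_rho_sq_ge (ps_psd hp i) (hp i) t)
  rw [sum_sub_distrib, ← mul_sum, ← tr_ps] at h2
  linarith

lemma tr_low_le {t β : ℝ} (ht : 0 < t) (hβ : 0 ≤ β) (hβ' : β ≤ 1) (N : ℕ) :
    β ^ 2 / 8 * tr (low (ps_psd hp N) (1 - β)) ≤ (Fintype.card n - tr (ps p N)) / 2 +
      t * Fintype.card n / 2 + ∑ i ∈ range N, tr (p i * (1 - rho (ps_psd hp i) t)) := by
  have hL := isProj_low (ps_psd hp N) (1 - β)
  have hLw : tr (low (ps_psd hp N) (1 - β) * ps p N) ≤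
      (1 - β) * tr (low (ps_psd hp N) (1 - β)) := by
    have e : low (ps_psd hp N) (1 - β) * ps p N =
        fc (ps_psd hp N).1 (fun x => (1 - ind (1 - β) x) * x) := by
      rw [← fc_mul, fc_id]
      rfl
    rw [e]
    unfold low
    rw [tr_fc, tr_fc, mul_sum]
    apply sum_le_sum
    intro i _
    unfold ind
    split_ifs with h
    · simp
    · simpa using not_lt.mp h
  generalize low (ps_psd hp N) (1 - β) = L at hL hLw ⊢
  have hγ : 0 < 1 - β / 2 := by linarith
  have split : ∀ (q : Matrix n n ℂ), IsProj q → ∑ i ∈ range N, fr (q * p i) ^ 2 = tr (q * ps p N) := by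
    intro q hq
    unfold ps
    rw [Matrix.mul_sum, tr_sum]
    apply sum_congr rfl
    intro i _
    rw [fr_sq_eq_tr', conjTranspose_mul, hq.herm, (hp i).herm, Matrix.mul_assoc,
      ← Matrix.mul_assoc (p i), (hp i).idem, tr_mul_comm, Matrix.mul_assoc, hq.idem, tr_mul_comm]
  have h1 : ∀ i, tr (p i) - tr (p i * (1 - rho (ps_psd hp i) t)) ≤
      (1 / (2 * (1 - β / 2)) * fr (L * p i) ^ 2 +
        (1 - β / 2) / 2 * fr (L * (rho (ps_psd hp i) t * p i)) ^ 2) +
      (1 / 2 * fr ((1 - L) * p i) ^ 2 + 1 / 2 * fr ((1 - L) * (rho (ps_psd hp i) t * p i)) ^ 2) := by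
    intro i
    have e : tr (p i) - tr (p i * (1 - rho (ps_psd hp i) t)) =
        tr ((L * p i)ᴴ * (L * (rho (ps_psd hp i) t * p i))) +
        tr (((1 - L) * p i)ᴴ * ((1 - L) * (rho (ps_psd hp i) t * p i))) := by
      rw [← tr_add, conjTranspose_mul, conjTranspose_mul, hL.herm, hL.one_sub.herm, (hp i).herm,
        Matrix.mul_assoc, Matrix.mul_assoc, ← Matrix.mul_assoc L, ← Matrix.mul_assoc (1 - L),
        hL.idem, hL.one_sub.idem, ← Matrix.mul_add, ← Matrix.add_mul, add_sub_cancel,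
        Matrix.one_mul, ← Matrix.mul_assoc, tr_mul_comm _ (p i), ← Matrix.mul_assoc, (hp i).idem,
        Matrix.mul_sub, Matrix.mul_one, tr_sub]
      ring
    rw [e]
    have a1 := tr_mul_le (L * p i) (L * (rho (ps_psd hp i) t * p i))
    have a2 := tr_mul_le ((1 - L) * p i) ((1 - L) * (rho (ps_psd hp i) t * p i))
    generalize fr (L * p i) = x1 at a1 ⊢
    generalize fr (L * (rho (ps_psd hp i) t * p i)) = x2 at a1 ⊢
    generalize fr ((1 - L) * p i) = x3 at a2 ⊢
    generalize fr ((1 - L) * (rho (ps_psd hp i) t * p i)) = x4 at a2 ⊢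
    have a3 : x1 * x2 ≤ 1 / (2 * (1 - β / 2)) * x1 ^ 2 + (1 - β / 2) / 2 * x2 ^ 2 := by
      have : 1 / (2 * (1 - β / 2)) * x1 ^ 2 + (1 - β / 2) / 2 * x2 ^ 2 - x1 * x2 =
        (x1 - (1 - β / 2) * x2) ^ 2 / (2 * (1 - β / 2)) := by
          generalize 1 - β / 2 = γ at hγ
          field_simp
          ring
      have h2 : 0 ≤ (x1 - (1 - β / 2) * x2) ^ 2 / (2 * (1 - β / 2)) := by positivity
      linarith
    nlinarith [sq_nonneg (x3 - x4)]
  have h2 := sum_le_sum (s := range N) (fun i _ => h1 i)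
  rw [sum_sub_distrib, ← tr_ps, sum_add_distrib, sum_add_distrib, sum_add_distrib, ← mul_sum,
    ← mul_sum, ← mul_sum, ← mul_sum, split L hL, split _ hL.one_sub, Matrix.sub_mul,
    Matrix.one_mul, tr_sub] at h2
  have h3 := sum_fr_rho_le hp ht L N
  have h4 := sum_fr_rho_le hp ht (1 - L) N
  rw [hL.fr_sq] at h3
  rw [hL.one_sub.fr_sq, tr_sub, tr_one] at h4
  have h5 := hL.tr_nonneg
  have h6 : 0 ≤ tr (L * ps p N) := by
    rw [tr_mul_comm]
    exact tr_mul_proj_nonneg (ps_psd hp N) hL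
  have h7 : 1 / (2 * (1 - β / 2)) * tr (L * ps p N) - 1 / 2 * tr (L * ps p N) ≤
      (β / 4 - β ^ 2 / 8) * tr L := by
    have e : 1 / (2 * (1 - β / 2)) * tr (L * ps p N) - 1 / 2 * tr (L * ps p N) =
        β / (4 * (1 - β / 2)) * tr (L * ps p N) := by
      obtain ⟨γ, rfl⟩ : ∃ γ, β = 2 - 2 * γ := ⟨1 - β / 2, by ring⟩
      have e1 : 1 - (2 - 2 * γ) / 2 = γ := by ring
      rw [e1] at hγ ⊢
      field_simp
      ring
    rw [e]
    refine (mul_le_mul_of_nonneg_left hLw (by positivity)).trans ?_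
    rw [← mul_assoc]
    apply mul_le_mul_of_nonneg_right _ h5
    rw [div_mul_eq_mul_div, div_le_iff₀ (by positivity)]
    nlinarith [mul_nonneg hβ (sq_nonneg β)]
  have h8 := mul_le_mul_of_nonneg_left h3 (show 0 ≤ (1 - β / 2) / 2 by positivity)
  have h9 : 0 ≤ t * β * tr L := by positivity
  nlinarith

include hp in
lemma rank_ps_le (N : ℕ) : ((ps p N).rank : ℝ) ≤ tr (ps p N) := by
  induction N with
  | zero => rw [ps_zero, tr_zero]; simp
  | succ N ih =>
    rw [ps_succ, tr_add, (hp N).tr_eq_rank]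
    have := rank_add_le' (ps p N) (p N)
    have h2 : (((ps p N + p N).rank : ℕ) : ℝ) ≤ ((ps p N).rank : ℝ) + (p N).rank := by
      exact_mod_cast this
    linarith

end LogDet

end Pool.Agent.Lib.MP_f81d8e_an
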