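import Mathlib
import Pool.Agent.Lib.MP_f81d8e_an.Gap
import Pool.Agent.Lib.MP_f81d8e_an.LogDet

-- part Pool.Agent.Lib.MP_f81d8e_an.Flatten
section

set_option autoImplicit false
set_option linter.unusedSectionVars false

namespace Pool.Agent.Lib.MP_f81d8e_an

open Matrix Finset
open scoped Matrix.Norms.L2Operator ComplexOrder

attribute [local irreducible] fr tr en fc

section Emb

variable {α β γ : Type*} [Fintype α] [Fintype β] [Fintype γ] [DecidableEq α] [DecidableEq β]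
  [DecidableEq γ]

/-- The coordinate embedding attached to a map of index sets. -/
def emb (f : α → β) : Matrix β α ℂ := Matrix.of fun b a => if b = f a then 1 else 0

lemma emb_conj_mul_emb (f : α → β) (g : γ → β) :
    (emb f)ᴴ * emb g = Matrix.of fun a c => if f a = g c then 1 else 0 := by
  ext a c
  simp [emb, mul_apply, conjTranspose_apply, apply_ite (star : ℂ → ℂ), eq_comm]

lemma emb_iso {f : α → β} (hf : Function.Injective f) : (emb f)ᴴ * emb f = 1 := by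
  rw [emb_conj_mul_emb]
  ext a c
  simp [one_apply, hf.eq_iff]

lemma emb_mul_conj {f : α → β} (hf : Function.Injective f) (d : β → ℂ)
    (h1 : ∀ a, d (f a) = 1) (h0 : ∀ b, b ∉ Set.range f → d b = 0) :
    emb f * (emb f)ᴴ = diagonal d := by
  ext b c
  simp only [emb, mul_apply, conjTranspose_apply, apply_ite (star : ℂ → ℂ), of_apply, star_one,
    star_zero, diagonal_apply]
  by_cases hb : b ∈ Set.range f
  · obtain ⟨a, rfl⟩ := hb
    rw [sum_eq_single a]
    · simp [h1, eq_comm]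
    · intro a' _ ha'
      rw [if_neg (fun h => ha' (hf h).symm)]
      simp
    · simp
  · rw [sum_eq_zero]
    · rw [h0 b hb]
      simp
    · intro a _
      rw [if_neg (fun h => hb ⟨a, h.symm⟩)]
      simp

lemma IsProj.exists_isometry {Q : Matrix β β ℂ} (hQ : IsProj Q) :
    ∃ (k : ℕ) (V : Matrix β (Fin k) ℂ), Vᴴ * V = 1 ∧ V * Vᴴ = Q := by
  let J := {i : β // hQ.isHermitian.eigenvalues i = 1}
  let e : Fin (Fintype.card J) ≃ J := (Fintype.equivFin J).symm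
  have hf : Function.Injective (fun j => (e j).val) := Subtype.val_injective.comp e.injective
  refine ⟨Fintype.card J, eu hQ.isHermitian * emb (fun j => (e j).val), ?_, ?_⟩
  · rw [conjTranspose_mul, Matrix.mul_assoc, ← Matrix.mul_assoc (eu _)ᴴ, star_mul_eu,
      Matrix.one_mul, emb_iso hf]
  · rw [conjTranspose_mul, Matrix.mul_assoc, ← Matrix.mul_assoc (emb _), emb_mul_conj hf
      (fun i => ((hQ.isHermitian.eigenvalues i : ℝ) : ℂ)), ← Matrix.mul_assoc]
    · have := fc_id hQ.isHermitian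
      unfold fc at this
      exact this
    · intro a
      rw [(e a).2]
      simp
    · intro b hb
      rcases hQ.eigenvalues b with h | h
      · simp [h]
      · exact absurd ⟨e.symm ⟨b, h⟩, by simp⟩ hb

end Emb

section Clip

/-- Truncation to `[-c, c]`. -/
noncomputable def clip (c x : ℝ) : ℝ := max (-c) (min c x)

lemma clip_lip (c x y : ℝ) : |clip c x - clip c y| ≤ |x - y| := by
  unfold clip
  rw [max_comm, max_comm (-c)]
  refine (abs_max_sub_max_le_abs _ _ _).trans ?_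
  refine (abs_min_sub_min_le_max _ _ _ _).trans ?_
  simp

lemma clip_neg {c : ℝ} (hc : 0 ≤ c) (x : ℝ) : clip c (-x) = -clip c x := by
  unfold clip
  rcases le_total x c with h | h <;> rcases le_total (-x) c with h' | h'
  · rw [min_eq_right h, min_eq_right h', max_eq_right (by linarith), max_eq_right (by linarith)]
  · rw [min_eq_right h, min_eq_left h', max_eq_right (by linarith), max_eq_left (by linarith)]
    ring
  · rw [min_eq_left h, min_eq_right h', max_eq_left (by linarith), max_eq_right (by linarith)]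
  · rw [min_eq_left h, min_eq_left h', max_eq_right (by linarith)]
    linarith

lemma abs_clip_le {c : ℝ} (hc : 0 ≤ c) (x : ℝ) : |clip c x| ≤ c := by
  unfold clip
  rw [abs_le]
  exact ⟨le_max_left _ _, max_le (by linarith) (min_le_left _ _)⟩

lemma clip_of_le {c x : ℝ} (h : |x| ≤ c) : clip c x = x := by
  unfold clip
  rw [abs_le] at h
  rw [min_eq_right h.2, max_eq_right h.1]

lemma clip_sq_of_ge {c x : ℝ} (hc : 0 ≤ c) (h : c ≤ |x|) : clip c x ^ 2 = c ^ 2 := by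
  unfold clip
  rcases le_abs.mp h with h | h
  · rw [min_eq_left h, max_eq_right (by linarith)]
  · rw [min_eq_right (by linarith), max_eq_left (by linarith)]
    ring

lemma one_sub_clip_sq_le {α α' c x : ℝ} (hα : 0 < α) (hc : 0 ≤ c) (h : 1 ≤ c * (α' - α / 2)) :
    |1 - clip 1 (2 / α * x) ^ 2| ≤ c * |(|x| - α')| := by
  rcases le_total (α / 2) |x| with h1 | h1
  · rw [clip_sq_of_ge zero_le_one]
    · simp only [one_pow, sub_self, abs_zero]
      positivity
    · rw [abs_mul, abs_of_pos (by positivity : 0 < 2 / α), div_mul_eq_mul_div, le_div_iff₀ hα]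
      linarith
  · have h2 := abs_clip_le zero_le_one (2 / α * x)
    have h3 : clip 1 (2 / α * x) ^ 2 ≤ 1 := by
      rw [← sq_abs]
      nlinarith [abs_nonneg (clip 1 (2 / α * x))]
    rw [abs_of_nonneg (by linarith)]
    have h4 : α' - α / 2 ≤ |(|x| - α')| := by
      rw [abs_sub_comm]
      exact le_trans (by linarith) (le_abs_self _)
    nlinarith [sq_nonneg (clip 1 (2 / α * x))]

end Clip

section Flatten

variable {m n N : Type*} [Fintype m] [Fintype n] [Fintype N] [DecidableEq m] [DecidableEq n]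
  [DecidableEq N] {S : Type*} [Fintype S]

lemma en_isometry_conj {a : S → Matrix m m ℂ} {b : S → Matrix n n ℂ} {c : S → Matrix N N ℂ}
    {E : Matrix N m ℂ} {F : Matrix N n ℂ} (hE : Eᴴ * E = 1) (hF : Fᴴ * F = 1)
    (h1 : en a c Eᴴ = 0) (h2 : en c b F = 0) (G : Matrix N N ℂ) :
    en a b (Eᴴ * G * F) ≤ en c c G := by
  have e1 := en_mul_le a c b (Eᴴ * G) F
  have e2 := en_mul_le a c c Eᴴ G
  rw [h1] at e2
  rw [h2] at e1
  have n1 := opNorm_conjTranspose_le_one (isometry_norm_le hE)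
  have n2 := isometry_norm_le hF
  have e3 := mul_le_of_le_one_left (en_nonneg c c G) n1
  have e4 := mul_le_of_le_one_left (en_nonneg a c (Eᴴ * G)) n2
  simp only [mul_zero, add_zero, zero_add] at e1 e2
  linarith

lemma iso_cancel {l : Type*} {E : Matrix N m ℂ} (h : Eᴴ * E = 1) (y : Matrix m l ℂ) :
    Eᴴ * (E * y) = y := by rw [← Matrix.mul_assoc, h, Matrix.one_mul]

lemma eq_zero_of_eq_neg' {k l : Type*} (y : Matrix k l ℂ) (hy : y = -y) : y = 0 := by
  have : (2 : ℂ) • y = 0 := by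
    rw [two_smul]
    nth_rewrite 1 [hy]
    simp
  exact (smul_eq_zero.mp this).resolve_left two_ne_zero

lemma dec_of_sum {l : Type*} {E₁ : Matrix N m ℂ} {E₂ : Matrix N n ℂ}
    (hsum : E₁ * E₁ᴴ + E₂ * E₂ᴴ = 1) (y : Matrix N l ℂ) :
    y = E₁ * (E₁ᴴ * y) + E₂ * (E₂ᴴ * y) := by
  rw [← Matrix.mul_assoc, ← Matrix.mul_assoc, ← Matrix.add_mul, hsum, Matrix.one_mul]

lemma flatten_aux {σ : Equiv.Perm S} {a : S → Matrix m m ℂ} {b : S → Matrix n n ℂ}
    (hσa : AdjClosed σ a) (hσb : AdjClosed σ b) {K ε : ℝ} (hK : 0 ≤ K) (hε : 0 ≤ ε)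
    (hKε : 200 * K * ε ≤ 1) (ga : Gap K a) (gb : Gap K b) {x : Matrix m n ℂ} (hx : x ≠ 0)
    (hen : en a b x ≤ ε * fr x) {E₁ : Matrix N m ℂ} {E₂ : Matrix N n ℂ} (h11 : E₁ᴴ * E₁ = 1)
    (h22 : E₂ᴴ * E₂ = 1) (h12 : E₁ᴴ * E₂ = 0) (hsum : E₁ * E₁ᴴ + E₂ * E₂ᴴ = 1) :
    ∃ v : Matrix m n ℂ, ‖v‖ ≤ 1 ∧ en a b v ≤ 5 * ε * Real.sqrt (Fintype.card m) ∧
      fr (1 - v * vᴴ) ≤ 8 * K * ε * Real.sqrt (Fintype.card m) ∧
      fr (1 - vᴴ * v) ≤ 8 * K * ε * Real.sqrt (Fintype.card m) := by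
  have h21 : E₂ᴴ * E₁ = 0 := by simpa using congrArg conjTranspose h12
  have n1 := isometry_norm_le h11
  have n2 := isometry_norm_le h22
  obtain ⟨c, hc⟩ : ∃ c : S → Matrix N N ℂ, c = fun s => E₁ * a s * E₁ᴴ + E₂ * b s * E₂ᴴ := ⟨_, rfl⟩
  obtain ⟨X, hX⟩ : ∃ X, X = E₁ * x * E₂ᴴ + E₂ * xᴴ * E₁ᴴ := ⟨_, rfl⟩
  obtain ⟨J, hJ⟩ : ∃ J, J = E₁ * E₁ᴴ - E₂ * E₂ᴴ := ⟨_, rfl⟩
  have hXh : X.IsHermitian := by
    rw [hX]
    unfold Matrix.IsHermitian
    simp [Matrix.mul_assoc, add_comm]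
  have c1 : en c a E₁ = 0 := en_eq_zero_of_commute (fun s => by
    simp [hc, Matrix.add_mul, Matrix.mul_assoc, h11, h21])
  have c2 : en c b E₂ = 0 := en_eq_zero_of_commute (fun s => by
    simp [hc, Matrix.add_mul, Matrix.mul_assoc, h22, h12])
  have c1' : en a c E₁ᴴ = 0 := en_eq_zero_of_commute (fun s => by
    simp [hc, Matrix.mul_add, ← Matrix.mul_assoc, h11, h12])
  have c2' : en b c E₂ᴴ = 0 := en_eq_zero_of_commute (fun s => by
    simp [hc, Matrix.mul_add, ← Matrix.mul_assoc, h22, h21])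
  have enX : en c c X ≤ 2 * ε * fr x := by
    have t1 := en_mul_le c b c (E₁ * x) E₂ᴴ
    have t2 := en_mul_le c a b E₁ x
    have t3 := en_mul_le c a c (E₂ * xᴴ) E₁ᴴ
    have t4 := en_mul_le c b a E₂ xᴴ
    rw [c2'] at t1
    rw [c1] at t2
    rw [c1'] at t3
    rw [c2, en_conjTranspose hσa hσb] at t4
    have t5 := mul_le_of_le_one_left (en_nonneg a b x) n1
    have t6 := mul_le_of_le_one_left (en_nonneg a b x) n2
    have t7 := mul_le_of_le_one_left (en_nonneg c b (E₁ * x)) (opNorm_conjTranspose_le_one n2)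
    have t8 := mul_le_of_le_one_left (en_nonneg c a (E₂ * xᴴ)) (opNorm_conjTranspose_le_one n1)
    have t9 := en_add_le c c (E₁ * x * E₂ᴴ) (E₂ * xᴴ * E₁ᴴ)
    rw [← hX] at t9
    simp only [mul_zero, add_zero, zero_add] at t1 t2 t3 t4
    linarith
  have hJ1 : J * E₁ = E₁ := by simp [hJ, Matrix.sub_mul, Matrix.mul_assoc, h11, h21]
  have hJ2 : J * E₂ = -E₂ := by simp [hJ, Matrix.sub_mul, Matrix.mul_assoc, h22, h12]
  have hJ1' : E₁ᴴ * J = E₁ᴴ := by simp [hJ, Matrix.mul_sub, ← Matrix.mul_assoc, h11, h12]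
  have hJ2' : E₂ᴴ * J = -E₂ᴴ := by simp [hJ, Matrix.mul_sub, ← Matrix.mul_assoc, h22, h21]
  have hXJ : X * J + J * X = 0 := by
    rw [hX, Matrix.add_mul, Matrix.mul_add, Matrix.mul_assoc, Matrix.mul_assoc (E₂ * xᴴ), hJ1',
      hJ2', ← Matrix.mul_assoc J, ← Matrix.mul_assoc J, ← Matrix.mul_assoc J, ← Matrix.mul_assoc J,
      hJ1, hJ2]
    simp only [Matrix.mul_neg, Matrix.neg_mul]
    abel
  have hcomm : ∀ (g g' : ℝ → ℝ) (L : ℝ), 0 ≤ L → (∀ s t, |g s - g' t| ≤ L * |s - -t|) →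
      fc hXh g * J = J * fc hXh g' := by
    intro g g' L hL h
    have := fr_fc_dom hXh hXh (f := g) (g := g') (f' := fun s => s) (g' := fun t => -t) hL
      (fun i j => h _ _) J
    rw [← fc_neg, fc_id, Matrix.mul_neg, sub_neg_eq_add, hXJ, fr_zero, mul_zero] at this
    exact sub_eq_zero.mp (fr_eq_zero (le_antisymm this (fr_nonneg _)))
  -- the even function
  obtain ⟨G, hG⟩ : ∃ G, G = fc hXh (fun s => |s|) := ⟨_, rfl⟩
  have hGJ : G * J = J * G := by
    rw [hG]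
    apply hcomm _ _ 1 zero_le_one
    intro s t
    rw [one_mul, ← abs_neg t]
    exact abs_abs_sub_abs_le_abs_sub _ _
  have hGh : Gᴴ = G := by rw [hG, fc_herm]
  have G21 : E₂ᴴ * G * E₁ = 0 := by
    apply eq_zero_of_eq_neg'
    calc E₂ᴴ * G * E₁ = E₂ᴴ * (G * J) * E₁ := by simp only [Matrix.mul_assoc, hJ1]
      _ = _ := by rw [hGJ, ← Matrix.mul_assoc, hJ2']; simp
  have G12 : E₁ᴴ * G * E₂ = 0 := by
    simpa [hGh, Matrix.mul_assoc] using congrArg conjTranspose G21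
  obtain ⟨p, hp⟩ : ∃ p, p = E₁ᴴ * G * E₁ := ⟨_, rfl⟩
  obtain ⟨q, hq⟩ : ∃ q, q = E₂ᴴ * G * E₂ := ⟨_, rfl⟩
  have hph : pᴴ = p := by simp [hp, hGh, Matrix.mul_assoc]
  have hqh : qᴴ = q := by simp [hq, hGh, Matrix.mul_assoc]
  have GE1 : G * E₁ = E₁ * p := by
    rw [dec_of_sum hsum (G * E₁), ← Matrix.mul_assoc E₁ᴴ, ← Matrix.mul_assoc E₂ᴴ, G21, ← hp]
    simp
  have GE2 : G * E₂ = E₂ * q := by
    rw [dec_of_sum hsum (G * E₂), ← Matrix.mul_assoc E₁ᴴ, ← Matrix.mul_assoc E₂ᴴ, G12, ← hq]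
    simp
  have enG : en c c G ≤ 2 * ε * fr x := by
    have := en_fc_dom hXh (f := fun s => |s|) (f' := fun s => s) zero_le_one (fun i j => by
      rw [one_mul]
      exact abs_abs_sub_abs_le_abs_sub _ _) c
    rw [fc_id, one_mul, ← hG] at this
    exact this.trans enX
  obtain ⟨α, hα⟩ := ga.real hph
  obtain ⟨α', hα'⟩ := gb.real hqh
  replace hα : fr (p - (α : ℂ) • 1) ≤ 2 * K * ε * fr x := by
    refine hα.trans ?_
    have := (en_isometry_conj h11 h11 c1' c1 G).trans enG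
    rw [← hp] at this
    calc _ ≤ K * (2 * ε * fr x) := mul_le_mul_of_nonneg_left this hK
      _ = _ := by ring
  replace hα' : fr (q - (α' : ℂ) • 1) ≤ 2 * K * ε * fr x := by
    refine hα'.trans ?_
    have := (en_isometry_conj h22 h22 c2' c2 G).trans enG
    rw [← hq] at this
    calc _ ≤ K * (2 * ε * fr x) := mul_le_mul_of_nonneg_left this hK
      _ = _ := by ring
  have s1 : fr (fc hXh (fun s => |s| - α) * E₁) = fr (p - (α : ℂ) • 1) := by
    rw [← fc_sub, fc_const, ← hG, Matrix.sub_mul, GE1, ← fr_isometry_mul h11 (p - _)]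
    simp [Matrix.mul_sub]
  have s2 : fr (fc hXh (fun s => |s| - α') * E₂) = fr (q - (α' : ℂ) • 1) := by
    rw [← fc_sub, fc_const, ← hG, Matrix.sub_mul, GE2, ← fr_isometry_mul h22 (q - _)]
    simp [Matrix.mul_sub]
  have hXE : fr (X * E₁) = fr x := by
    have : X * E₁ = E₂ * xᴴ := by simp [hX, Matrix.add_mul, Matrix.mul_assoc, h11, h21]
    rw [this, fr_isometry_mul h22, fr_conjTranspose]
  have hx0 := fr_pos hx
  have hδ : 2 * K * ε * fr x ≤ 1 / 100 * fr x := mul_le_mul_of_nonneg_right (by linarith) hx0.le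
  have hαpos : 0 < α := by
    by_contra hneg
    have := fr_fc_mul_dom hXh (f := fun s => s) (f' := fun s => |s| - α) zero_le_one (fun i => by
      rw [one_mul]
      exact le_trans (by linarith [not_lt.mp hneg]) (le_abs_self _)) E₁
    rw [fc_id, hXE, s1] at this
    linarith
  obtain ⟨r, hr⟩ : ∃ r, r = Real.sqrt (Fintype.card m) := ⟨_, rfl⟩
  rw [← hr]
  have hxr : fr x ≤ 100 / 99 * (α * r) := by
    have t1 := fr_fc_mul_dom hXh (f := fun s => s) (f' := fun s => |s|) zero_le_one (fun i => by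
      simp) E₁
    rw [fc_id, hXE, ← hG, GE1, fr_isometry_mul h11, one_mul] at t1
    have t2 := fr_add_le (p - (α : ℂ) • 1) ((α : ℂ) • 1)
    rw [sub_add_cancel, fr_smul_real, fr_one, abs_of_pos hαpos, ← hr] at t2
    linarith
  have hr0 : 0 < r := by
    by_contra hneg
    have := mul_nonpos_of_nonneg_of_nonpos hαpos.le (not_lt.mp hneg)
    linarith
  -- the odd function
  obtain ⟨F, hF⟩ : ∃ F, F = fc hXh (fun s => clip 1 (2 / α * s)) := ⟨_, rfl⟩
  have lip : ∀ s t, |clip 1 (2 / α * s) - clip 1 (2 / α * t)| ≤ 2 / α * |s - t| := fun s t => by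
    refine (clip_lip _ _ _).trans (le_of_eq ?_)
    rw [← mul_sub, abs_mul, abs_of_pos (by positivity)]
  have hFJ : F * J = -(J * F) := by
    rw [hF, ← Matrix.mul_neg, fc_neg]
    apply hcomm _ _ (2 / α) (by positivity)
    intro s t
    rw [← clip_neg zero_le_one, ← mul_neg]
    exact lip _ _
  have hFh : Fᴴ = F := by rw [hF, fc_herm]
  have hFn : ‖F‖ ≤ 1 := by
    rw [hF]
    exact norm_fc_le _ zero_le_one (fun i => abs_clip_le zero_le_one _)
  have F11 : E₁ᴴ * F * E₁ = 0 := by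
    apply eq_zero_of_eq_neg'
    calc E₁ᴴ * F * E₁ = E₁ᴴ * (F * J) * E₁ := by simp only [Matrix.mul_assoc, hJ1]
      _ = _ := by rw [hFJ, Matrix.mul_neg, ← Matrix.mul_assoc, hJ1']; simp
  have F22 : E₂ᴴ * F * E₂ = 0 := by
    apply eq_zero_of_eq_neg'
    calc E₂ᴴ * F * E₂ = -(E₂ᴴ * (F * J) * E₂) := by
          simp only [Matrix.mul_assoc, hJ2, Matrix.mul_neg, neg_neg]
      _ = _ := by rw [hFJ, Matrix.mul_neg, ← Matrix.mul_assoc, hJ2']; simp
  obtain ⟨v, hv⟩ : ∃ v, v = E₁ᴴ * F * E₂ := ⟨_, rfl⟩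
  have hv' : vᴴ = E₂ᴴ * F * E₁ := by simp [hv, hFh, Matrix.mul_assoc]
  have FE1 : F * E₁ = E₂ * vᴴ := by
    rw [dec_of_sum hsum (F * E₁), ← Matrix.mul_assoc E₁ᴴ, ← Matrix.mul_assoc E₂ᴴ, F11, ← hv']
    simp
  have FE2 : F * E₂ = E₁ * v := by
    rw [dec_of_sum hsum (F * E₂), ← Matrix.mul_assoc E₁ᴴ, ← Matrix.mul_assoc E₂ᴴ, F22, ← hv]
    simp
  have hvn : ‖v‖ ≤ 1 := by
    rw [hv]
    exact opNorm_mul_le_one (opNorm_mul_le_one (opNorm_conjTranspose_le_one n1) hFn) n2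
  have hFF : fc hXh (fun s => 1 - clip 1 (2 / α * s) ^ 2) = 1 - F * F := by
    rw [hF, fc_mul, ← fc_one hXh, fc_sub]
    simp only [sq]
  have v1 : fr (1 - v * vᴴ) ≤ 2 / α * (2 * K * ε * fr x) := by
    have e : 1 - v * vᴴ = E₁ᴴ * (fc hXh (fun s => 1 - clip 1 (2 / α * s) ^ 2) * E₁) := by
      rw [hFF, Matrix.sub_mul, Matrix.mul_sub, Matrix.one_mul, h11, Matrix.mul_assoc, FE1,
        ← Matrix.mul_assoc F, FE2, Matrix.mul_assoc, iso_cancel h11]
    rw [e]
    refine (fr_mul_le_left' (opNorm_conjTranspose_le_one n1) _).trans ?_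
    refine (fr_fc_mul_dom hXh (f' := fun s => |s| - α) (L := 2 / α) (by positivity)
      (fun i => one_sub_clip_sq_le hαpos (by positivity) (by field_simp; linarith)) E₁).trans ?_
    rw [s1]
    exact mul_le_mul_of_nonneg_left hα (by positivity)
  have hKε0 : 0 ≤ K * ε := mul_nonneg hK hε
  have div_le : ∀ c : ℝ, 0 ≤ c → c / α * fr x ≤ 100 / 99 * c * r := fun c hc => by
    rw [div_mul_eq_mul_div, div_le_iff₀ hαpos]
    linarith [mul_le_mul_of_nonneg_left hxr hc]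
  have hKεr : 0 ≤ K * ε * r := by positivity
  have v1' : fr (1 - v * vᴴ) ≤ 5 * (K * ε) * r := by
    have := div_le (4 * (K * ε)) (by positivity)
    have e : 2 / α * (2 * K * ε * fr x) = 4 * (K * ε) / α * fr x := by ring
    rw [e] at v1
    linarith
  have hvr : 39 / 40 * r ≤ fr v := by
    have t1 := fr_add_le (1 - v * vᴴ) (v * vᴴ)
    rw [sub_add_cancel, fr_one, ← hr] at t1
    have t2 := fr_mul_le_right' v (opNorm_conjTranspose_le_one hvn)
    linarith [mul_le_mul_of_nonneg_right hKε hr0.le]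
  have hpv : p * v = v * q := by
    have e : G * F = F * G := by
      rw [hG, hF, fc_mul, fc_mul]
      simp only [mul_comm]
    calc p * v = E₁ᴴ * (G * F) * E₂ := by
          rw [Matrix.mul_assoc, Matrix.mul_assoc, FE2, ← Matrix.mul_assoc G, GE1, Matrix.mul_assoc,
            iso_cancel h11]
      _ = v * q := by
          rw [e, Matrix.mul_assoc, Matrix.mul_assoc, GE2, ← Matrix.mul_assoc F, FE2,
            Matrix.mul_assoc, iso_cancel h11]
  have hαα : 5 / 6 * α ≤ α' := by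
    have e : ((α - α' : ℝ) : ℂ) • v = v * (q - (α' : ℂ) • 1) - (p - (α : ℂ) • 1) * v := by
      rw [Matrix.mul_sub, Matrix.sub_mul, hpv]
      simp [sub_smul]
    have t1 := fr_sub_le (v * (q - (α' : ℂ) • 1)) ((p - (α : ℂ) • 1) * v)
    rw [← e, fr_smul_real] at t1
    have t2 := fr_mul_le_left' hvn (q - (α' : ℂ) • 1)
    have t3 := fr_mul_le_right' (p - (α : ℂ) • 1) hvn
    by_contra hneg
    have t4 : α / 6 ≤ |α - α'| := le_trans (by linarith [not_le.mp hneg]) (le_abs_self _)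
    have t5 := mul_le_mul t4 hvr (by positivity) (abs_nonneg _)
    have t6 : 0 < α * r := by positivity
    linarith
  have v2 : fr (1 - vᴴ * v) ≤ 3 / α * (2 * K * ε * fr x) := by
    have e : 1 - vᴴ * v = E₂ᴴ * (fc hXh (fun s => 1 - clip 1 (2 / α * s) ^ 2) * E₂) := by
      rw [hFF, Matrix.sub_mul, Matrix.mul_sub, Matrix.one_mul, h22, Matrix.mul_assoc, FE2,
        ← Matrix.mul_assoc F, FE1, Matrix.mul_assoc, ← Matrix.mul_assoc E₂ᴴ, h22, Matrix.one_mul]
    rw [e]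
    refine (fr_mul_le_left' (opNorm_conjTranspose_le_one n2) _).trans ?_
    refine (fr_fc_mul_dom hXh (f' := fun s => |s| - α') (L := 3 / α) (by positivity)
      (fun i => one_sub_clip_sq_le hαpos (by positivity) (by
        rw [div_mul_eq_mul_div, le_div_iff₀ hαpos]
        linarith)) E₂).trans ?_
    rw [s2]
    exact mul_le_mul_of_nonneg_left hα' (by positivity)
  refine ⟨v, hvn, ?_, by linarith, ?_⟩
  · have t1 := en_isometry_conj h11 h22 c1' c2 F
    rw [← hv] at t1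
    have t2 := en_fc_dom hXh (f := fun s => clip 1 (2 / α * s)) (f' := fun s => s)
      (L := 2 / α) (by positivity) (fun i j => lip _ _) c
    rw [fc_id, ← hF] at t2
    have t3 := mul_le_mul_of_nonneg_left enX (show 0 ≤ 2 / α by positivity)
    have t4 := div_le (4 * ε) (by positivity)
    have e : 2 / α * (2 * ε * fr x) = 4 * ε / α * fr x := by ring
    rw [e] at t3
    linarith [mul_nonneg hε hr0.le]
  · have := div_le (6 * (K * ε)) (by positivity)
    have e : 3 / α * (2 * K * ε * fr x) = 6 * (K * ε) / α * fr x := by ring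
    rw [e] at v2
    linarith

/-- An approximate intertwiner between two families with a gap can be flattened to an almost
unitary contraction. -/
lemma flatten {σ : Equiv.Perm S} {a : S → Matrix m m ℂ} {b : S → Matrix n n ℂ}
    (hσa : AdjClosed σ a) (hσb : AdjClosed σ b) {K ε : ℝ} (hK : 0 ≤ K) (hε : 0 ≤ ε)
    (hKε : 200 * K * ε ≤ 1) (ga : Gap K a) (gb : Gap K b) {x : Matrix m n ℂ} (hx : x ≠ 0)
    (hen : en a b x ≤ ε * fr x) :
    ∃ v : Matrix m n ℂ, ‖v‖ ≤ 1 ∧ en a b v ≤ 5 * ε * Real.sqrt (Fintype.card m) ∧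
      fr (1 - v * vᴴ) ≤ 8 * K * ε * Real.sqrt (Fintype.card m) ∧
      fr (1 - vᴴ * v) ≤ 8 * K * ε * Real.sqrt (Fintype.card m) := by
  refine flatten_aux hσa hσb hK hε hKε ga gb hx hen (E₁ := emb (Sum.inl : m → m ⊕ n))
    (E₂ := emb (Sum.inr : n → m ⊕ n)) (emb_iso Sum.inl_injective) (emb_iso Sum.inr_injective) ?_ ?_
  · rw [emb_conj_mul_emb]
    ext i j
    simp
  · rw [emb_mul_conj Sum.inl_injective (Sum.elim (fun _ => 1) (fun _ => 0)),
      emb_mul_conj Sum.inr_injective (Sum.elim (fun _ => 0) (fun _ => 1)), diagonal_add,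
      ← diagonal_one]
    · congr 1
      ext (i | i) <;> simp
    · simp
    · rintro (i | i) <;> simp
    · simp
    · rintro (i | i) <;> simp

/-- Every square matrix is close to a unitary, up to its defect. -/
lemma exists_unitary_near (x : Matrix n n ℂ) :
    ∃ U : Matrix n n ℂ, Uᴴ * U = 1 ∧ U * Uᴴ = 1 ∧ fr (U - x) ≤ fr (xᴴ * x - 1) := by
  have hh : (xᴴ * x).PosSemidef := posSemidef_conjTranspose_mul_self x
  obtain ⟨y, hy⟩ : ∃ y, y = x * eu hh.1 := ⟨_, rfl⟩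
  obtain ⟨μ, hμ⟩ : ∃ μ, μ = hh.1.eigenvalues := ⟨_, rfl⟩
  have hμ0 : ∀ i, 0 ≤ μ i := fun i => hμ ▸ hh.eigenvalues_nonneg i
  have hyy : yᴴ * y = diagonal (fun i => ((μ i : ℝ) : ℂ)) := by
    have := fc_id hh.1
    unfold fc at this
    have h1 := star_mul_eu hh.1
    rw [← hμ] at this
    generalize eu hh.1 = e at this h1 hy
    rw [hy, conjTranspose_mul, Matrix.mul_assoc, ← Matrix.mul_assoc xᴴ, ← this]
    simp only [← Matrix.mul_assoc]
    rw [h1, Matrix.one_mul, Matrix.mul_assoc, h1, Matrix.mul_one]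
  let col : n → EuclideanSpace ℂ n := fun i => WithLp.toLp 2 (fun k => y k i)
  have hcol : ∀ i j, inner ℂ (col i) (col j) = if i = j then ((μ i : ℝ) : ℂ) else 0 := by
    intro i j
    have := congrFun (congrFun hyy i) j
    rw [diagonal_apply] at this
    rw [← this]
    simp [col, PiLp.inner_apply, mul_apply, conjTranspose_apply, mul_comm]
  let v : n → EuclideanSpace ℂ n := fun i => ((Real.sqrt (μ i) : ℝ) : ℂ)⁻¹ • col i
  have hv : Orthonormal ℂ (({i | μ i ≠ 0} : Set n).domRestrict v) := by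
    rw [orthonormal_iff_ite]
    rintro ⟨i, hi⟩ ⟨j, hj⟩
    simp only [Set.domRestrict_apply, v, inner_smul_left, inner_smul_right, hcol, Subtype.mk.injEq]
    split_ifs with h
    · subst h
      have h1 : ((Real.sqrt (μ i) : ℝ) : ℂ) ≠ 0 := by
        simpa using (Real.sqrt_ne_zero (hμ0 i)).mpr hi
      have h2 : ((μ i : ℝ) : ℂ) = ((Real.sqrt (μ i) : ℝ) : ℂ) * ((Real.sqrt (μ i) : ℝ) : ℂ) := by
        rw [← Complex.ofReal_mul, Real.mul_self_sqrt (hμ0 i)]
      rw [map_inv₀, Complex.conj_ofReal]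
      conv_lhs => rw [h2]
      field_simp
    · simp
  obtain ⟨b, hb⟩ := hv.exists_orthonormalBasis_extension_of_card_eq (by simp)
  let U : Matrix n n ℂ := Matrix.of fun k i => b i k
  have hU : Uᴴ * U = 1 := by
    ext i j
    have := orthonormal_iff_ite.mp b.orthonormal i j
    rw [one_apply, ← this]
    simp [U, PiLp.inner_apply, mul_apply, conjTranspose_apply, mul_comm]
  have hU' : U * Uᴴ = 1 := mul_eq_one_comm.mp hU
  have hyU : y = U * diagonal (fun i => ((Real.sqrt (μ i) : ℝ) : ℂ)) := by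
    ext k i
    rw [mul_diagonal]
    by_cases hi : μ i = 0
    · have h1 := hcol i i
      rw [if_pos rfl, hi, Complex.ofReal_zero, inner_self_eq_zero] at h1
      have h2 : y k i = 0 := congrArg (fun w : EuclideanSpace ℂ n => w k) h1
      simp [h2, hi]
    · have h1 : ((Real.sqrt (μ i) : ℝ) : ℂ) ≠ 0 := by
        simpa using (Real.sqrt_ne_zero (hμ0 i)).mpr hi
      have h2 : U k i = ((Real.sqrt (μ i) : ℝ) : ℂ)⁻¹ * y k i := by
        simp only [U, of_apply]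
        rw [hb i hi]
        rfl
      rw [h2]
      field_simp
  refine ⟨U * (eu hh.1)ᴴ, ?_, ?_, ?_⟩
  · rw [conjTranspose_mul, conjTranspose_conjTranspose, Matrix.mul_assoc, ← Matrix.mul_assoc Uᴴ, hU,
      Matrix.one_mul, eu_mul_star]
  · rw [conjTranspose_mul, conjTranspose_conjTranspose, Matrix.mul_assoc,
      ← Matrix.mul_assoc (eu _)ᴴ, star_mul_eu, Matrix.one_mul, hU']
  · have e : U * (eu hh.1)ᴴ - x = U * (eu hh.1)ᴴ * fc hh.1 (fun t => 1 - Real.sqrt t) := by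
      have e1 : x = y * (eu hh.1)ᴴ := by rw [hy, Matrix.mul_assoc, eu_mul_star, Matrix.mul_one]
      rw [← fc_sub, fc_one, Matrix.mul_sub, Matrix.mul_one]
      congr 1
      unfold fc
      rw [← hμ]
      simp only [Matrix.mul_assoc]
      rw [← Matrix.mul_assoc (eu _)ᴴ, star_mul_eu, Matrix.one_mul, ← Matrix.mul_assoc, ← hyU]
      exact e1
    have e2 : xᴴ * x - 1 = fc hh.1 (fun t => t - 1) := by rw [← fc_sub, fc_id, fc_one]
    rw [e, e2, Matrix.mul_assoc, fr_isometry_mul hU, fr_isometry_mul (by simpa using eu_mul_star hh.1)]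
    have := fr_fc_mul_dom hh.1 (f := fun t => 1 - Real.sqrt t) (f' := fun t => t - 1) zero_le_one
      (fun i => by
        have h0 := hh.eigenvalues_nonneg i
        generalize hh.1.eigenvalues i = t at h0
        obtain ⟨s, hs, rfl⟩ : ∃ s, 0 ≤ s ∧ t = s ^ 2 :=
          ⟨Real.sqrt t, Real.sqrt_nonneg _, (Real.sq_sqrt h0).symm⟩
        rw [Real.sqrt_sq hs, one_mul, show s ^ 2 - 1 = (1 - s) * -(1 + s) by ring, abs_mul, abs_neg,
          abs_of_pos (show 0 < 1 + s by linarith)]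
        nlinarith [abs_nonneg (1 - s)]) (1 : Matrix n n ℂ)
    simpa using this

end Flatten

end Pool.Agent.Lib.MP_f81d8e_an
end

-- part Pool.Agent.Lib.MP_f81d8e_an.Clean
section

set_option autoImplicit false
set_option linter.unusedSectionVars false

namespace Pool.Agent.Lib.MP_f81d8e_an

open Matrix Finset
open scoped Matrix.Norms.L2Operator ComplexOrder

attribute [local irreducible] fr tr en fc

section Clean

variable {n : Type*} [Fintype n] [DecidableEq n] {S : Type*} [Fintype S]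

/-- The improvement property coming from property (T). -/
def Imp (L ε : ℝ) (u : S → Matrix n n ℂ) (W : Matrix n n ℂ) : Prop :=
  ∀ x : Matrix n n ℂ, W * x = 0 → x * W = 0 → ∃ z : Matrix n n ℂ, (xᴴ = x → zᴴ = z) ∧
    ‖z‖ ≤ ‖x‖ ∧ fr (z - x) ≤ L * en u u x + ε * fr x ∧ en u u z ≤ ε * fr x

/-- Standing assumptions. -/
structure Ctx (L ε : ℝ) (σ : Equiv.Perm S) (u : S → Matrix n n ℂ) (W : Matrix n n ℂ) : Prop where
  adj : AdjClosed σ u
  contr : ∀ s, ‖u s‖ ≤ 1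
  projW : IsProj W
  one_le : 1 ≤ L
  card_le : Real.sqrt (Fintype.card S) ≤ L
  eps : 0 ≤ ε
  imp : Imp L ε u W

variable {L ε : ℝ} {σ : Equiv.Perm S} {u : S → Matrix n n ℂ} {W : Matrix n n ℂ}

lemma en_le_add_fr' {m l : Type*} [Fintype m] [DecidableEq m] [Fintype l] [DecidableEq l]
    {a : S → Matrix m m ℂ} {b : S → Matrix l l ℂ} (ha : ∀ s, ‖a s‖ ≤ 1)
    (hb : ∀ s, ‖b s‖ ≤ 1) (hL : Real.sqrt (Fintype.card S) ≤ L) (x y : Matrix m l ℂ) :
    en a b x ≤ en a b y + 2 * L * fr (x - y) := by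
  refine (en_le_add_fr ha hb x y).trans ?_
  have := mul_le_mul_of_nonneg_right hL (fr_nonneg (x - y))
  linarith

lemma Ctx.improve (C : Ctx L ε σ u W) {y : Matrix n n ℂ} {ν γ r : ℝ} (hy : ‖y‖ ≤ 1)
    (h1 : fr (W * y) ≤ ν * r) (h2 : fr (y * W) ≤ ν * r) (h3 : en u u y ≤ γ * r) (h4 : fr y ≤ r) :
    ∃ z : Matrix n n ℂ, (yᴴ = y → zᴴ = z) ∧ ‖z‖ ≤ 1 ∧
      fr (z - y) ≤ (L * γ + 4 * L ^ 2 * ν + 2 * ν + ε) * r ∧ en u u z ≤ ε * r := by
  have hW := C.projW
  have hW' := hW.one_sub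
  obtain ⟨z, z1, z2, z3, z4⟩ := C.imp ((1 - W) * y * (1 - W))
    (by rw [← Matrix.mul_assoc, ← Matrix.mul_assoc, hW.mul_one_sub]; simp)
    (by rw [Matrix.mul_assoc, hW.one_sub_mul]; simp)
  have e1 : fr ((1 - W) * y * (1 - W) - y) ≤ 2 * (ν * r) := by
    have : (1 - W) * y * (1 - W) - y = -(W * y) - (1 - W) * (y * W) := by
      simp only [Matrix.mul_sub, Matrix.sub_mul, Matrix.mul_one, Matrix.one_mul, Matrix.mul_assoc]
      abel
    rw [this]
    have t1 := fr_sub_le (-(W * y)) ((1 - W) * (y * W))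
    have t2 := fr_mul_le_left' hW'.norm_le (y * W)
    rw [fr_neg] at t1
    linarith
  have e2 : fr ((1 - W) * y * (1 - W)) ≤ r :=
    (fr_mul_le_right' _ hW'.norm_le).trans ((fr_mul_le_left' hW'.norm_le _).trans h4)
  have e3 := en_le_add_fr' C.contr C.contr C.card_le ((1 - W) * y * (1 - W)) y
  have hL : 0 ≤ L := le_trans zero_le_one C.one_le
  have e4 := mul_le_mul_of_nonneg_left e2 C.eps
  refine ⟨z, fun hh => z1 (by simp [hh, hW.herm, Matrix.mul_assoc]),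
    z2.trans (opNorm_mul_le_one (opNorm_mul_le_one hW'.norm_le hy) hW'.norm_le), ?_, z4.trans e4⟩
  have e5 := fr_triangle z ((1 - W) * y * (1 - W)) y
  have e6 : en u u ((1 - W) * y * (1 - W)) ≤ γ * r + 2 * L * (2 * (ν * r)) := by
    have := mul_le_mul_of_nonneg_left e1 (show 0 ≤ 2 * L by positivity)
    linarith
  have e7 := mul_le_mul_of_nonneg_left e6 hL
  linarith

lemma exists_round' (hu : ∀ s, ‖u s‖ ≤ 1) (hL : Real.sqrt (Fintype.card S) ≤ L)
    {z : Matrix n n ℂ} (hz : zᴴ = z) {T : Matrix n n ℂ} (hT : IsProj T) :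
    ∃ P : Matrix n n ℂ, IsProj P ∧ fr (P - T) ≤ 4 * fr (z - T) ∧
      en u u P ^ 2 ≤ 16 * L * (en u u z * fr z) ∧ ∀ X : Matrix n n ℂ, X * z = 0 → X * P = 0 := by
  obtain ⟨t, h1, h2, h3⟩ := exists_round (a := z) hz hu
  refine ⟨_, isProj_fc_ind hz (fun x => x) t, fr_round_le hz h1.le h2 hT, h3.trans ?_,
    fun X hX => mul_fc_ind_eq_zero hz hX (by linarith)⟩
  exact mul_le_mul_of_nonneg_right (by linarith) (mul_nonneg (en_nonneg _ _ _) (fr_nonneg _))

lemma Ctx.medium (C : Ctx L ε σ u W) {X P T : Matrix n n ℂ} {κ μ r : ℝ} (hκ : 0 < κ) (hr : 0 < r)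
    (hμ : 0 ≤ μ) (k1 : 112 * L ^ 2 * κ ≤ 1) (k2 : 200 * L * μ ≤ κ ^ 3) (k3 : 100 * L * ε ≤ κ ^ 2)
    (hXW : ∀ T, IsProj T → X * T = 0 → fr (W * T) ≤ κ * fr T)
    (hmin : ∀ T, IsProj T → T ≠ 0 → X * T = 0 → en u u T ≤ κ * fr T → r ≤ fr T)
    (hP : IsProj P) (hXP : X * P = 0) (hPe : en u u P ≤ μ * r)
    (hT : IsProj T) (hPT : P * T = T) (h1 : κ * r ≤ fr T) (h2 : fr T ^ 2 ≤ 3 / 5 * r ^ 2) :
    1 / (16 * L) * fr T < en u u T := by
  by_contra hneg
  have hL := C.one_le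
  have hε := C.eps
  have hXT : X * T = 0 := by rw [← hPT, ← Matrix.mul_assoc, hXP, Matrix.zero_mul]
  have hWT := hXW T hT hXT
  have hTW : fr (T * W) ≤ κ * fr T := by
    rw [← fr_conjTranspose, conjTranspose_mul, hT.herm, C.projW.herm]
    exact hWT
  obtain ⟨z, z1, z2, z3, z4⟩ := C.improve hT.norm_le hWT hTW (not_lt.mp hneg) le_rfl
  replace z1 := z1 hT.herm
  have hT0 : 0 < fr T := lt_of_lt_of_le (by positivity) h1
  have hκ1 : κ ≤ 1 := by nlinarith
  have hεκ : ε ≤ κ := by nlinarith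
  have c1 : L * (1 / (16 * L)) + 4 * L ^ 2 * κ + 2 * κ + ε ≤ 1 / 8 := by
    have : L * (1 / (16 * L)) = 1 / 16 := by field_simp
    have h3 : κ ≤ L ^ 2 * κ := le_mul_of_one_le_left hκ.le (by nlinarith)
    linarith
  replace z3 := z3.trans (mul_le_mul_of_nonneg_right c1 hT0.le)
  have w1 : (P * z * P)ᴴ = P * z * P := by simp [z1, hP.herm, Matrix.mul_assoc]
  have w2 : fr (P * z * P - T) ≤ 1 / 8 * fr T := by
    have : P * z * P - T = P * (z - T) * P := by
      rw [Matrix.mul_sub, Matrix.sub_mul, hPT, hP.mul_comm_of_le hT hPT]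
    rw [this]
    exact (fr_mul_le_right' _ hP.norm_le).trans ((fr_mul_le_left' hP.norm_le _).trans z3)
  have w3 : en u u (P * z * P) ≤ 2 * (μ * r) + ε * fr T := by
    have t1 := en_mul_le' u u u (opNorm_mul_le_one hP.norm_le z2) hP.norm_le
    have t2 := en_mul_le' u u u hP.norm_le z2
    linarith
  have w4 : fr (P * z * P) ≤ 2 * fr T := by
    have := fr_add_le (P * z * P - T) T
    rw [sub_add_cancel] at this
    linarith
  obtain ⟨T', p1, p2, p3, p4⟩ := exists_round' C.contr C.card_le w1 hT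
  have q1 : fr (T' - T) ^ 2 ≤ 1 / 4 * fr T ^ 2 := by
    have : fr (T' - T) ≤ 1 / 2 * fr T := by linarith
    calc _ ≤ (1 / 2 * fr T) ^ 2 := pow_le_pow_left₀ (fr_nonneg _) this 2
      _ = _ := by ring
  have q2 := p1.tr_sub_le hT
  have q3 := hT.tr_sub_le p1
  rw [fr_sub_comm] at q3
  rw [← p1.fr_sq, ← hT.fr_sq] at q2 q3
  have q4 : en u u T' ^ 2 ≤ (κ * fr T') ^ 2 := by
    have t1 : en u u (P * z * P) * fr (P * z * P) ≤ (2 * (μ * r) + ε * fr T) * (2 * fr T) :=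
      mul_le_mul w3 w4 (fr_nonneg _) (by positivity)
    have t2 := mul_le_mul_of_nonneg_left t1 (show 0 ≤ 16 * L by positivity)
    have t3 : 200 * L * μ * r ≤ κ ^ 2 * fr T := by
      calc _ ≤ κ ^ 3 * r := mul_le_mul_of_nonneg_right k2 hr.le
        _ = κ ^ 2 * (κ * r) := by ring
        _ ≤ _ := mul_le_mul_of_nonneg_left h1 (by positivity)
    have t4 := mul_le_mul_of_nonneg_right t3 hT0.le
    have t5 := mul_le_mul_of_nonneg_right k3 (sq_nonneg (fr T))
    have t6 := mul_le_mul_of_nonneg_left (show 3 / 4 * fr T ^ 2 ≤ fr T' ^ 2 by linarith)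
      (sq_nonneg κ)
    have t7 : 0 ≤ κ ^ 2 * fr T ^ 2 := by positivity
    nlinarith
  have q5 := hmin T' p1 (by
      rintro rfl
      rw [fr_zero] at q3
      nlinarith)
    (p4 X (by rw [← Matrix.mul_assoc, ← Matrix.mul_assoc, hXP]; simp))
    (by
      have := fr_nonneg T'
      exact (pow_le_pow_iff_left₀ (en_nonneg _ _ _) (by positivity) two_ne_zero).mp q4)
  have q6 := pow_le_pow_left₀ hr.le q5 2
  nlinarith

lemma exists_max_nat {α : Type*} (s : Set α) (f : α → ℕ) (N : ℕ) (hb : ∀ x ∈ s, f x ≤ N)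
    (hs : s.Nonempty) : ∃ x ∈ s, ∀ y ∈ s, f y ≤ f x := by
  have hf : (f '' s).Finite := (Set.finite_Iic N).subset (by
    rintro _ ⟨x, hx, rfl⟩
    exact hb x hx)
  obtain ⟨_, ⟨x, hx, rfl⟩, h⟩ := Set.exists_max_image (f '' s) id hf (hs.image f)
  exact ⟨x, hx, fun y hy => h _ ⟨y, hy, rfl⟩⟩

lemma Ctx.peel (C : Ctx L ε σ u W) {X P : Matrix n n ℂ} {κ μ r : ℝ} (hκ : 0 < κ) (hr : 0 < r)
    (hμ : 0 ≤ μ) (k1 : 112 * L ^ 2 * κ ≤ 1) (k2 : 200 * L * μ ≤ κ ^ 3) (k3 : 100 * L * ε ≤ κ ^ 2)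
    (hXW : ∀ T, IsProj T → X * T = 0 → fr (W * T) ≤ κ * fr T)
    (hmin : ∀ T, IsProj T → T ≠ 0 → X * T = 0 → en u u T ≤ κ * fr T → r ≤ fr T)
    (hP : IsProj P) (hXP : X * P = 0) (hPe : en u u P ≤ μ * r) (hPr : tr P ≤ 11 / 10 * r ^ 2) :
    ∃ Q, IsProj Q ∧ X * Q = 0 ∧ fr (Q - P) ≤ κ * r ∧ en u u Q ≤ 2 * κ * r ∧
      ∀ T, IsProj T → Q * T = T → 2 * tr T ≤ tr Q → 1 / (1024 * L ^ 2) * tr T ≤ bd u Q T := by
  have hL := C.one_le
  have hκ1 : 112 * κ ≤ 1 := by
    have h3 : κ ≤ L ^ 2 * κ := le_mul_of_one_le_left hκ.le (by nlinarith)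
    linarith
  have hPe2 : en u u P ^ 2 ≤ (μ * r) ^ 2 := pow_le_pow_left₀ (en_nonneg _ _ _) hPe 2
  have hμκ : 32 * L * μ ≤ κ := by nlinarith
  obtain ⟨T₁, ⟨a1, a2, a3, a4⟩, hmax⟩ := exists_max_nat
    {T : Matrix n n ℂ | IsProj T ∧ P * T = T ∧ tr T ≤ 3 / 5 * r ^ 2 ∧
      bd u P T ≤ 1 / (1024 * L ^ 2) * tr T} Matrix.rank (Fintype.card n)
    (fun x _ => rank_le_card_width x) ⟨0, isProj_zero, by simp, by rw [tr_zero]; positivity, by
      simp [bd, fr_zero, tr_zero]⟩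
  have b0 : en u u T₁ ^ 2 ≤ 1 / (512 * L ^ 2) * fr T₁ ^ 2 + (μ * r) ^ 2 := by
    have t1 := bd_one_le u hP a1 a2
    rw [en_proj_sq C.adj hP] at hPe2
    rw [en_proj_sq C.adj a1, a1.fr_sq]
    have e : 1 / (512 * L ^ 2) * tr T₁ = 2 * (1 / (1024 * L ^ 2) * tr T₁) := by
      field_simp
      ring
    linarith
  have b1 : fr T₁ ≤ κ * r := by
    by_contra hneg
    have t0 := (not_le.mp hneg).le
    have t1 := C.medium hκ hr hμ k1 k2 k3 hXW hmin hP hXP hPe a1 a2 t0 (by rwa [a1.fr_sq])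
    have t2 : μ * r ≤ 1 / (32 * L) * fr T₁ := by
      rw [div_mul_eq_mul_div, le_div_iff₀ (by positivity)]
      have := mul_le_mul_of_nonneg_right hμκ hr.le
      linarith
    have t3 := pow_le_pow_left₀ (by positivity) t2 2
    have t4 := pow_lt_pow_left₀ t1 (by have := fr_nonneg T₁; positivity) two_ne_zero
    have e1 : (1 / (16 * L) * fr T₁) ^ 2 = 4 * (fr T₁ ^ 2 / (1024 * L ^ 2)) := by
      field_simp
      ring
    have e2 : (1 / (32 * L) * fr T₁) ^ 2 = fr T₁ ^ 2 / (1024 * L ^ 2) := by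
      field_simp
      ring
    have e3 : 1 / (512 * L ^ 2) * fr T₁ ^ 2 = 2 * (fr T₁ ^ 2 / (1024 * L ^ 2)) := by
      field_simp
      ring
    have t5 : 0 ≤ fr T₁ ^ 2 / (1024 * L ^ 2) := by positivity
    linarith
  have b2 : fr T₁ ^ 2 ≤ (κ * r) ^ 2 := pow_le_pow_left₀ (fr_nonneg _) b1 2
  have hμκ' : 32 * μ ≤ κ := by nlinarith
  have hQ := hP.sub a1 a2
  refine ⟨P - T₁, hQ, ?_, ?_, ?_, ?_⟩
  · rw [← a2, Matrix.mul_sub, ← Matrix.mul_assoc, hXP]
    simp
  · rw [sub_sub_cancel_left, fr_neg]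
    exact b1
  · have t1 := en_sub_le u u P T₁
    have t2 : en u u T₁ ≤ κ * r := by
      apply (pow_le_pow_iff_left₀ (en_nonneg _ _ _) (by positivity) two_ne_zero).mp
      have t3 : 1 / (512 * L ^ 2) ≤ 1 / 512 :=
        one_div_le_one_div_of_le (by norm_num) (by nlinarith)
      have t4 := mul_le_mul t3 b2 (sq_nonneg _) (by norm_num)
      have t5 : (μ * r) ^ 2 ≤ (1 / 32 * (κ * r)) ^ 2 :=
        pow_le_pow_left₀ (by positivity) (by nlinarith) 2
      nlinarith [sq_nonneg (κ * r)]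
    nlinarith
  · intro T hT hQT htr
    rcases eq_or_ne T 0 with rfl | hT0
    · rw [tr_zero, mul_zero]
      exact bd_nonneg _ _ _
    have h0 : T₁ * T = 0 := by
      rw [← hQT, ← Matrix.mul_assoc, Matrix.mul_sub, hP.mul_comm_of_le a1 a2, a1.idem]
      simp
    have h0' : T * T₁ = 0 := by
      have := congrArg conjTranspose h0
      simpa [hT.herm, a1.herm] using this
    have hPT : P * T = T := by
      rw [Matrix.sub_mul, h0, sub_zero] at hQT
      exact hQT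
    have hs := hT.add a1 h0'
    have t1 := bd_add_le u hP hT a1 a2 hQT
    by_contra hneg
    have t2 := hmax (T + T₁) ⟨hs, by rw [Matrix.mul_add, hPT, a2], by
      rw [tr_add, ← a1.fr_sq]
      rw [tr_sub] at htr
      have := a1.tr_nonneg
      have t3 : (κ * r) ^ 2 ≤ 1 / 20 * r ^ 2 := by
        rw [mul_pow]
        exact mul_le_mul_of_nonneg_right (by nlinarith) (sq_nonneg r)
      linarith, by
      rw [tr_add, mul_add]
      linarith [not_le.mp hneg]⟩
    have t3 : ((T + T₁).rank : ℝ) ≤ T₁.rank := by exact_mod_cast t2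
    rw [← hs.tr_eq_rank, ← a1.tr_eq_rank, tr_add] at t3
    linarith [hT.one_le_tr hT0]

/-- Compression of a family by an isometry. -/
noncomputable def cmp {k : Type*} [Fintype k] (u : S → Matrix n n ℂ) (V : Matrix n k ℂ) :
    S → Matrix k k ℂ := fun s => Vᴴ * u s * V

lemma cmp_adj {k : Type*} [Fintype k] [DecidableEq k] (h : AdjClosed σ u) (V : Matrix n k ℂ) :
    AdjClosed σ (cmp u V) := by
  intro s
  simp [cmp, h s, Matrix.mul_assoc]

lemma cmp_contr {k : Type*} [Fintype k] [DecidableEq k] (h : ∀ s, ‖u s‖ ≤ 1) {V : Matrix n k ℂ}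
    (hV : Vᴴ * V = 1) (s : S) : ‖cmp u V s‖ ≤ 1 :=
  opNorm_mul_le_one (opNorm_mul_le_one (opNorm_conjTranspose_le_one (isometry_norm_le hV)) (h s))
    (isometry_norm_le hV)

lemma Ctx.block (C : Ctx L ε σ u W) {X P x : Matrix n n ℂ} {κ μ r ζ δ τ μ₁ : ℝ} (hκ : 0 < κ)
    (hr : 0 < r) (hμ : 0 ≤ μ) (k1 : 112 * L ^ 2 * κ ≤ 1) (k2 : 200 * L * μ ≤ κ ^ 3)
    (k3 : 100 * L * ε ≤ κ ^ 2) (k4 : 64 * L * (μ₁ + 2 * L * τ) ≤ μ ^ 2)
    (k5 : ζ + 8 * (δ + τ) ≤ 1 / 25) (hδ : 0 ≤ δ) (hτ : 0 ≤ τ) (hX : IsProj X)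
    (hXW : ∀ T, IsProj T → X * T = 0 → fr (W * T) ≤ κ * fr T)
    (hmin : ∀ T, IsProj T → T ≠ 0 → X * T = 0 → en u u T ≤ κ * fr T → r ≤ fr T)
    (hP : IsProj P) (hPr : fr P ≤ (1 + ζ) * r) (hx : ‖x‖ ≤ 1) (x1 : fr (x - P) ≤ δ * r)
    (x2 : fr (X * x) ≤ τ * r) (x3 : en u u x ≤ μ₁ * r) :
    ∃ (k : ℕ) (V : Matrix n (Fin k) ℂ), Vᴴ * V = 1 ∧ fr (V * Vᴴ - P) ≤ (8 * (δ + τ) + κ) * r ∧
      en u (cmp u V) V ≤ 2 * κ * r ∧ fr (W * V) ≤ κ * Real.sqrt k ∧
      Gap (4096 * L ^ 3) (cmp u V) := by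
  have hL := C.one_le
  obtain ⟨y, hy⟩ : ∃ y, y = (1 - X) * x := ⟨_, rfl⟩
  have y0 : ‖y‖ ≤ 1 := hy ▸ opNorm_mul_le_one hX.one_sub.norm_le hx
  have y0' := opNorm_conjTranspose_le_one y0
  have y1 : fr (y - x) ≤ τ * r := by
    rw [hy, Matrix.sub_mul, Matrix.one_mul, sub_sub_cancel_left, fr_neg]
    exact x2
  have y2 : en u u y ≤ (μ₁ + 2 * L * τ) * r := by
    have t1 := en_le_add_fr' C.contr C.contr C.card_le y x
    have t2 := mul_le_mul_of_nonneg_left y1 (show 0 ≤ 2 * L by positivity)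
    linarith
  have y3 : fr (y - P) ≤ (δ + τ) * r := by
    have := fr_triangle y x P
    linarith
  have z1 : en u u (y * yᴴ) ≤ 2 * ((μ₁ + 2 * L * τ) * r) := by
    have := en_mul_le' u u u y0 y0'
    rw [en_conjTranspose C.adj C.adj] at this
    linarith
  have z2 : fr (y * yᴴ - P) ≤ 2 * ((δ + τ) * r) := by
    have e : y * yᴴ - P = y * (y - P)ᴴ + (y - P) * P := by
      rw [conjTranspose_sub, hP.herm, Matrix.mul_sub, Matrix.sub_mul, hP.idem]
      abel
    have t1 := fr_add_le (y * (y - P)ᴴ) ((y - P) * P)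
    have t2 := fr_mul_le_left' y0 (y - P)ᴴ
    have t3 := fr_mul_le_right' (y - P) hP.norm_le
    rw [fr_conjTranspose] at t2
    rw [e]
    linarith
  have z3 : fr (y * yᴴ) ≤ 2 * r := by
    have t1 := fr_add_le (y * yᴴ - P) P
    rw [sub_add_cancel] at t1
    nlinarith
  obtain ⟨P', p1, p2, p3, p4⟩ := exists_round' C.contr C.card_le (z := y * yᴴ) (by simp) hP
  have q1 : X * P' = 0 := p4 X (by
    rw [hy, ← Matrix.mul_assoc, ← Matrix.mul_assoc, hX.mul_one_sub]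
    simp)
  have q2 : en u u P' ≤ μ * r := by
    apply (pow_le_pow_iff_left₀ (en_nonneg _ _ _) (by positivity) two_ne_zero).mp
    have t1 := mul_le_mul z1 z3 (fr_nonneg _) ((en_nonneg _ _ _).trans z1)
    have t2 := mul_le_mul_of_nonneg_left t1 (show 0 ≤ 16 * L by positivity)
    have t3 := mul_le_mul_of_nonneg_right k4 (sq_nonneg r)
    calc _ ≤ _ := p3
      _ ≤ _ := t2
      _ = 64 * L * (μ₁ + 2 * L * τ) * r ^ 2 := by ring
      _ ≤ _ := t3
      _ = _ := by ring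
  have q3 : tr P' ≤ 11 / 10 * r ^ 2 := by
    have t1 := fr_add_le (P' - P) P
    rw [sub_add_cancel] at t1
    have t2 : fr P' ≤ 26 / 25 * r := by nlinarith
    have t3 := pow_le_pow_left₀ (fr_nonneg _) t2 2
    rw [← p1.fr_sq]
    nlinarith
  obtain ⟨Q, a1, a2, a3, a4, a5⟩ := C.peel hκ hr hμ k1 k2 k3 hXW hmin p1 q1 q2 q3
  obtain ⟨k, V, hV, hVQ⟩ := a1.exists_isometry
  have hQV : Q * V = V := by rw [← hVQ, Matrix.mul_assoc, hV, Matrix.mul_one]
  have htrQ : tr Q = k := by rw [← hVQ, tr_mul_comm, hV, tr_one, Fintype.card_fin]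
  have nV := isometry_norm_le hV
  refine ⟨k, V, hV, ?_, ?_, ?_, ?_⟩
  · rw [hVQ]
    have := fr_triangle Q P' P
    linarith
  · refine le_trans ?_ a4
    apply (pow_le_pow_iff_left₀ (en_nonneg _ _ _) (en_nonneg _ _ _) two_ne_zero).mp
    rw [en_proj_sq C.adj a1, en_sq]
    have : ∑ s, fr (u s * V - V * cmp u V s) ^ 2 ≤ bd u 1 Q := by
      apply sum_le_sum
      intro s _
      have e : u s * V - V * cmp u V s = (1 - Q) * u s * Q * V := by
        rw [Matrix.mul_assoc _ Q V, hQV, cmp, ← Matrix.mul_assoc V, ← Matrix.mul_assoc V, hVQ,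
          Matrix.sub_mul, Matrix.sub_mul, Matrix.one_mul]
      rw [e]
      exact pow_le_pow_left₀ (fr_nonneg _) (fr_mul_le_right' _ nV) 2
    linarith [bd_nonneg u 1 Q]
  · rw [← hQV, ← Matrix.mul_assoc, ← htrQ, ← a1.fr_eq]
    exact (fr_mul_le_right' _ nV).trans (hXW Q a1 a2)
  · refine (gap_of_cheeger (cmp_adj C.adj V) (cmp_contr C.contr hV) (h := 1 / (512 * L ^ 2))
      (by positivity) ?_).mono ?_
    · intro T hT htr
      have hT' : IsProj (V * T * Vᴴ) := ⟨by simp [hT.herm, Matrix.mul_assoc], by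
        simp only [Matrix.mul_assoc]
        rw [iso_cancel hV, ← Matrix.mul_assoc T, hT.idem]⟩
      have e1 : tr (V * T * Vᴴ) = tr T := by
        rw [tr_mul_comm, iso_cancel hV]
      have t1 := a5 _ hT' (by rw [← Matrix.mul_assoc, ← Matrix.mul_assoc, hQV])
        (by rw [e1, htrQ]; simpa using htr)
      have e2 : bd u Q (V * T * Vᴴ) = bd (cmp u V) 1 T := by
        apply sum_congr rfl
        intro s _
        congr 1
        rw [← fr_isometry_mul hV ((1 - T) * cmp u V s * T),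
          ← fr_mul_coisometry (V * ((1 - T) * cmp u V s * T)) (v := Vᴴ) (by simpa using hV), ← hVQ]
        congr 1
        simp only [cmp, Matrix.mul_assoc, Matrix.sub_mul, Matrix.mul_sub, Matrix.one_mul]
      rw [en_proj_sq (cmp_adj C.adj V) hT, ← e2]
      rw [e1] at t1
      have e3 : 1 / (512 * L ^ 2) * tr T = 2 * (1 / (1024 * L ^ 2) * tr T) := by
        field_simp
        ring
      linarith
    · have := C.card_le
      rw [div_div_eq_mul_div, div_one]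
      nlinarith [sq_nonneg L]

end Clean

end Pool.Agent.Lib.MP_f81d8e_an
end

-- part Pool.Agent.Lib.MP_f81d8e_an.Greedy
section

set_option autoImplicit false
set_option linter.unusedSectionVars false

namespace Pool.Agent.Lib.MP_f81d8e_an

open Matrix Finset
open scoped Matrix.Norms.L2Operator ComplexOrder

attribute [local irreducible] fr tr en fc

section Greedy

variable {n : Type*} [Fintype n] [DecidableEq n] {S : Type*} [Fintype S]

lemma tr_fc_mul_of_high {w T : Matrix n n ℂ} (hw : w.PosSemidef) {s c : ℝ} (hc : 0 ≤ c)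
    (hT : IsProj T) (h : high hw s * T = 0) {f : ℝ → ℝ} (hf : ∀ x, 0 ≤ x → x ≤ s → f x ≤ c) :
    tr (fc hw.1 f * T) ≤ c * tr T := by
  have e : fc hw.1 f * T = fc hw.1 (fun x => f x * (1 - ind s x)) * T := by
    rw [← fc_mul, ← fc_sub, fc_one, Matrix.mul_assoc, Matrix.sub_mul]
    unfold high at h
    rw [h]
    simp
  have e2 : c * tr T = tr (fc hw.1 (fun _ => c) * T) := by
    rw [fc_const, Matrix.smul_mul, tr_smul, Matrix.one_mul]
  rw [e, e2]
  apply tr_fc_mul_proj_mono _ _ hT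
  intro i
  unfold ind
  split_ifs with h1
  · simpa using hc
  · simpa using hf _ (hw.eigenvalues_nonneg i) (not_lt.mp h1)

lemma fr_mul_le_of_high {w W T : Matrix n n ℂ} (hw : w.PosSemidef) (hW : IsProj W)
    (hwW : (w - W).PosSemidef) {κ : ℝ} (hκ : 0 ≤ κ) (hT : IsProj T)
    (h : high hw (κ ^ 2) * T = 0) : fr (W * T) ≤ κ * fr T := by
  apply (pow_le_pow_iff_left₀ (fr_nonneg _) (mul_nonneg hκ (fr_nonneg _)) two_ne_zero).mp
  have h1 := tr_fc_mul_of_high hw (sq_nonneg κ) hT h (f := fun x => x) (fun _ _ h => h)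
  have h2 := tr_mul_proj_nonneg hwW hT
  rw [fc_id] at h1
  rw [Matrix.sub_mul, tr_sub] at h2
  have h3 : fr (W * T) ^ 2 = tr (W * T) := by
    rw [fr_sq_eq_tr, conjTranspose_mul, hW.herm, hT.herm, Matrix.mul_assoc,
      ← Matrix.mul_assoc W, hW.idem, tr_mul_comm, Matrix.mul_assoc, hT.idem]
  rw [h3, mul_pow, hT.fr_sq]
  linarith

/-- Candidates for the next block. -/
def Cand (u : S → Matrix n n ℂ) (κ : ℝ) (X T : Matrix n n ℂ) : Prop :=
  IsProj T ∧ T ≠ 0 ∧ X * T = 0 ∧ en u u T ≤ κ * fr T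

/-- One step of the greedy construction. -/
def Step (L ε κ : ℝ) (u : S → Matrix n n ℂ) (w P : Matrix n n ℂ) : Prop :=
  ∃ (hw : w.PosSemidef) (T : Matrix n n ℂ), Cand u κ (high hw (κ ^ 2)) T ∧
    (∀ T', Cand u κ (high hw (κ ^ 2)) T' → fr T ≤ fr T') ∧ IsProj P ∧
    fr (P - T) ≤ 32 * L ^ 2 * κ * fr T ∧ en u u P ^ 2 ≤ 32 * L * ε * fr T ^ 2

variable {L ε : ℝ} {σ : Equiv.Perm S} {u : S → Matrix n n ℂ} {W : Matrix n n ℂ}

lemma Ctx.exists_step (C : Ctx L ε σ u W) {κ : ℝ} (hκ : 0 < κ) (hεκ : ε ≤ κ)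
    (k1 : 8 * L ^ 2 * κ ≤ 1) {w : Matrix n n ℂ} (hw : w.PosSemidef) (hwW : (w - W).PosSemidef)
    (h : ∃ T, Cand u κ (high hw (κ ^ 2)) T) : ∃ P, Step L ε κ u w P := by
  obtain ⟨T, hT, hmin⟩ := (measure (Matrix.rank : Matrix n n ℂ → ℕ)).wf.has_min
    {T | Cand u κ (high hw (κ ^ 2)) T} h
  obtain ⟨a1, a2, a3, a4⟩ := hT
  have hWT := fr_mul_le_of_high hw C.projW hwW hκ.le a1 a3
  have hTW : fr (T * W) ≤ κ * fr T := by
    rw [← fr_conjTranspose, conjTranspose_mul, a1.herm, C.projW.herm]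
    exact hWT
  obtain ⟨z, z1, z2, z3, z4⟩ := C.improve a1.norm_le hWT hTW a4 le_rfl
  obtain ⟨P, p1, p2, p3, -⟩ := exists_round' C.contr C.card_le (z1 a1.herm) a1
  have hL := C.one_le
  have c1 : L * κ + 4 * L ^ 2 * κ + 2 * κ + ε ≤ 8 * L ^ 2 * κ := by
    have h3 : κ ≤ L ^ 2 * κ := le_mul_of_one_le_left hκ.le (by nlinarith)
    have h4 : L * κ ≤ L ^ 2 * κ := mul_le_mul_of_nonneg_right (by nlinarith) hκ.le
    linarith
  replace z3 := z3.trans (mul_le_mul_of_nonneg_right c1 (fr_nonneg _))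
  refine ⟨P, hw, T, ⟨a1, a2, a3, a4⟩, ?_, p1, by linarith, p3.trans ?_⟩
  · intro T' hT'
    have h1 : T.rank ≤ T'.rank := not_lt.mp (hmin T' hT')
    apply (pow_le_pow_iff_left₀ (fr_nonneg _) (fr_nonneg _) two_ne_zero).mp
    rw [a1.fr_sq, hT'.1.fr_sq, a1.tr_eq_rank, hT'.1.tr_eq_rank]
    exact_mod_cast h1
  · have t1 := fr_add_le (z - T) T
    rw [sub_add_cancel] at t1
    have t2 : fr z ≤ 2 * fr T := by
      have := mul_le_mul_of_nonneg_right k1 (fr_nonneg T)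
      linarith
    have t3 := mul_le_mul z4 t2 (fr_nonneg _) ((en_nonneg _ _ _).trans z4)
    calc _ ≤ 16 * L * (ε * fr T * (2 * fr T)) := mul_le_mul_of_nonneg_left t3 (by positivity)
      _ = _ := by ring

lemma Step.isProj {κ : ℝ} {w P : Matrix n n ℂ} (h : Step L ε κ u w P) : IsProj P := by
  obtain ⟨_, _, _, _, h, _⟩ := h
  exact h

lemma exists_chain (L ε κ : ℝ) (u : S → Matrix n n ℂ) (hW : IsProj W) :
    ∃ p : ℕ → Matrix n n ℂ, (∀ j, IsProj (p j)) ∧ p 0 = W ∧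
      ∀ i, 1 ≤ i → (∃ P, Step L ε κ u (ps p i) P) → Step L ε κ u (ps p i) (p i) := by
  classical
  let nxt : Matrix n n ℂ → Matrix n n ℂ := fun w =>
    if h : ∃ P, Step L ε κ u w P then h.choose else 0
  let acc : ℕ → Matrix n n ℂ := fun i => Nat.rec W (fun _ w => w + nxt w) i
  let p : ℕ → Matrix n n ℂ := fun i => Nat.casesOn i W (fun j => nxt (acc j))
  have h1 : ∀ i, ps p (i + 1) = acc i := by
    intro i
    induction i with
    | zero => simp [ps, p, acc]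
    | succ i ih => rw [ps_succ, ih]
  refine ⟨p, ?_, rfl, ?_⟩
  · rintro (_ | j)
    · exact hW
    · simp only [p, nxt]
      split_ifs with h
      · exact h.choose_spec.isProj
      · exact isProj_zero
  · rintro (_ | j) hi h
    · simp at hi
    · rw [h1] at h ⊢
      simp only [p, nxt]
      rw [dif_pos h]
      exact h.choose_spec

lemma ps_sub_psd {p : ℕ → Matrix n n ℂ} (hp : ∀ j, IsProj (p j)) {i : ℕ} (hi : 1 ≤ i) :
    (ps p i - p 0).PosSemidef := by
  induction i, hi using Nat.le_induction with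
  | base => simpa [ps] using PosSemidef.zero
  | succ i _ ih =>
    rw [ps_succ, add_sub_right_comm]
    exact ih.add (hp i).posSemidef

/-- What one step provides. -/
lemma Step.facts {κ : ℝ} (hκ : 0 < κ) (k1 : 1024 * L ^ 4 * κ ≤ 1)
    {w P : Matrix n n ℂ} (hw : w.PosSemidef) (h : Step L ε κ u w P) :
    ∃ r : ℝ, 1 ≤ r ∧ (∀ T, Cand u κ (high hw (κ ^ 2)) T → r ≤ fr T) ∧
      fr P ≤ (1 + 32 * L ^ 2 * κ) * r ∧ r ^ 2 ≤ tr P + κ * r ^ 2 ∧ tr P ≤ r ^ 2 + κ * r ^ 2 ∧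
      en u u P ^ 2 ≤ 32 * L * ε * r ^ 2 ∧ tr (P * (1 - rho hw κ)) ≤ 4 * κ * r ^ 2 := by
  obtain ⟨hw', T, ⟨a1, a2, a3, a4⟩, hmin, hP, h1, h2⟩ := h
  have h3 : fr (P - T) ^ 2 ≤ κ * fr T ^ 2 := by
    refine (pow_le_pow_left₀ (fr_nonneg _) h1 2).trans ?_
    have := mul_le_mul_of_nonneg_right k1 (show 0 ≤ κ * fr T ^ 2 by positivity)
    calc _ = 1024 * L ^ 4 * κ * (κ * fr T ^ 2) := by ring
      _ ≤ _ := this
      _ = _ := one_mul _
  refine ⟨fr T, ?_, hmin, ?_, ?_, ?_, h2, ?_⟩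
  · have := a1.one_le_tr a2
    rw [← a1.fr_sq] at this
    exact (one_le_sq_iff₀ (fr_nonneg _)).mp this
  · have := fr_add_le (P - T) T
    rw [sub_add_cancel] at this
    linarith
  · have := a1.tr_sub_le hP
    rw [fr_sub_comm, ← a1.fr_sq] at this
    linarith
  · have := hP.tr_sub_le a1
    rw [← a1.fr_sq] at this
    linarith
  · have key : ∀ Q, IsProj Q → fr (fc hw.1 (fun x => Real.sqrt (1 - κ / (x + κ))) * Q) ^ 2 =
        tr (fc hw.1 (fun x => 1 - κ / (x + κ)) * Q) := by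
      intro Q hQ
      rw [fr_fc_mul_proj_sq _ _ hQ]
      congr 2
      apply fc_congr
      intro i
      have := hw.eigenvalues_nonneg i
      apply Real.sq_sqrt
      rw [sub_nonneg, div_le_one (by positivity)]
      linarith
    have e : tr (P * (1 - rho hw κ)) = tr (fc hw.1 (fun x => 1 - κ / (x + κ)) * P) := by
      rw [tr_mul_comm, ← fc_sub, fc_one, rho]
    have hn : ‖fc hw.1 (fun x => Real.sqrt (1 - κ / (x + κ)))‖ ≤ 1 := by
      apply norm_fc_le _ zero_le_one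
      intro i
      have := hw.eigenvalues_nonneg i
      rw [abs_of_nonneg (Real.sqrt_nonneg _), Real.sqrt_le_one]
      have : 0 ≤ κ / (hw.1.eigenvalues i + κ) := by positivity
      linarith
    have t1 := tr_fc_mul_of_high hw hκ.le a1 a3 (f := fun x => 1 - κ / (x + κ)) (fun x h0 hx => by
      have : 1 - κ / (x + κ) = x / (x + κ) := by field_simp; ring
      rw [this, div_le_iff₀ (by positivity)]
      nlinarith)
    rw [← key T a1, ← a1.fr_sq] at t1
    rw [e, ← key P hP]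
    have t2 := fr_add_sq_le (fc hw.1 (fun x => Real.sqrt (1 - κ / (x + κ))) * T)
      (fc hw.1 (fun x => Real.sqrt (1 - κ / (x + κ))) * (P - T))
    rw [← Matrix.mul_add, add_sub_cancel] at t2
    have t3 := pow_le_pow_left₀ (fr_nonneg _) (fr_mul_le_left' hn (P - T)) 2
    linarith

lemma sum_range_eq_add_Ico (f : ℕ → ℝ) {N : ℕ} (hN : 1 ≤ N) :
    ∑ i ∈ range N, f i = f 0 + ∑ i ∈ Ico 1 N, f i := by
  rw [range_eq_Ico, sum_eq_sum_Ico_succ_bot hN]

lemma Ctx.greedy (C : Ctx L ε σ u W) (hWd : tr W ≤ ε * Fintype.card n) {κ : ℝ} (hκ : 0 < κ)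
    (hεκ : ε ≤ κ) (k1 : 1024 * L ^ 4 * κ ≤ 1)
    (k2 : 2 / κ ^ 2 * (132 * L ^ 2 * ε) ≤ (κ ^ 3 / (24 * L)) ^ 2) :
    ∃ (p : ℕ → Matrix n n ℂ) (hp : ∀ j, IsProj (p j)) (N : ℕ) (r : ℕ → ℝ),
      (∀ i ∈ Ico 1 N, 0 < r i ∧
        (∀ T, IsProj T → high (ps_psd hp i) (κ ^ 2) * T = 0 → fr (W * T) ≤ κ * fr T) ∧
        (∀ T, Cand u κ (high (ps_psd hp i) (κ ^ 2)) T → r i ≤ fr T) ∧
        fr (p i) ≤ (1 + 32 * L ^ 2 * κ) * r i ∧ r i ^ 2 ≤ tr (p i) + κ * r i ^ 2) ∧
      (1 - 6 * κ) * Fintype.card n ≤ ∑ i ∈ Ico 1 N, r i ^ 2 ∧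
      ∑ i ∈ Ico 1 N, r i ^ 2 ≤ (1 + 39 * κ) * Fintype.card n ∧
      ∑ i ∈ range N, en u u (p i) ^ 2 ≤ 132 * L ^ 2 * ε * Fintype.card n ∧
      ∀ t β : ℝ, 0 < t → t ≤ 1 → 0 < β → β ≤ 1 / 2 →
        ∑ i ∈ range N, tr (p i * (1 - rho (ps_psd hp i) t)) ≤
          2 * (179 * κ / β ^ 2 * Real.log (1 + 1 / t) + 2 * β) * Fintype.card n := by
  classical
  have hL := C.one_le
  have hε := C.eps
  have hL2 : 1 ≤ L ^ 2 := one_le_pow₀ hL
  have hκ1 : 1024 * κ ≤ 1 := by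
    have : κ ≤ L ^ 4 * κ := le_mul_of_one_le_left hκ.le (one_le_pow₀ hL)
    linarith
  have k1' : 8 * L ^ 2 * κ ≤ 1 := by
    have : L ^ 2 * κ ≤ L ^ 4 * κ :=
      mul_le_mul_of_nonneg_right (pow_le_pow_right₀ hL (by norm_num)) hκ.le
    have h2 : 0 ≤ L ^ 2 * κ := by positivity
    linarith
  obtain ⟨d, hd⟩ : ∃ d : ℝ, d = Fintype.card n := ⟨_, rfl⟩
  have hd0 : 0 ≤ d := by rw [hd]; positivity
  obtain ⟨p, hp, p0, hch⟩ := exists_chain L ε κ u C.projW
  have hstep : ∀ i, 1 ≤ i → (∃ T, Cand u κ (high (ps_psd hp i) (κ ^ 2)) T) →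
      Step L ε κ u (ps p i) (p i) := fun i hi h =>
    hch i hi (C.exists_step hκ hεκ k1' _ (p0 ▸ ps_sub_psd hp hi) h)
  have hr : ∀ i, ∃ r : ℝ, Step L ε κ u (ps p i) (p i) →
      1 ≤ r ∧ (∀ T, Cand u κ (high (ps_psd hp i) (κ ^ 2)) T → r ≤ fr T) ∧
      fr (p i) ≤ (1 + 32 * L ^ 2 * κ) * r ∧ r ^ 2 ≤ tr (p i) + κ * r ^ 2 ∧
      tr (p i) ≤ r ^ 2 + κ * r ^ 2 ∧ en u u (p i) ^ 2 ≤ 32 * L * ε * r ^ 2 ∧
      tr (p i * (1 - rho (ps_psd hp i) κ)) ≤ 4 * κ * r ^ 2 := by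
    intro i
    by_cases h : Step L ε κ u (ps p i) (p i)
    · obtain ⟨r, hr⟩ := h.facts hκ k1 (ps_psd hp i)
      exact ⟨r, fun _ => hr⟩
    · exact ⟨0, fun h' => absurd h' h⟩
  choose r hr using hr
  rw [← hd] at hWd ⊢
  have hεd : ε * d ≤ κ * d := mul_le_mul_of_nonneg_right hεκ hd0
  have hκd : 1024 * (κ * d) ≤ d := by nlinarith
  have hκd0 : 0 ≤ κ * d := by positivity
  -- bounds along a chain
  have bound : ∀ N, 1 ≤ N → (∀ i ∈ Ico 1 N, Step L ε κ u (ps p i) (p i)) →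
      ∑ i ∈ Ico 1 N, r i ^ 2 ≤ 2 * tr (ps p N) ∧ tr (ps p N) ≤ 2 * d ∧
      ∑ i ∈ range N, tr (p i * (1 - rho (ps_psd hp i) κ)) ≤ 17 * (κ * d) := by
    intro N hN hS
    have b1 : ∑ i ∈ Ico 1 N, r i ^ 2 ≤ 2 * tr (ps p N) := by
      rw [tr_ps, sum_range_eq_add_Ico _ hN, mul_add, mul_sum]
      have : ∑ i ∈ Ico 1 N, r i ^ 2 ≤ ∑ i ∈ Ico 1 N, 2 * tr (p i) := by
        apply sum_le_sum
        intro i hi
        have := (hr i (hS i hi)).2.2.2.1
        nlinarith [sq_nonneg (r i)]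
      linarith [(hp 0).tr_nonneg]
    have b2 : ∑ i ∈ range N, tr (p i * (1 - rho (ps_psd hp i) κ)) ≤
        κ * d + 8 * (κ * tr (ps p N)) := by
      rw [sum_range_eq_add_Ico _ hN]
      have t1 := tr_one_sub_rho_le (ps_psd hp 0) (hp 0) hκ
      have t2 := sum_le_sum (s := Ico 1 N) (fun i hi => (hr i (hS i hi)).2.2.2.2.2.2)
      rw [← mul_sum] at t2
      have t3 := mul_le_mul_of_nonneg_left b1 (show 0 ≤ 4 * κ by positivity)
      have t4 : tr (p 0) ≤ ε * d := by rw [p0]; exact hWd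
      linarith
    have b3 := tr_ps_le hp hκ N
    rw [← hd] at b3
    have b4 : 0 ≤ tr (ps p N) := tr_nonneg_of_posSemidef (ps_psd hp N)
    have b5 : 1024 * (κ * tr (ps p N)) ≤ tr (ps p N) := by nlinarith
    have b6 : tr (ps p N) ≤ 2 * d := by linarith
    have b7 := mul_le_mul_of_nonneg_left b6 hκ.le
    exact ⟨b1, b6, by linarith⟩
  have hex : ∃ i, 1 ≤ i ∧ ¬ ∃ T, Cand u κ (high (ps_psd hp i) (κ ^ 2)) T := by
    by_contra hne
    push Not at hne
    obtain ⟨b1, b2, -⟩ := bound (4 * Fintype.card n + 2) (by omega)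
      (fun i hi => hstep i (mem_Ico.mp hi).1 (hne i (mem_Ico.mp hi).1))
    have : ∑ _i ∈ Ico 1 (4 * Fintype.card n + 2), (1 : ℝ) ≤
        ∑ i ∈ Ico 1 (4 * Fintype.card n + 2), r i ^ 2 := by
      apply sum_le_sum
      intro i hi
      exact one_le_pow₀ (hr i (hstep i (mem_Ico.mp hi).1 (hne i (mem_Ico.mp hi).1))).1
    simp only [sum_const, Nat.card_Ico, nsmul_eq_mul, mul_one] at this
    rw [show 4 * Fintype.card n + 2 - 1 = 4 * Fintype.card n + 1 by omega] at this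
    push_cast at this
    linarith
  obtain ⟨N, ⟨hN, hstop⟩, hNmin⟩ : ∃ N, (1 ≤ N ∧ ¬ ∃ T, Cand u κ (high (ps_psd hp N) (κ ^ 2)) T) ∧
      ∀ i < N, ¬ (1 ≤ i ∧ ¬ ∃ T, Cand u κ (high (ps_psd hp i) (κ ^ 2)) T) :=
    ⟨Nat.find hex, Nat.find_spec hex, fun i hi => Nat.find_min hex hi⟩
  have hS : ∀ i ∈ Ico 1 N, Step L ε κ u (ps p i) (p i) := by
    intro i hi
    apply hstep i (mem_Ico.mp hi).1
    by_contra h
    exact hNmin i (mem_Ico.mp hi).2 ⟨(mem_Ico.mp hi).1, h⟩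
  obtain ⟨b1, b2, b3⟩ := bound N hN hS
  have b4 := tr_ps_le hp hκ N
  rw [← hd] at b4
  have hE : ∑ i ∈ range N, en u u (p i) ^ 2 ≤ 132 * L ^ 2 * ε * d := by
    rw [sum_range_eq_add_Ico _ hN]
    have t1 := sum_le_sum (s := Ico 1 N) (fun i hi => (hr i (hS i hi)).2.2.2.2.2.1)
    rw [← mul_sum] at t1
    have t2 : en u u (p 0) ≤ 2 * L * fr W := by
      have := en_le_add_fr' C.contr C.contr C.card_le W 0
      rw [en_zero, sub_zero, zero_add] at this
      rw [p0]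
      exact this
    have t3 := pow_le_pow_left₀ (en_nonneg _ _ _) t2 2
    rw [mul_pow, C.projW.fr_sq] at t3
    have t4 := mul_le_mul_of_nonneg_left hWd (sq_nonneg (2 * L))
    have t5 := mul_le_mul_of_nonneg_left (b1.trans (show _ ≤ 4 * d by linarith))
      (show 0 ≤ 32 * L * ε by positivity)
    have t6 : L * (ε * d) ≤ L ^ 2 * (ε * d) :=
      mul_le_mul_of_nonneg_right (by nlinarith) (by positivity)
    linarith
  have hlow : (1 - κ) * d ≤ tr (ps p N) := by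
    have hw := ps_psd hp N
    obtain ⟨s, s1, s2, s3⟩ := exists_level hw.1 (fun x => κ ^ 2 / (x + κ ^ 2)) C.contr
      (α := 1 / 2) (β := 2 / 3) (by norm_num) (by norm_num)
    have t1 : en u u (fc hw.1 (fun x => κ ^ 2 / (x + κ ^ 2))) ≤
        κ ^ 3 / (24 * L) * Real.sqrt d := by
      apply (pow_le_pow_iff_left₀ (en_nonneg _ _ _) (by positivity) two_ne_zero).mp
      refine (en_rho_le hp (show 0 < κ ^ 2 by positivity) u N).trans ?_
      rw [mul_pow, Real.sq_sqrt hd0]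
      refine (mul_le_mul_of_nonneg_left hE (by positivity)).trans ?_
      rw [← mul_assoc]
      exact mul_le_mul_of_nonneg_right k2 hd0
    have t2 : fr (fc hw.1 (fun x => κ ^ 2 / (x + κ ^ 2))) ≤ 1 * Real.sqrt d := by
      rw [hd]
      exact fr_le_of_norm_le_right (norm_rho_le hw (show 0 < κ ^ 2 by positivity))
    have t3 := mul_le_mul t1 t2 (fr_nonneg _) (by positivity)
    have t4 : 2 * Real.sqrt (Fintype.card S) / (1 / 2 * (2 / 3 - 1 / 2)) ≤ 24 * L := by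
      have := C.card_le
      rw [div_le_iff₀ (by norm_num)]
      linarith
    have t5 := mul_le_mul t4 t3 (mul_nonneg (en_nonneg _ _ _) (fr_nonneg _)) (by positivity)
    have t6 : 24 * L * (κ ^ 3 / (24 * L) * Real.sqrt d * (1 * Real.sqrt d)) = κ ^ 2 * (κ * d) := by
      have := Real.mul_self_sqrt hd0
      field_simp
      rw [Real.sq_sqrt hd0]
    replace s3 := s3.trans (t5.trans t6.le)
    have hq := isProj_fc_ind hw.1 (fun x => κ ^ 2 / (x + κ ^ 2)) s
    have t7 : tr (fc hw.1 (fun x => ind s (κ ^ 2 / (x + κ ^ 2)))) ≤ κ * d := by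
      by_contra hneg
      apply hstop
      refine ⟨_, hq, ?_, ?_, ?_⟩
      · intro h0
        rw [h0, tr_zero] at hneg
        exact hneg hκd0
      · unfold high
        rw [fc_mul, ← fc_zero hw.1]
        apply fc_congr
        intro i
        unfold ind
        split_ifs with a b
        · exfalso
          rw [lt_div_iff₀ (by have := hw.eigenvalues_nonneg i; positivity)] at b
          nlinarith [sq_nonneg κ]
        all_goals simp
      · apply (pow_le_pow_iff_left₀ (en_nonneg _ _ _) (mul_nonneg hκ.le (fr_nonneg _))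
          two_ne_zero).mp
        rw [mul_pow, hq.fr_sq]
        exact s3.trans (mul_le_mul_of_nonneg_left (not_le.mp hneg).le (sq_nonneg _))
    have t8 : d - tr (fc hw.1 (fun x => ind s (κ ^ 2 / (x + κ ^ 2)))) ≤ (ps p N).rank := by
      rw [hw.1.rank_eq_card_non_zero_eigs, Fintype.card_subtype, card_eq_sum_ones, sum_filter,
        tr_fc, hd, ← card_univ, card_eq_sum_ones]
      push_cast
      rw [← sum_sub_distrib]
      apply sum_le_sum
      intro i _
      unfold ind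
      split_ifs with a b b
      · simp
      · simp
      · simp
      · exfalso
        apply a
        rw [not_not.mp b, zero_add, div_self (by positivity)]
        linarith
    linarith [rank_ps_le hp N]
  refine ⟨p, hp, N, r, ?_, ?_, ?_, hE, ?_⟩
  · intro i hi
    obtain ⟨a1, a2, a3, a4, -⟩ := hr i (hS i hi)
    exact ⟨by linarith, fun T hT h => fr_mul_le_of_high _ C.projW
      (p0 ▸ ps_sub_psd hp (mem_Ico.mp hi).1) hκ.le hT h, a2, a3, a4⟩
  · have t1 := sum_le_sum (s := Ico 1 N) (fun i hi => (hr i (hS i hi)).2.2.2.2.1)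
    rw [sum_add_distrib, ← mul_sum] at t1
    have t2 := tr_ps (p := p) N
    rw [sum_range_eq_add_Ico _ hN, p0] at t2
    have t3 := mul_le_mul_of_nonneg_left (b1.trans (show _ ≤ 4 * d by linarith)) hκ.le
    linarith
  · have t1 := sum_le_sum (s := Ico 1 N) (fun i hi => (hr i (hS i hi)).2.2.2.1)
    rw [sum_add_distrib, ← mul_sum] at t1
    have t2 := tr_ps (p := p) N
    rw [sum_range_eq_add_Ico _ hN] at t2
    have t3 := mul_le_mul_of_nonneg_left (b1.trans (show _ ≤ 4 * d by linarith)) hκ.le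
    linarith [(hp 0).tr_nonneg]
  · intro t β ht ht1 hβ hβ1
    have t1 := tr_low_le hp hκ hβ.le (by linarith) N
    have t2 := sum_tr_one_sub_rho_le hp ht hβ.le hβ1 N
    rw [← hd] at t1 t2
    have t3 : tr (low (ps_psd hp N) (1 - β)) ≤ 144 * (κ * d) / β ^ 2 := by
      rw [le_div_iff₀ (by positivity)]
      linarith
    have t4 : 35 * (κ * d) ≤ 35 * (κ * d) / β ^ 2 := by
      rw [le_div_iff₀ (by positivity)]
      have : β ^ 2 ≤ 1 := by nlinarith
      nlinarith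
    have t5 : 0 ≤ Real.log (1 + 1 / t) := Real.log_nonneg (by
      have : 0 < 1 / t := by positivity
      linarith)
    have t6 : tr (ps p N) - d + tr (low (ps_psd hp N) (1 - β)) ≤ 179 * κ / β ^ 2 * d := by
      have : 179 * κ / β ^ 2 * d = 35 * (κ * d) / β ^ 2 + 144 * (κ * d) / β ^ 2 := by ring
      linarith
    have t7 := mul_le_mul_of_nonneg_right t6 t5
    refine t2.trans ?_
    calc _ ≤ (1 + t) * (179 * κ / β ^ 2 * d * Real.log (1 + 1 / t) + 2 * β * d) :=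
          mul_le_mul_of_nonneg_left (by linarith) (by linarith)
      _ ≤ 2 * (179 * κ / β ^ 2 * d * Real.log (1 + 1 / t) + 2 * β * d) :=
          mul_le_mul_of_nonneg_right (by linarith) (by positivity)
      _ = _ := by ring

end Greedy

end Pool.Agent.Lib.MP_f81d8e_an
end
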