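import Mathlib
import Pool.Agent.Lib.MP_f81d8e_an.Defs
import Pool.Agent.Lib.MP_f81d8e_an.Greedy

-- part Pool.Agent.Lib.MP_f81d8e_an.PropT
section

set_option autoImplicit false
set_option linter.unusedSectionVars false

namespace Pool.Agent.Lib.MP_f81d8e_an

open Matrix Finset Filter Topology
open scoped Matrix.Norms.L2Operator ComplexOrder

attribute [local irreducible] fr tr en fc

section Hilbert

variable {G : Type} [Group G]

/-- The Kazhdan pair property. -/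
def IsKazhdanPair (K : Finset G) (ε : ℝ) : Prop :=
  ∀ (H : Type) [NormedAddCommGroup H] [InnerProductSpace ℂ H] [CompleteSpace H]
      (ρ : G →* (H ≃ₗᵢ[ℂ] H)), (∃ ξ : H, ‖ξ‖ = 1 ∧ ∀ s ∈ K, ‖ρ s ξ - ξ‖ < ε) →
      ∃ ξ : H, ξ ≠ 0 ∧ ∀ g, ρ g ξ = ξ

lemma kazhdan_complete {K : Finset G} {ε : ℝ} (hε : 0 < ε) (hK : IsKazhdanPair K ε)
    {H : Type} [NormedAddCommGroup H] [InnerProductSpace ℂ H] [CompleteSpace H]
    (ρ : G →* (H ≃ₗᵢ[ℂ] H)) (ξ : H) {e : ℝ} (he : 0 ≤ e) (h : ∀ s ∈ K, ‖ρ s ξ - ξ‖ ≤ e) (g : G) :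
    ‖ρ g ξ - ξ‖ ≤ 2 / ε * e := by
  let Inv : Submodule ℂ H :=
    { carrier := {v | ∀ g, ρ g v = v}
      add_mem' := fun {a b} ha hb g => by rw [map_add, ha g, hb g]
      zero_mem' := fun g => map_zero _
      smul_mem' := fun c a ha g => by rw [map_smul, ha g] }
  have hcl : IsClosed (Inv : Set H) := by
    have : (Inv : Set H) = ⋂ g, {v | ρ g v = v} := by
      ext v
      simp [Inv]
    rw [this]
    exact isClosed_iInter (fun g => isClosed_eq (ρ g).continuous continuous_id)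
  have : CompleteSpace Inv := hcl.completeSpace_coe
  have hmul : ∀ a b v, ρ a (ρ b v) = ρ (a * b) v := fun a b v => by rw [map_mul]; rfl
  have hone : ∀ v, ρ 1 v = v := fun v => by rw [map_one]; rfl
  have hinv : ∀ g, ∀ v ∈ Invᗮ, ρ g v ∈ Invᗮ := by
    intro g v hv
    rw [Submodule.mem_orthogonal] at hv ⊢
    intro w hw
    rw [← hw g, (ρ g).inner_map_map]
    exact hv w hw
  let ρ₁ : G → (Invᗮ ≃ₗᵢ[ℂ] Invᗮ) := fun g =>
    { toFun := fun v => ⟨ρ g v, hinv g v v.2⟩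
      invFun := fun v => ⟨ρ g⁻¹ v, hinv g⁻¹ v v.2⟩
      map_add' := fun a b => Subtype.ext (map_add (ρ g) a.1 b.1)
      map_smul' := fun c a => Subtype.ext (map_smul (ρ g) c a.1)
      left_inv := fun v => Subtype.ext (by simp only [hmul, inv_mul_cancel, hone])
      right_inv := fun v => Subtype.ext (by simp only [hmul, mul_inv_cancel, hone])
      norm_map' := fun v => (ρ g).norm_map v.1 }
  let ρ' : G →* (Invᗮ ≃ₗᵢ[ℂ] Invᗮ) :=
    { toFun := ρ₁
      map_one' := LinearIsometryEquiv.ext (fun v => Subtype.ext (hone v.1))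
      map_mul' := fun a b => LinearIsometryEquiv.ext (fun v => Subtype.ext (hmul a b v.1).symm) }
  obtain ⟨ξ₀, h₀, ξ₁, h₁, rfl⟩ := Inv.exists_add_mem_mem_orthogonal ξ
  have e1 : ∀ g, ρ g (ξ₀ + ξ₁) - (ξ₀ + ξ₁) = ρ g ξ₁ - ξ₁ := fun g => by
    rw [map_add, h₀ g]
    abel
  simp only [e1] at h ⊢
  have key : ε * ‖ξ₁‖ ≤ e := by
    by_contra hneg
    have hpos : 0 < ‖ξ₁‖ := by
      by_contra h0
      have : ‖ξ₁‖ = 0 := le_antisymm (not_lt.mp h0) (norm_nonneg _)
      rw [this, mul_zero] at hneg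
      exact hneg he
    obtain ⟨η, η0, η1⟩ := hK Invᗮ ρ' ⟨((‖ξ₁‖ : ℝ) : ℂ)⁻¹ • ⟨ξ₁, h₁⟩, by
      rw [norm_smul, norm_inv, Complex.norm_real, norm_norm]
      exact inv_mul_cancel₀ hpos.ne', fun s hs => by
      rw [map_smul, ← smul_sub, norm_smul, norm_inv, Complex.norm_real, norm_norm,
        inv_mul_lt_iff₀ hpos]
      refine lt_of_le_of_lt (h s hs) ?_
      rw [mul_comm]
      exact not_le.mp hneg⟩
    apply η0
    have hη : η.1 ∈ Inv := fun g => congrArg Subtype.val (η1 g)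
    exact Subtype.ext (inner_self_eq_zero (𝕜 := ℂ).mp (η.2 η.1 hη))
  have := norm_sub_le (ρ g ξ₁) ξ₁
  rw [(ρ g).norm_map] at this
  rw [div_mul_eq_mul_div, le_div_iff₀ hε]
  nlinarith

lemma kazhdan_semi {K : Finset G} {ε : ℝ} (hε : 0 < ε) (hK : IsKazhdanPair K ε)
    {E : Type} [SeminormedAddCommGroup E] [InnerProductSpace ℂ E] (ρ : G → (E →ₗ[ℂ] E))
    (hone : ∀ v, ρ 1 v = v) (hmul : ∀ a b v, ρ a (ρ b v) = ρ (a * b) v)
    (hn : ∀ g v, ‖ρ g v‖ = ‖v‖) (ξ : E) {e : ℝ} (he : 0 ≤ e)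
    (h : ∀ s ∈ K, ‖ρ s ξ - ξ‖ ≤ e) (g : G) : ‖ρ g ξ - ξ‖ ≤ 2 / ε * e := by
  let ρ₀ : G → (UniformSpace.Completion E →L[ℂ] UniformSpace.Completion E) := fun g =>
    ((ρ g).mkContinuous 1 (fun v => by rw [hn, one_mul])).completion
  have c0 : ∀ g (v : E), ρ₀ g v = (ρ g v : E) := fun g v =>
    ContinuousLinearMap.completion_apply_coe _ _
  have c1 : ∀ v, ρ₀ 1 v = v := fun v => by
    induction v using UniformSpace.Completion.induction_on with
    | hp => exact isClosed_eq (ρ₀ 1).continuous continuous_id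
    | ih a => rw [c0, hone]
  have c2 : ∀ a b v, ρ₀ a (ρ₀ b v) = ρ₀ (a * b) v := fun a b v => by
    induction v using UniformSpace.Completion.induction_on with
    | hp => exact isClosed_eq ((ρ₀ a).continuous.comp (ρ₀ b).continuous) (ρ₀ _).continuous
    | ih a => rw [c0, c0, c0, hmul]
  have c3 : ∀ g v, ‖ρ₀ g v‖ = ‖v‖ := fun g v => by
    induction v using UniformSpace.Completion.induction_on with
    | hp => exact isClosed_eq (ρ₀ g).continuous.norm continuous_norm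
    | ih a => rw [c0, UniformSpace.Completion.norm_coe, UniformSpace.Completion.norm_coe, hn]
  let ρ₁ : G → (UniformSpace.Completion E ≃ₗᵢ[ℂ] UniformSpace.Completion E) := fun g =>
    { toFun := ρ₀ g
      invFun := ρ₀ g⁻¹
      map_add' := map_add _
      map_smul' := map_smul _
      left_inv := fun v => by simp only [c2, inv_mul_cancel, c1]
      right_inv := fun v => by simp only [c2, mul_inv_cancel, c1]
      norm_map' := c3 g }
  let ρ' : G →* (UniformSpace.Completion E ≃ₗᵢ[ℂ] UniformSpace.Completion E) :=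
    { toFun := ρ₁
      map_one' := LinearIsometryEquiv.ext c1
      map_mul' := fun a b => LinearIsometryEquiv.ext (fun v => (c2 a b v).symm) }
  have c4 : ∀ g, ‖ρ' g (ξ : UniformSpace.Completion E) - ξ‖ = ‖ρ g ξ - ξ‖ := fun g => by
    change ‖ρ₀ g (ξ : UniformSpace.Completion E) - ξ‖ = _
    rw [c0, ← UniformSpace.Completion.coe_sub, UniformSpace.Completion.norm_coe]
  rw [← c4]
  exact kazhdan_complete hε hK ρ' _ he (fun s hs => (c4 s).trans_le (h s hs)) g

lemma exists_almost_invariant {E : Type} [SeminormedAddCommGroup E] [InnerProductSpace ℂ E]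
    (ρ : G → (E →ₗ[ℂ] E)) (hmul : ∀ a b v, ρ a (ρ b v) = ρ (a * b) v)
    (hn : ∀ g v, ‖ρ g v‖ = ‖v‖) (ξ : E) {δ : ℝ} (hδ : 0 < δ) :
    ∃ (ι : Type) (_ : Fintype ι) (c : ι → ℝ) (γ : ι → G), (∀ i, 0 ≤ c i) ∧ ∑ i, c i = 1 ∧
      ∀ s, ‖ρ s (∑ i, (c i : ℂ) • ρ (γ i) ξ) - ∑ i, (c i : ℂ) • ρ (γ i) ξ‖ ≤ δ := by
  let C : Set E := {ζ | ∃ (ι : Type) (_ : Fintype ι) (c : ι → ℝ) (γ : ι → G), (∀ i, 0 ≤ c i) ∧
    ∑ i, c i = 1 ∧ ζ = ∑ i, (c i : ℂ) • ρ (γ i) ξ}
  have hne : ((fun v : E => ‖v‖ ^ 2) '' C).Nonempty :=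
    ⟨_, _, ⟨Unit, inferInstance, fun _ => 1, fun _ => 1, fun _ => zero_le_one, by simp, rfl⟩, rfl⟩
  have hbd : BddBelow ((fun v : E => ‖v‖ ^ 2) '' C) := ⟨0, by
    rintro _ ⟨v, -, rfl⟩
    positivity⟩
  obtain ⟨_, ⟨ζ, hζ, rfl⟩, hlt⟩ := exists_lt_of_csInf_lt hne
    (lt_add_of_pos_right _ (show 0 < δ ^ 2 / 4 by positivity))
  obtain ⟨ι, _, c, γ, h0, h1, hζ⟩ := hζ
  refine ⟨ι, inferInstance, c, γ, h0, h1, fun s => ?_⟩
  rw [← hζ]
  have hmid : (1 / 2 : ℂ) • (ρ s ζ + ζ) ∈ C := by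
    refine ⟨ι ⊕ ι, inferInstance, Sum.elim (fun i => c i / 2) (fun i => c i / 2),
      Sum.elim (fun i => s * γ i) γ, ?_, ?_, ?_⟩
    · rintro (i | i) <;> exact div_nonneg (h0 i) zero_le_two
    · simp only [Fintype.sum_sum_type, Sum.elim_inl, Sum.elim_inr, ← sum_div, h1]
      norm_num
    · rw [hζ]
      simp only [Fintype.sum_sum_type, Sum.elim_inl, Sum.elim_inr, map_sum, map_smul, hmul,
        smul_add, smul_sum, smul_smul]
      congr 1 <;> refine sum_congr rfl (fun i _ => ?_) <;> congr 1 <;> push_cast <;> ring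
  have h2 := csInf_le hbd ⟨_, hmid, rfl⟩
  have h3 := parallelogram_law_with_norm ℂ (ρ s ζ) ζ
  simp only [norm_smul, one_div, norm_inv, Complex.norm_ofNat] at h2 hlt
  rw [hn] at h3
  apply (pow_le_pow_iff_left₀ (norm_nonneg _) hδ.le two_ne_zero).mp
  nlinarith

end Hilbert

section Limit

variable {G : Type} [Group G]

lemma exists_ulim {J : Type*} (V : Ultrafilter J) (f : J → ℂ) (C : ℝ) (h : ∀ j, ‖f j‖ ≤ C) :
    ∃ z, Tendsto f V (𝓝 z) := by
  obtain ⟨z, -, hz⟩ := (isCompact_closedBall (0 : ℂ) C).ultrafilter_le_nhds (V.map f) (by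
    rw [Ultrafilter.coe_map, le_principal_iff, Filter.mem_map]
    exact Eventually.of_forall (fun j => by simpa using h j))
  exact ⟨z, hz⟩

lemma exists_ulim_real {J : Type*} (V : Ultrafilter J) (f : J → ℝ) (C : ℝ) (h : ∀ j, |f j| ≤ C) :
    ∃ z, Tendsto f V (𝓝 z) := by
  obtain ⟨z, -, hz⟩ := (isCompact_closedBall (0 : ℝ) C).ultrafilter_le_nhds (V.map f) (by
    rw [Ultrafilter.coe_map, le_principal_iff, Filter.mem_map]
    exact Eventually.of_forall (fun j => by simpa using h j))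
  exact ⟨z, hz⟩

variable {n : Type*} [Fintype n] [DecidableEq n]

/-- Conjugation by `U g`. -/
noncomputable def conjBy (U : G → Matrix n n ℂ) (g : G) (x : Matrix n n ℂ) : Matrix n n ℂ :=
  U g * x * (U g)ᴴ

lemma fr_conjBy {U : G → Matrix n n ℂ} (hU : ∀ g, (U g)ᴴ * U g = 1) (g : G) (x : Matrix n n ℂ) :
    fr (conjBy U g x) = fr x := by
  unfold conjBy
  rw [fr_mul_coisometry _ (by simpa using hU g), fr_isometry_mul (hU g)]

lemma conjBy_sub (U : G → Matrix n n ℂ) (g : G) (x y : Matrix n n ℂ) :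
    conjBy U g (x - y) = conjBy U g x - conjBy U g y := by
  simp only [conjBy, Matrix.mul_sub, Matrix.sub_mul]

lemma conjBy_add (U : G → Matrix n n ℂ) (g : G) (x y : Matrix n n ℂ) :
    conjBy U g (x + y) = conjBy U g x + conjBy U g y := by
  simp only [conjBy, Matrix.mul_add, Matrix.add_mul]

lemma conjBy_smul (U : G → Matrix n n ℂ) (g : G) (c : ℂ) (x : Matrix n n ℂ) :
    conjBy U g (c • x) = c • conjBy U g x := by
  simp only [conjBy, Matrix.mul_smul, Matrix.smul_mul]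

/-- The family of the `U s` and their adjoints. -/
noncomputable def dbl (S₀ : Finset G) (U : G → Matrix n n ℂ) : S₀ ⊕ S₀ → Matrix n n ℂ :=
  Sum.elim (fun s => U s) (fun s => (U s)ᴴ)

lemma dbl_adj (S₀ : Finset G) (U : G → Matrix n n ℂ) :
    AdjClosed (Equiv.sumComm S₀ S₀) (dbl S₀ U) := by
  rintro (s | s) <;> simp [dbl]

lemma dbl_contr (S₀ : Finset G) {U : G → Matrix n n ℂ} (hU : ∀ g, (U g)ᴴ * U g = 1)
    (s : S₀ ⊕ S₀) : ‖dbl S₀ U s‖ ≤ 1 := by
  rcases s with s | s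
  · exact isometry_norm_le (hU s)
  · exact opNorm_conjTranspose_le_one (isometry_norm_le (hU s))

lemma fr_dbl_comm (S₀ : Finset G) {U : G → Matrix n n ℂ} (hU : ∀ g, (U g)ᴴ * U g = 1)
    (x : Matrix n n ℂ) (s : S₀ ⊕ S₀) : fr (dbl S₀ U s * x - x * dbl S₀ U s) =
      fr (conjBy U (Sum.elim Subtype.val Subtype.val s) x - x) := by
  rcases s with s | s
  · rw [← fr_mul_coisometry _ (v := (U s)ᴴ) (by simpa using hU s)]
    simp only [dbl, Sum.elim_inl, conjBy, Matrix.sub_mul, Matrix.mul_assoc,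
      mul_eq_one_comm.mp (hU s), Matrix.mul_one]
  · rw [← fr_isometry_mul (hU s), fr_sub_comm]
    simp only [dbl, Sum.elim_inr, conjBy, Matrix.mul_sub, ← Matrix.mul_assoc,
      mul_eq_one_comm.mp (hU s), Matrix.one_mul]

lemma propT_norm {K : Finset G} {κ : ℝ} (hκ : 0 < κ) (hK : IsKazhdanPair K κ) {S₀ : Finset G}
    (hS : K ⊆ S₀) {ε : ℝ} (hε : 0 < ε) :
    ∃ (F : Finset (G × G)) (θ : ℝ), 0 < θ ∧ ∀ (d : ℕ) (U : G → Matrix (Fin d) (Fin d) ℂ),
      (∀ g, (U g)ᴴ * U g = 1) → ∀ x : Matrix (Fin d) (Fin d) ℂ, fr x = 1 →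
      (∀ p ∈ F, fr (conjBy U p.1 (conjBy U p.2 x) - conjBy U (p.1 * p.2) x) ≤ θ) →
      ∃ (ι : Type) (_ : Fintype ι) (c : ι → ℝ) (γ : ι → G), (∀ i, 0 ≤ c i) ∧ ∑ i, c i = 1 ∧
        fr (∑ i, (c i : ℂ) • conjBy U (γ i) x - x) ≤ 2 / κ * en (dbl S₀ U) (dbl S₀ U) x + ε ∧
        en (dbl S₀ U) (dbl S₀ U) (∑ i, (c i : ℂ) • conjBy U (γ i) x) ≤ ε := by
  classical
  by_contra hneg
  push Not at hneg
  choose d U hU x hx hdef hbad using fun j : Finset (G × G) × ℕ =>
    hneg j.1 (1 / ((j.2 : ℝ) + 1)) (by positivity)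
  let V : Ultrafilter (Finset (G × G) × ℕ) := Ultrafilter.of atTop
  have hV : (V : Filter (Finset (G × G) × ℕ)) ≤ atTop := Ultrafilter.of_le _
  have d0 : ∀ h g, Tendsto (fun j => fr (conjBy (U j) h (conjBy (U j) g (x j)) -
      conjBy (U j) (h * g) (x j))) V (𝓝 0) := by
    intro h g
    have t1 : Tendsto (fun j : Finset (G × G) × ℕ => 1 / ((j.2 : ℝ) + 1)) V (𝓝 0) := by
      refine (tendsto_one_div_add_atTop_nhds_zero_nat.comp ?_).mono_left hV
      rw [← prod_atTop_atTop_eq]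
      exact tendsto_snd
    refine squeeze_zero' (Eventually.of_forall (fun _ => fr_nonneg _)) ?_ t1
    apply hV
    filter_upwards [eventually_ge_atTop (({(h, g)} : Finset (G × G)), 0)] with j hj
    exact hdef j (h, g) (hj.1 (mem_singleton_self _))
  have d1 : Tendsto (fun j => fr (conjBy (U j) 1 (x j) - x j)) V (𝓝 0) := by
    refine (d0 1 1).congr (fun j => ?_)
    rw [one_mul, ← conjBy_sub, fr_conjBy (hU j)]
  let T : ∀ j, (G →₀ ℂ) →ₗ[ℂ] Matrix (Fin (d j)) (Fin (d j)) ℂ := fun j =>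
    Finsupp.linearCombination ℂ (fun g => conjBy (U j) g (x j))
  have T1 : ∀ j g c, T j (Finsupp.single g c) = c • conjBy (U j) g (x j) := fun j g c =>
    Finsupp.linearCombination_single _ _ _
  have Tb : ∀ a, ∃ C, ∀ j, fr (T j a) ≤ C := by
    intro a
    induction a using Finsupp.induction_linear with
    | zero => exact ⟨0, fun j => by rw [map_zero, fr_zero]⟩
    | add a b ha hb =>
      obtain ⟨C, hC⟩ := ha
      obtain ⟨C', hC'⟩ := hb
      exact ⟨C + C', fun j => by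
        rw [map_add]
        exact (fr_add_le _ _).trans (add_le_add (hC j) (hC' j))⟩
    | single g c => exact ⟨‖c‖, fun j => by rw [T1, fr_smul, fr_conjBy (hU j), hx, mul_one]⟩
  have hB : ∀ a b, ∃ z, Tendsto (fun j => inner ℂ (vec (T j a)) (vec (T j b))) V (𝓝 z) := by
    intro a b
    obtain ⟨C, hC⟩ := Tb a
    obtain ⟨C', hC'⟩ := Tb b
    refine exists_ulim V _ (C * C') (fun j => (norm_inner_le_norm _ _).trans ?_)
    have t1 := hC j
    have t2 := hC' j
    unfold fr at t1 t2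
    exact mul_le_mul t1 t2 (norm_nonneg _) ((norm_nonneg _).trans t1)
  choose B hB using hB
  let core : PreInnerProductSpace.Core ℂ (G →₀ ℂ) :=
    { inner := B
      conj_inner_symm := fun a b => by
        refine tendsto_nhds_unique ((Complex.continuous_conj.tendsto _).comp (hB b a)) ?_
        refine (hB a b).congr (fun j => ?_)
        simp
      re_inner_nonneg := fun a => by
        refine ge_of_tendsto' ((RCLike.continuous_re.tendsto _).comp (hB a a)) (fun j => ?_)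
        exact inner_self_nonneg
      add_left := fun a b c => by
        refine tendsto_nhds_unique (hB _ _) (((hB a c).add (hB b c)).congr (fun j => ?_))
        rw [map_add, vec_add, inner_add_left]
      smul_left := fun a b r => by
        refine tendsto_nhds_unique (hB _ _) (((hB a b).const_mul _).congr (fun j => ?_))
        rw [map_smul, vec_smul, inner_smul_left] }
  let _ : SeminormedAddCommGroup (G →₀ ℂ) :=
    InnerProductSpace.Core.toSeminormedAddCommGroup (c := core)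
  let _ : InnerProductSpace ℂ (G →₀ ℂ) := InnerProductSpace.ofCore core
  have hN : ∀ a : G →₀ ℂ, Tendsto (fun j => fr (T j a)) V (𝓝 ‖a‖) := by
    intro a
    have := ((RCLike.continuous_re.tendsto _).comp (hB a a)).sqrt
    refine this.congr (fun j => ?_)
    unfold fr
    rw [Function.comp_apply, ← norm_eq_sqrt_re_inner]
  let ρ : G → ((G →₀ ℂ) →ₗ[ℂ] (G →₀ ℂ)) := fun g => Finsupp.lmapDomain ℂ ℂ (fun h => g * h)
  have ρs : ∀ g h c, ρ g (Finsupp.single h c) = Finsupp.single (g * h) c := fun g h c => by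
    simp [ρ, Finsupp.mapDomain_single]
  have ρ1 : ∀ v, ρ 1 v = v := fun v => by
    induction v using Finsupp.induction_linear with
    | zero => simp
    | add a b ha hb => rw [map_add, ha, hb]
    | single g c => rw [ρs, one_mul]
  have ρm : ∀ a b v, ρ a (ρ b v) = ρ (a * b) v := fun a b v => by
    induction v using Finsupp.induction_linear with
    | zero => simp
    | add a b ha hb => simp only [map_add, ha, hb]
    | single g c => rw [ρs, ρs, ρs, mul_assoc]
  have d2 : ∀ g a, Tendsto (fun j => fr (conjBy (U j) g (T j a) - T j (ρ g a))) V (𝓝 0) := by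
    intro g a
    induction a using Finsupp.induction_linear with
    | zero => simp [conjBy, fr_zero]
    | add a b ha hb =>
      refine squeeze_zero (fun _ => fr_nonneg _) (fun j => ?_) (by simpa using ha.add hb)
      rw [map_add, map_add, map_add, conjBy_add, add_sub_add_comm]
      exact fr_add_le _ _
    | single h c =>
      have := (d0 g h).const_mul ‖c‖
      rw [mul_zero] at this
      refine this.congr (fun j => ?_)
      rw [ρs, T1, T1, conjBy_smul, ← smul_sub, fr_smul]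
  have ρn : ∀ g v, ‖ρ g v‖ = ‖v‖ := fun g v => by
    apply le_antisymm
    · refine le_of_tendsto_of_tendsto' (hN _) (by simpa using (hN v).add (d2 g v)) (fun j => ?_)
      have := fr_sub_le (conjBy (U j) g (T j v)) (conjBy (U j) g (T j v) - T j (ρ g v))
      rwa [sub_sub_cancel, fr_conjBy (hU j)] at this
    · refine le_of_tendsto_of_tendsto' (hN _) (by simpa using (hN (ρ g v)).add (d2 g v))
        (fun j => ?_)
      have := fr_add_le (T j (ρ g v)) (conjBy (U j) g (T j v) - T j (ρ g v))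
      rwa [add_sub_cancel, fr_conjBy (hU j)] at this
  obtain ⟨e, he⟩ := exists_ulim_real V (fun j => en (dbl S₀ (U j)) (dbl S₀ (U j)) (x j))
    (2 * Real.sqrt (Fintype.card (S₀ ⊕ S₀))) (fun j => by
      rw [abs_of_nonneg (en_nonneg _ _ _)]
      have := en_le_fr (dbl_contr S₀ (hU j)) (dbl_contr S₀ (hU j)) (x j)
      rwa [hx, mul_one] at this)
  have he0 : 0 ≤ e := ge_of_tendsto' he (fun _ => en_nonneg _ _ _)
  have hs : ∀ s ∈ K, ‖ρ s (Finsupp.single 1 1) - Finsupp.single 1 1‖ ≤ e := by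
    intro s hs
    refine le_of_tendsto_of_tendsto' (hN _) (by simpa using he.add d1) (fun j => ?_)
    rw [map_sub, ρs, T1, T1, one_smul, one_smul, mul_one]
    have t1 := fr_triangle (conjBy (U j) s (x j)) (x j) (conjBy (U j) 1 (x j))
    have t2 := fr_le_en (dbl S₀ (U j)) (dbl S₀ (U j)) (x j) (Sum.inl ⟨s, hS hs⟩)
    rw [fr_dbl_comm S₀ (hU j)] at t2
    rw [fr_sub_comm (x j)] at t1
    exact t1.trans (add_le_add_left t2 _)
  have hall := kazhdan_semi hκ hK ρ ρ1 ρm ρn _ he0 hs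
  obtain ⟨σ', hσ'⟩ : ∃ σ', σ' = Real.sqrt (Fintype.card (S₀ ⊕ S₀)) := ⟨_, rfl⟩
  have hσ0 : 0 ≤ σ' := hσ' ▸ Real.sqrt_nonneg _
  obtain ⟨ι, _, c, γ, c0, c1, hc⟩ := exists_almost_invariant ρ ρm ρn (Finsupp.single 1 1)
    (show 0 < ε / (2 * (σ' + 1)) by positivity)
  have hζ : ‖∑ i, (c i : ℂ) • ρ (γ i) (Finsupp.single 1 1) - Finsupp.single 1 1‖ ≤ 2 / κ * e := by
    have e1 : ∑ i, (c i : ℂ) • ρ (γ i) (Finsupp.single 1 1) - Finsupp.single 1 1 =
        ∑ i, (c i : ℂ) • (ρ (γ i) (Finsupp.single 1 1) - Finsupp.single 1 1) := by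
      simp only [smul_sub]
      rw [sum_sub_distrib, ← sum_smul, ← Complex.ofReal_sum, c1]
      simp
    rw [e1]
    refine (norm_sum_le _ _).trans ?_
    calc _ ≤ ∑ i, c i * (2 / κ * e) := by
          apply sum_le_sum
          intro i _
          rw [norm_smul, Complex.norm_real, Real.norm_of_nonneg (c0 i)]
          exact mul_le_mul_of_nonneg_left (hall _) (c0 i)
      _ = _ := by rw [← sum_mul, c1, one_mul]
  have Tζ : ∀ j, T j (∑ i, (c i : ℂ) • ρ (γ i) (Finsupp.single 1 1)) =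
      ∑ i, (c i : ℂ) • conjBy (U j) (γ i) (x j) := fun j => by
    simp only [map_sum, map_smul, ρs, T1, mul_one, one_smul]
  generalize ∑ i, (c i : ℂ) • ρ (γ i) (Finsupp.single 1 1) = ζ at hc hζ Tζ
  have f1 : ∀ᶠ j in (V : Filter _), fr (T j (ζ - Finsupp.single 1 1)) +
      fr (conjBy (U j) 1 (x j) - x j) < 2 / κ * en (dbl S₀ (U j)) (dbl S₀ (U j)) (x j) + ε :=
    Tendsto.eventually_lt ((hN _).add d1) ((he.const_mul _).add_const _) (by linarith)
  have f2 : ∀ᶠ j in (V : Filter _), ∀ s : S₀ ⊕ S₀,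
      fr (conjBy (U j) (Sum.elim Subtype.val Subtype.val s) (T j ζ) -
        T j (ρ (Sum.elim Subtype.val Subtype.val s) ζ)) +
      fr (T j (ρ (Sum.elim Subtype.val Subtype.val s) ζ - ζ)) < ε / (σ' + 1) := by
    rw [eventually_all]
    intro s
    refine Tendsto.eventually_lt ((d2 _ _).add (hN _)) tendsto_const_nhds ?_
    rw [zero_add]
    refine (hc _).trans_lt ?_
    exact div_lt_div_of_pos_left hε (by positivity) (by linarith)
  obtain ⟨j, g1, g2⟩ := (f1.and f2).exists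
  have b := hbad j ι inferInstance c γ c0 c1 (by
    rw [← Tζ]
    rw [map_sub, T1, one_smul] at g1
    exact (fr_triangle _ _ _).trans g1.le)
  rw [← Tζ] at b
  have : en (dbl S₀ (U j)) (dbl S₀ (U j)) (T j ζ) ≤ l2 (fun _ : S₀ ⊕ S₀ => ε / (σ' + 1)) := by
    unfold en
    apply l2_mono (fun _ => fr_nonneg _)
    intro s
    rw [fr_dbl_comm S₀ (hU j)]
    have := g2 s
    rw [map_sub] at this
    exact (fr_triangle _ _ _).trans this.le
  rw [l2_const _ (by positivity), ← hσ'] at this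
  have h2 : σ' * (ε / (σ' + 1)) ≤ ε := by
    rw [← mul_div_assoc, div_le_iff₀ (by positivity)]
    linarith
  linarith

lemma exists_ctx {K : Finset G} {κ : ℝ} (hκ : 0 < κ) (hK : IsKazhdanPair K κ) {S₀ : Finset G}
    (hS : K ⊆ S₀) {L : ℝ} (hL1 : 1 ≤ L) (hL2 : 2 / κ ≤ L)
    (hL3 : Real.sqrt (Fintype.card (S₀ ⊕ S₀)) ≤ L) {ε : ℝ} (hε : 0 < ε) :
    ∃ (F : Finset (G × G)) (θ : ℝ), 0 < θ ∧ ∀ (d : ℕ) (U : G → Matrix (Fin d) (Fin d) ℂ),
      (∀ g, (U g)ᴴ * U g = 1) → ∑ p ∈ F, fr (U p.1 * U p.2 - U (p.1 * p.2)) ^ 2 ≤ θ * d →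
      ∃ W, Ctx L ε (Equiv.sumComm S₀ S₀) (dbl S₀ U) W ∧ tr W ≤ ε * d := by
  obtain ⟨F, θ, hθ, H⟩ := propT_norm hκ hK hS hε
  refine ⟨F, (θ / 2) ^ 2 * ε, by positivity, fun d U hU hd => ?_⟩
  obtain ⟨r, hr⟩ : ∃ r : G × G → Matrix (Fin d) (Fin d) ℂ,
    r = fun p => (U (p.1 * p.2))ᴴ * (U p.1 * U p.2) := ⟨_, rfl⟩
  have hU' : ∀ g, U g * (U g)ᴴ = 1 := fun g => mul_eq_one_comm.mp (hU g)
  have r1 : ∀ p, (r p)ᴴ * r p = 1 := fun p => by
    simp only [hr, conjTranspose_mul, conjTranspose_conjTranspose, Matrix.mul_assoc]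
    rw [← Matrix.mul_assoc (U (p.1 * p.2)), hU', Matrix.one_mul, iso_cancel (hU _), hU]
  have hD : (∑ p ∈ F, (r p - 1)ᴴ * (r p - 1)).PosSemidef :=
    posSemidef_sum _ (fun p _ => posSemidef_conjTranspose_mul_self _)
  have hW := isProj_high hD ((θ / 2) ^ 2)
  have key : ∀ y : Matrix (Fin d) (Fin d) ℂ, high hD ((θ / 2) ^ 2) * y = 0 → ∀ p ∈ F,
      fr ((r p - 1) * y) ≤ θ / 2 * fr y := by
    intro y hy p hp
    apply (pow_le_pow_iff_left₀ (fr_nonneg _) (mul_nonneg (by positivity) (fr_nonneg _))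
      two_ne_zero).mp
    refine (single_le_sum (f := fun p => fr ((r p - 1) * y) ^ 2) (fun _ _ => sq_nonneg _) hp).trans ?_
    have e1 : ∑ p ∈ F, fr ((r p - 1) * y) ^ 2 = tr (yᴴ * ((∑ p ∈ F, (r p - 1)ᴴ * (r p - 1)) * y)) := by
      rw [Matrix.sum_mul, Matrix.mul_sum, tr_sum]
      apply sum_congr rfl
      intro p _
      rw [fr_sq_eq_tr, conjTranspose_mul]
      simp only [Matrix.mul_assoc]
    have e2 : (∑ p ∈ F, (r p - 1)ᴴ * (r p - 1)) * y =
        fc hD.1 (fun t => t * (1 - ind ((θ / 2) ^ 2) t)) * y := by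
      rw [← fc_mul, ← fc_sub, fc_one, fc_id, Matrix.mul_assoc, Matrix.sub_mul]
      unfold high at hy
      rw [hy]
      simp
    rw [e1, e2]
    refine (tr_mul_le _ _).trans ?_
    have t1 := fr_mul_le_left (fc hD.1 (fun t => t * (1 - ind ((θ / 2) ^ 2) t))) y
    have t2 : ‖fc hD.1 (fun t => t * (1 - ind ((θ / 2) ^ 2) t))‖ ≤ (θ / 2) ^ 2 := by
      apply norm_fc_le _ (by positivity)
      intro i
      unfold ind
      split_ifs with h
      · simp only [sub_self, mul_zero, abs_zero]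
        positivity
      · rw [sub_zero, mul_one, abs_of_nonneg (hD.eigenvalues_nonneg i)]
        exact not_lt.mp h
    calc _ ≤ fr y * ((θ / 2) ^ 2 * fr y) := mul_le_mul_of_nonneg_left
          (t1.trans (mul_le_mul_of_nonneg_right t2 (fr_nonneg _))) (fr_nonneg _)
      _ = _ := by ring
  refine ⟨high hD ((θ / 2) ^ 2), ⟨dbl_adj _ _, dbl_contr _ hU, hW, hL1, hL3, hε.le, ?_⟩, ?_⟩
  · intro x h1 h2
    rcases eq_or_ne x 0 with rfl | hx
    · exact ⟨0, fun h => h, le_rfl, by simp [fr_zero, en_zero], by simp [fr_zero, en_zero]⟩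
    have hx0 := fr_pos hx
    obtain ⟨a, y, ha, hy, rfl⟩ : ∃ (a : ℝ) (y : Matrix (Fin d) (Fin d) ℂ), 0 < a ∧ fr y = 1 ∧
        x = (a : ℂ) • y := ⟨fr x, (((fr x)⁻¹ : ℝ) : ℂ) • x, hx0, by
      rw [fr_smul_real, abs_of_pos (inv_pos.mpr hx0)]
      exact inv_mul_cancel₀ hx0.ne', by
      rw [smul_smul, ← Complex.ofReal_mul, mul_inv_cancel₀ hx0.ne']
      simp⟩
    have ha' : (a : ℂ) ≠ 0 := by exact_mod_cast ha.ne'
    rw [Matrix.mul_smul, smul_eq_zero, or_iff_right ha'] at h1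
    rw [Matrix.smul_mul, smul_eq_zero, or_iff_right ha'] at h2
    obtain ⟨ι, _, c, γ, c0, c1, z1, z2⟩ := H d U hU y hy (fun p hp => by
      have e1 : conjBy U p.1 (conjBy U p.2 y) - conjBy U (p.1 * p.2) y =
          U (p.1 * p.2) * (((r p - 1) * y - y * (r p - 1)) * (U p.1 * U p.2)ᴴ) := by
        have t1 : U (p.1 * p.2) * r p = U p.1 * U p.2 := by
          rw [hr, ← Matrix.mul_assoc, hU', Matrix.one_mul]
        have t2 : r p * (U p.1 * U p.2)ᴴ = (U (p.1 * p.2))ᴴ := by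
          simp only [hr, conjTranspose_mul, Matrix.mul_assoc]
          rw [← Matrix.mul_assoc (U p.2), hU', Matrix.one_mul, hU', Matrix.mul_one]
        rw [show (r p - 1) * y - y * (r p - 1) = r p * y - y * r p by
          simp only [Matrix.sub_mul, Matrix.mul_sub, Matrix.one_mul, Matrix.mul_one]
          abel, Matrix.sub_mul, Matrix.mul_sub, Matrix.mul_assoc y, t2, Matrix.mul_assoc (r p),
          ← Matrix.mul_assoc (U (p.1 * p.2)) (r p), t1]
        simp only [conjBy, conjTranspose_mul, Matrix.mul_assoc]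
      have e2 : (U p.1 * U p.2)ᴴ * (U p.1 * U p.2) = 1 := by
        rw [conjTranspose_mul, Matrix.mul_assoc, iso_cancel (hU _), hU]
      rw [e1, fr_isometry_mul (hU _), fr_mul_coisometry _ (by simpa using e2)]
      have t1 := key y h1 p hp
      have t2 := key yᴴ (by simpa [hW.herm] using congrArg conjTranspose h2) p hp
      have t3 : fr (y * (r p - 1)) = fr ((r p - 1) * yᴴ) := by
        rw [← fr_conjTranspose, ← fr_isometry_mul (r1 p), ← fr_neg]
        congr 1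
        rw [conjTranspose_mul, conjTranspose_sub, conjTranspose_one, ← Matrix.mul_assoc,
          Matrix.mul_sub, mul_eq_one_comm.mp (r1 p), ← Matrix.neg_mul]
        simp
      rw [fr_conjTranspose, hy] at t2
      rw [hy] at t1
      have t4 := fr_sub_le ((r p - 1) * y) (y * (r p - 1))
      linarith)
    refine ⟨(a : ℂ) • ∑ i, (c i : ℂ) • conjBy U (γ i) y, fun h => ?_, ?_, ?_, ?_⟩
    · have hy' : yᴴ = y := by
        rw [conjTranspose_smul, RCLike.star_def, Complex.conj_ofReal] at h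
        exact smul_right_injective _ ha' h
      simp [conjTranspose_smul, conjTranspose_sum, conjBy, hy', Matrix.mul_assoc]
    · rw [norm_smul, norm_smul]
      apply mul_le_mul_of_nonneg_left _ (norm_nonneg _)
      refine (norm_sum_le _ _).trans ?_
      calc _ ≤ ∑ i, c i * ‖y‖ := by
            apply sum_le_sum
            intro i _
            rw [norm_smul, Complex.norm_real, Real.norm_of_nonneg (c0 i)]
            apply mul_le_mul_of_nonneg_left _ (c0 i)
            have n1 := isometry_norm_le (hU (γ i))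
            refine (l2_opNorm_mul _ _).trans ((mul_le_of_le_one_right (norm_nonneg _)
              (opNorm_conjTranspose_le_one n1)).trans ?_)
            exact (l2_opNorm_mul _ _).trans (mul_le_of_le_one_left (norm_nonneg _) n1)
        _ = _ := by rw [← sum_mul, c1, one_mul]
    · rw [← smul_sub, fr_smul_real, fr_smul_real, en_smul, hy, Complex.norm_real,
        Real.norm_of_nonneg ha.le, abs_of_pos ha]
      have t1 := mul_le_mul_of_nonneg_right hL2 (en_nonneg (dbl S₀ U) (dbl S₀ U) y)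
      have t2 := mul_le_mul_of_nonneg_left (z1.trans (add_le_add_left t1 _)) ha.le
      linarith
    · rw [fr_smul_real, en_smul, hy, Complex.norm_real, Real.norm_of_nonneg ha.le, abs_of_pos ha]
      have t2 := mul_le_mul_of_nonneg_left z2 ha.le
      linarith
  · have t1 : (θ / 2) ^ 2 * tr (high hD ((θ / 2) ^ 2)) ≤ tr (∑ p ∈ F, (r p - 1)ᴴ * (r p - 1)) := by
      rw [tr_eq_sum hD.1]
      unfold high
      rw [tr_fc, mul_sum]
      apply sum_le_sum
      intro i _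
      unfold ind
      split_ifs with h
      · simpa using h.le
      · simpa using hD.eigenvalues_nonneg i
    have t2 : tr (∑ p ∈ F, (r p - 1)ᴴ * (r p - 1)) =
        ∑ p ∈ F, fr (U p.1 * U p.2 - U (p.1 * p.2)) ^ 2 := by
      rw [tr_sum]
      apply sum_congr rfl
      intro p _
      rw [← fr_sq_eq_tr, ← fr_isometry_mul (hU (p.1 * p.2)), hr, Matrix.mul_sub, Matrix.mul_one,
        ← Matrix.mul_assoc, hU', Matrix.one_mul]
    apply le_of_mul_le_mul_left _ (show 0 < (θ / 2) ^ 2 by positivity)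
    linarith

end Limit

end Pool.Agent.Lib.MP_f81d8e_an
end

-- part Pool.Agent.Lib.MP_f81d8e_an.Blocks
section

set_option autoImplicit false
set_option linter.unusedSectionVars false

namespace Pool.Agent.Lib.MP_f81d8e_an

open Matrix Finset Filter Topology
open scoped Matrix.Norms.L2Operator ComplexOrder

attribute [local irreducible] fr tr en fc

section Blocks

variable {n : Type*} [Fintype n] [DecidableEq n] {S : Type*} [Fintype S]

/-- An expander block together with its corrector. -/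
def GoodBlock (L ν : ℝ) (u : S → Matrix n n ℂ) (W : Matrix n n ℂ) {k : ℕ}
    (V : Matrix n (Fin k) ℂ) (x : Matrix n n ℂ) : Prop :=
  Vᴴ * V = 1 ∧ en u (cmp u V) V ≤ ν * Real.sqrt k ∧ fr (W * V) ≤ ν * Real.sqrt k ∧
    Gap (4096 * L ^ 3) (cmp u V) ∧ ‖x‖ ≤ 1 ∧ fr (x * V - V) ≤ ν * Real.sqrt k ∧
    en u u x ≤ ν * Real.sqrt k

/-- A decomposition into expander blocks. -/
def HasBlocks (L ν : ℝ) (u : S → Matrix n n ℂ) (W : Matrix n n ℂ) : Prop :=
  ∃ (I : Finset ℕ) (k : I → ℕ) (V : ∀ i, Matrix n (Fin (k i)) ℂ) (x : I → Matrix n n ℂ),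
    (∀ i, GoodBlock L ν u W (V i) (x i)) ∧
    (∀ (l : Type) [Fintype l] [DecidableEq l] (y : Matrix l n ℂ),
      ∑ i, fr (y * x i) ^ 2 ≤ (1 + ν) * fr y ^ 2) ∧
    (1 - ν) * Fintype.card n ≤ ∑ i, (k i : ℝ) ∧ ∑ i, (k i : ℝ) ≤ (1 + ν) * Fintype.card n

variable {L ε : ℝ} {σ : Equiv.Perm S} {u : S → Matrix n n ℂ} {W : Matrix n n ℂ}

lemma norm_high_mul_rho {w : Matrix n n ℂ} (hw : w.PosSemidef) {s t : ℝ} (hs : 0 < s)
    (ht : 0 < t) : ‖high hw s * rho hw t‖ ≤ t / s := by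
  unfold high rho
  rw [fc_mul]
  apply norm_fc_le _ (by positivity)
  intro i
  have := hw.eigenvalues_nonneg i
  unfold ind
  split_ifs with h
  · rw [one_mul, abs_of_nonneg (by positivity)]
    exact div_le_div_of_nonneg_left ht.le hs (by linarith)
  · simp only [zero_mul, abs_zero]
    positivity

lemma Ctx.blocks_aux (C : Ctx L ε σ u W) (hWd : tr W ≤ ε * Fintype.card n)
    {κ t β δ μ₁ ν : ℝ} (hκ : 0 < κ) (ht : 0 < t) (hβ : 0 < β) (hδ : 0 < δ) (hμ₁ : 0 < μ₁)
    (hν : ν ≤ 1) (hβ1 : β ≤ 1 / 2) (htν : t ≤ ν)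
    (hεκ : ε ≤ κ) (k1 : 1024 * L ^ 4 * κ ≤ 1)
    (k2 : 2 / κ ^ 2 * (132 * L ^ 2 * ε) ≤ (κ ^ 3 / (24 * L)) ^ 2) (k3 : 100 * L * ε ≤ κ ^ 2)
    (k4 : 64 * L * (μ₁ + 2 * L * (2 * (t / κ ^ 2))) ≤ (κ ^ 3 / (200 * L)) ^ 2)
    (k5 : 8 * (δ + 2 * (t / κ ^ 2)) + 40 * L ^ 2 * κ + μ₁ ≤ ν / 50)
    (k6 : 2 * (179 * κ / β ^ 2 * Real.log (1 + 1 / t) + 2 * β) ≤ ν / 4 * δ ^ 2)
    (k7 : 26 / t * (132 * L ^ 2 * ε) ≤ ν / 4 * μ₁ ^ 2) : HasBlocks L ν u W := by
  classical
  have hL := C.one_le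
  have hL2 : 1 ≤ L ^ 2 := one_le_pow₀ hL
  have hκL : κ ≤ L ^ 2 * κ := le_mul_of_one_le_left hκ.le hL2
  have hτ : 0 < t / κ ^ 2 := by positivity
  obtain ⟨p, hp, N, r, h1, h2, h3, h4, h5⟩ := C.greedy hWd hκ hεκ k1 k2
  obtain ⟨d, hd⟩ : ∃ d : ℝ, d = Fintype.card n := ⟨_, rfl⟩
  have hd0 : 0 ≤ d := by rw [hd]; positivity
  unfold HasBlocks
  rw [← hd] at h2 h3 h4 h5 ⊢
  have hν0 : 0 < ν := ht.trans_le htν
  let I : Finset ℕ := (Ico 1 N).filter (fun i =>
    tr (p i * (1 - rho (ps_psd hp i) t)) ≤ (δ * r i) ^ 2 ∧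
      en u u (rho (ps_psd hp i) t * p i) ^ 2 ≤ (μ₁ * r i) ^ 2)
  have hb : ∀ i : I, ∃ (k : ℕ) (V : Matrix n (Fin k) ℂ),
      GoodBlock L ν u W V (rho (ps_psd hp i) t * p i) ∧
        ((1 - ν / 50) * r i) ^ 2 ≤ k ∧ (k : ℝ) ≤ ((1 + ν / 50) * r i) ^ 2 := by
    rintro ⟨i, hi⟩
    obtain ⟨hi, g1, g2⟩ := mem_filter.mp hi
    obtain ⟨a1, a2, a3, a4, a5⟩ := h1 i hi
    have x0 : ‖rho (ps_psd hp i) t * p i‖ ≤ 1 :=
      opNorm_mul_le_one (norm_rho_le _ ht) (hp i).norm_le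
    have x1 : fr (rho (ps_psd hp i) t * p i - p i) ≤ δ * r i :=
      (pow_le_pow_iff_left₀ (fr_nonneg _) (by positivity) two_ne_zero).mp
        ((fr_rho_sub_sq_le _ (hp i) ht).trans g1)
    have x3 : en u u (rho (ps_psd hp i) t * p i) ≤ μ₁ * r i :=
      (pow_le_pow_iff_left₀ (en_nonneg _ _ _) (by positivity) two_ne_zero).mp g2
    have x2 : fr (high (ps_psd hp i) (κ ^ 2) * (rho (ps_psd hp i) t * p i)) ≤
        2 * (t / κ ^ 2) * r i := by
      rw [← Matrix.mul_assoc]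
      refine (fr_mul_le_left _ _).trans ?_
      have t1 : fr (p i) ≤ 2 * r i := a4.trans (mul_le_mul_of_nonneg_right (by linarith) a1.le)
      refine (mul_le_mul (norm_high_mul_rho _ (by positivity) ht) t1 (fr_nonneg _) hτ.le).trans ?_
      exact le_of_eq (by ring)
    obtain ⟨k, V, v1, v2, v3, v4, v5⟩ := C.block (μ := κ ^ 3 / (200 * L)) hκ a1 (by positivity)
      (by
        have : L ^ 2 * κ ≤ L ^ 4 * κ :=
          mul_le_mul_of_nonneg_right (pow_le_pow_right₀ hL (by norm_num)) hκ.le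
        linarith) (le_of_eq (by field_simp)) k3 k4 (ζ := 32 * L ^ 2 * κ) (by linarith) hδ.le
      (by positivity) (isProj_high _ _) a2 (fun T b1 b2 b3 b4 => a3 T ⟨b1, b2, b3, b4⟩) (hp i) a4
      x0 x1 x2 x3
    have e : fr (V * Vᴴ) = Real.sqrt k := by
      rw [fr_isometry_mul v1, fr_conjTranspose, ← Matrix.mul_one V, fr_isometry_mul v1, fr_one,
        Fintype.card_fin]
    have s1 : Real.sqrt k ≤ (1 + ν / 50) * r i := by
      have t1 := fr_add_le (V * Vᴴ - p i) (p i)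
      rw [sub_add_cancel, e] at t1
      have t2 := mul_le_mul_of_nonneg_right (show 8 * (δ + 2 * (t / κ ^ 2)) + κ +
        (1 + 32 * L ^ 2 * κ) ≤ 1 + ν / 50 by linarith) a1.le
      linarith
    have s2 : (1 - ν / 50) * r i ≤ Real.sqrt k := by
      have t1 := fr_add_le (p i - V * Vᴴ) (V * Vᴴ)
      rw [sub_add_cancel, e, fr_sub_comm] at t1
      have t0 : (1 - κ) * r i ≤ fr (p i) := by
        apply (pow_le_pow_iff_left₀ (mul_nonneg (by linarith) a1.le) (fr_nonneg _) two_ne_zero).mp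
        rw [(hp i).fr_sq]
        have : (1 - κ) ^ 2 * r i ^ 2 ≤ (1 - κ) * r i ^ 2 :=
          mul_le_mul_of_nonneg_right (by nlinarith) (sq_nonneg _)
        rw [mul_pow]
        linarith
      have t2 := mul_le_mul_of_nonneg_right (show 8 * (δ + 2 * (t / κ ^ 2)) + κ +
        (1 - ν / 50) ≤ 1 - κ by linarith) a1.le
      linarith
    have s3 : r i ≤ 2 * Real.sqrt k := by
      have := mul_le_mul_of_nonneg_right (show 1 / 2 ≤ 1 - ν / 50 by linarith) a1.le
      linarith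
    have s4 : ∀ c : ℝ, 0 ≤ c → 2 * c ≤ ν → c * r i ≤ ν * Real.sqrt k := fun c hc h => by
      have t1 := mul_le_mul_of_nonneg_left s3 hc
      have t2 := mul_le_mul_of_nonneg_right h (Real.sqrt_nonneg k)
      linarith
    refine ⟨k, V, ⟨v1, v3.trans (s4 _ (by positivity) (by linarith)),
      v4.trans (mul_le_mul_of_nonneg_right (by linarith) (Real.sqrt_nonneg _)), v5, x0, ?_,
      x3.trans (s4 _ hμ₁.le (by linarith))⟩, ?_, ?_⟩
    · have e2 : rho (ps_psd hp i) t * p i * V - V =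
          (rho (ps_psd hp i) t * p i - V * Vᴴ) * V := by
        rw [Matrix.sub_mul, Matrix.mul_assoc V, v1, Matrix.mul_one]
      rw [e2]
      refine (fr_mul_le_right' _ (isometry_norm_le v1)).trans ?_
      have t1 := fr_triangle (rho (ps_psd hp i) t * p i) (p i) (V * Vᴴ)
      rw [fr_sub_comm (p i)] at t1
      have t2 := s4 (δ + (8 * (δ + 2 * (t / κ ^ 2)) + κ)) (by positivity) (by linarith)
      linarith
    · exact (Real.le_sqrt (mul_nonneg (by linarith) a1.le) (Nat.cast_nonneg _)).mp s2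
    · exact (Real.sqrt_le_iff.mp s1).2
  choose k V hV hk1 hk2 using hb
  have hsub : I ⊆ range N := fun i hi => mem_range.mpr (mem_Ico.mp (mem_filter.mp hi).1).2
  refine ⟨I, k, V, fun i => rho (ps_psd hp i) t * p i, hV, ?_, ?_, ?_⟩
  · intro l _ _ y
    rw [sum_coe_sort I (fun i => fr (y * (rho (ps_psd hp i) t * p i)) ^ 2)]
    refine (sum_le_sum_of_subset_of_nonneg hsub (fun _ _ _ => sq_nonneg _)).trans ?_
    exact (sum_fr_rho_le hp ht y N).trans (mul_le_mul_of_nonneg_right (by linarith) (sq_nonneg _))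
  · refine le_trans ?_ (sum_le_sum (fun i _ => hk1 i))
    simp only [mul_pow]
    rw [← mul_sum, sum_coe_sort I (fun i => r i ^ 2)]
    have t1 : ∑ i ∈ Ico 1 N, r i ^ 2 ≤ ∑ i ∈ I, r i ^ 2 + ∑ i ∈ Ico 1 N,
        (tr (p i * (1 - rho (ps_psd hp i) t)) / δ ^ 2 +
          en u u (rho (ps_psd hp i) t * p i) ^ 2 / μ₁ ^ 2) := by
      rw [sum_filter, ← sum_add_distrib]
      apply sum_le_sum
      intro i _
      have b1 : 0 ≤ tr (p i * (1 - rho (ps_psd hp i) t)) / δ ^ 2 :=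
        div_nonneg (tr_one_sub_rho_nonneg _ (hp i) ht) (sq_nonneg _)
      have b2 : 0 ≤ en u u (rho (ps_psd hp i) t * p i) ^ 2 / μ₁ ^ 2 := by positivity
      split_ifs with h
      · linarith
      · rcases not_and_or.mp h with h | h
        · have : r i ^ 2 ≤ tr (p i * (1 - rho (ps_psd hp i) t)) / δ ^ 2 := by
            rw [le_div_iff₀ (by positivity)]
            linarith [not_le.mp h]
          linarith
        · have : r i ^ 2 ≤ en u u (rho (ps_psd hp i) t * p i) ^ 2 / μ₁ ^ 2 := by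
            rw [le_div_iff₀ (by positivity)]
            linarith [not_le.mp h]
          linarith
    have hsub' : Ico 1 N ⊆ range N := fun i hi => mem_range.mpr (mem_Ico.mp hi).2
    have t2 : ∑ i ∈ Ico 1 N, tr (p i * (1 - rho (ps_psd hp i) t)) / δ ^ 2 ≤ ν / 4 * d := by
      rw [← sum_div, div_le_iff₀ (by positivity)]
      refine (sum_le_sum_of_subset_of_nonneg hsub'
        (fun i _ _ => tr_one_sub_rho_nonneg _ (hp i) ht)).trans ?_
      refine (h5 t β ht (by linarith) hβ hβ1).trans ?_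
      exact (mul_le_mul_of_nonneg_right k6 hd0).trans (le_of_eq (by ring))
    have t3 : ∑ i ∈ Ico 1 N, en u u (rho (ps_psd hp i) t * p i) ^ 2 / μ₁ ^ 2 ≤ ν / 4 * d := by
      rw [← sum_div, div_le_iff₀ (by positivity)]
      refine (sum_le_sum_of_subset_of_nonneg hsub' (fun i _ _ => sq_nonneg _)).trans ?_
      refine (sum_en_rho_le hp ht (by linarith) u N).trans ?_
      refine (mul_le_mul_of_nonneg_left h4 (by positivity)).trans ?_
      rw [← mul_assoc]
      exact (mul_le_mul_of_nonneg_right k7 hd0).trans (le_of_eq (by ring))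
    rw [sum_add_distrib] at t1
    have t4 : (1 - 6 * κ - ν / 2) * d ≤ ∑ i ∈ I, r i ^ 2 := by linarith
    refine le_trans ?_ (mul_le_mul_of_nonneg_left t4 (sq_nonneg _))
    rw [← mul_assoc]
    apply mul_le_mul_of_nonneg_right _ hd0
    have t5 : 1 - ν / 50 - ν / 2 ≤ 1 - 6 * κ - ν / 2 := by linarith
    refine le_trans ?_ (mul_le_mul_of_nonneg_left t5 (sq_nonneg _))
    nlinarith [mul_nonneg hν0.le (sub_nonneg.mpr hν), sq_nonneg ν]
  · refine (sum_le_sum (fun i _ => hk2 i)).trans ?_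
    simp only [mul_pow]
    rw [← mul_sum, sum_coe_sort I (fun i => r i ^ 2)]
    have t1 : ∑ i ∈ I, r i ^ 2 ≤ (1 + ν / 50) * d := by
      refine (sum_le_sum_of_subset_of_nonneg (filter_subset _ _) (fun _ _ _ => sq_nonneg _)).trans ?_
      exact h3.trans (mul_le_mul_of_nonneg_right (by linarith) hd0)
    refine (mul_le_mul_of_nonneg_left t1 (sq_nonneg _)).trans ?_
    rw [← mul_assoc]
    apply mul_le_mul_of_nonneg_right _ hd0
    nlinarith [mul_nonneg hν0.le (sub_nonneg.mpr hν), mul_nonneg (sq_nonneg ν) (sub_nonneg.mpr hν)]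

lemma ev_small (c : ℝ) {c' : ℝ} (h : 0 < c') : ∀ᶠ x in 𝓝[>] (0 : ℝ), c * x ≤ c' := by
  apply eventually_nhdsWithin_of_eventually_nhds
  have : Tendsto (fun x : ℝ => c * x) (𝓝 0) (𝓝 (c * 0)) := (continuous_const_mul c).tendsto 0
  rw [mul_zero] at this
  exact this.eventually (ge_mem_nhds h)

lemma log_one_add_le {s : ℝ} (hs : 0 < s) : Real.log (1 + 1 / s ^ 20) ≤ 20 / s := by
  have h1 : 1 + 1 / s ^ 20 ≤ (1 + 1 / s) ^ 20 := by
    have := pow_add_pow_le (x := (1 : ℝ)) (y := 1 / s) zero_le_one (by positivity)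
      (show 20 ≠ 0 by norm_num)
    simpa using this
  refine (Real.log_le_log (by positivity) h1).trans ?_
  rw [Real.log_pow]
  have := Real.log_le_sub_one_of_pos (show 0 < 1 + 1 / s by positivity)
  push_cast
  calc _ ≤ 20 * (1 / s) := by linarith
    _ = _ := by ring

theorem exists_blocks {L ν : ℝ} (hL : 1 ≤ L) (hν : 0 < ν) (hν1 : ν ≤ 1) :
    ∃ ε > 0, ε ≤ ν ∧ ∀ (n : Type) [Fintype n] [DecidableEq n] (σ : Equiv.Perm S)
      (u : S → Matrix n n ℂ) (W : Matrix n n ℂ), Ctx L ε σ u W → tr W ≤ ε * Fintype.card n →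
      HasBlocks L ν u W := by
  obtain ⟨δ, hδ⟩ : ∃ δ, δ = ν / 1000 := ⟨_, rfl⟩
  have hδ0 : 0 < δ := by rw [hδ]; positivity
  obtain ⟨β, hβ⟩ : ∃ β, β = δ ^ 2 * ν / 100 := ⟨_, rfl⟩
  have hβ0 : 0 < β := by rw [hβ]; positivity
  obtain ⟨s, ⟨⟨⟨s1, s2⟩, s3⟩, s4⟩, hs⟩ := ((((ev_small 1 one_pos).and
    (ev_small (20000000 * L ^ 4) one_pos)).and
    (ev_small (57 * L ^ 2) (show 0 < ν / 100 by positivity))).and
    (ev_small (7160 / β ^ 2) (show 0 < ν / 5 * δ ^ 2 by positivity))).and self_mem_nhdsWithin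
    |>.exists
  replace hs : 0 < s := hs
  rw [one_mul] at s1
  have hpow : ∀ k, k ≠ 0 → s ^ k ≤ s := fun k hk => pow_le_of_le_one hs.le s1 hk
  obtain ⟨ε, ⟨⟨⟨⟨e1, e2⟩, e3⟩, e4⟩, e5⟩, hε⟩ := (((((ev_small 1 hν).and
    (ev_small 1 (show 0 < s ^ 2 by positivity))).and
    (ev_small (2 / (s ^ 2) ^ 2 * (132 * L ^ 2))
      (show 0 < ((s ^ 2) ^ 3 / (24 * L)) ^ 2 by positivity))).and
    (ev_small (100 * L) (show 0 < (s ^ 2) ^ 2 by positivity))).and
    (ev_small (26 / s ^ 20 * (132 * L ^ 2)) (show 0 < ν / 4 * (s ^ 16) ^ 2 by positivity))).and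
    self_mem_nhdsWithin |>.exists
  rw [one_mul] at e1 e2
  refine ⟨ε, hε, e1, fun n _ _ σ u W C hW => ?_⟩
  have hL2 : 1 ≤ L ^ 2 := one_le_pow₀ hL
  have hsL : s ≤ L ^ 2 * s := le_mul_of_one_le_left hs.le hL2
  have hτ : s ^ 20 / (s ^ 2) ^ 2 = s ^ 16 := by field_simp
  refine C.blocks_aux hW (κ := s ^ 2) (t := s ^ 20) (β := β) (δ := δ) (μ₁ := s ^ 16)
    (by positivity) (by positivity) hβ0 hδ0 (by positivity) hν1 ?_ ?_ e2 ?_ ?_ e4 ?_ ?_ ?_ ?_
  · rw [hβ]
    have : δ ^ 2 ≤ 1 := pow_le_one₀ hδ0.le (by linarith)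
    nlinarith
  · linarith [hpow 20 (by norm_num)]
  · have := mul_le_mul_of_nonneg_left (hpow 2 (by norm_num)) (show 0 ≤ L ^ 4 by positivity)
    have h2 : 0 ≤ L ^ 4 * s := by positivity
    linarith
  · exact le_trans (le_of_eq (by ring)) e3
  · rw [hτ]
    have h1 : 64 * L * (s ^ 16 + 2 * L * (2 * s ^ 16)) ≤ 320 * L ^ 2 * s ^ 16 := by
      have : L * s ^ 16 ≤ L ^ 2 * s ^ 16 :=
        mul_le_mul_of_nonneg_right (by nlinarith) (by positivity)
      linarith
    refine h1.trans ?_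
    rw [div_pow, le_div_iff₀ (by positivity)]
    have h2 := mul_le_mul_of_nonneg_left (hpow 4 (by norm_num)) (show 0 ≤ L ^ 4 by positivity)
    have h3 : 12800000 * (L ^ 4 * s ^ 4) ≤ 1 := by
      have h2 : 0 ≤ L ^ 4 * s := by positivity
      linarith
    calc _ = 12800000 * (L ^ 4 * s ^ 4) * s ^ 12 := by ring
      _ ≤ 1 * s ^ 12 := mul_le_mul_of_nonneg_right h3 (by positivity)
      _ = _ := by ring
  · rw [hτ]
    have h1 := hpow 16 (by norm_num)
    have h2 := mul_le_mul_of_nonneg_left (hpow 2 (by norm_num)) (show 0 ≤ L ^ 2 by positivity)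
    linarith
  · have h1 := mul_le_mul_of_nonneg_left (log_one_add_le hs)
      (show 0 ≤ 179 * s ^ 2 / β ^ 2 by positivity)
    have h2 : 179 * s ^ 2 / β ^ 2 * (20 / s) = 1 / 2 * (7160 / β ^ 2 * s) := by
      field_simp
      ring
    have h3 : 0 ≤ ν * δ ^ 2 := by positivity
    linarith
  · exact le_trans (le_of_eq (by ring)) e5

end Blocks

end Pool.Agent.Lib.MP_f81d8e_an
end

-- part Pool.Agent.Lib.MP_f81d8e_an.Classes
section

set_option autoImplicit false
set_option linter.unusedSectionVars false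

namespace Pool.Agent.Lib.MP_f81d8e_an

open Matrix Finset
open scoped Matrix.Norms.L2Operator ComplexOrder

attribute [local irreducible] fr tr en fc

section Classes

variable {n : Type*} [Fintype n] [DecidableEq n] {S : Type*} [Fintype S]
variable {L ε ν : ℝ} {σ : Equiv.Perm S} {u : S → Matrix n n ℂ} {W : Matrix n n ℂ}

lemma Ctx.match_blocks (C : Ctx L ε σ u W) (hν : 0 ≤ ν) (hεν : ε ≤ ν)
    (hνL : 200 * (4096 * L ^ 3) * (8 * ν) ≤ 1) {k l : ℕ} {V : Matrix n (Fin k) ℂ}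
    {V' : Matrix n (Fin l) ℂ} {x x' : Matrix n n ℂ} (hV : GoodBlock L ν u W V x)
    (hV' : GoodBlock L ν u W V' x') {y : Matrix (Fin k) (Fin l) ℂ} (hy : y ≠ 0)
    (hen : en (cmp u V) (cmp u V') y ≤ 1 / (200 * (4096 * L ^ 3)) * fr y) :
    ∃ v : Matrix (Fin k) (Fin l) ℂ, ‖v‖ ≤ 1 ∧
      en (cmp u V) (cmp u V') v ≤ 64 * (4096 * L ^ 3) * ν * Real.sqrt k ∧
      fr (1 - v * vᴴ) ≤ 64 * (4096 * L ^ 3) * ν * Real.sqrt k ∧
      fr (1 - vᴴ * v) ≤ 64 * (4096 * L ^ 3) * ν * Real.sqrt k := by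
  obtain ⟨a1, a2, a3, a4, -⟩ := hV
  obtain ⟨b1, b2, b3, b4, -⟩ := hV'
  have hL := C.one_le
  have hL3 : 1 ≤ L ^ 3 := one_le_pow₀ hL
  have ca := cmp_adj C.adj V
  have cb := cmp_adj C.adj V'
  obtain ⟨v, v1, v2, v3, v4⟩ := flatten ca cb (by positivity) (by positivity)
    (le_of_eq (by field_simp)) a4 b4 hy hen
  have hr0 : 0 < Real.sqrt k := by
    rcases Nat.eq_zero_or_pos k with rfl | h
    · exact absurd (Subsingleton.elim _ _) hy
    · positivity
  rw [Fintype.card_fin] at v2 v3 v4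
  have e : 8 * (4096 * L ^ 3) * (1 / (200 * (4096 * L ^ 3))) = 1 / 25 := by
    field_simp
    norm_num
  rw [e] at v3 v4
  have hfv : fr v ≤ Real.sqrt k := by
    simpa using fr_le_of_norm_le_left v1
  have hfv' : 24 / 25 * Real.sqrt k ≤ fr v := by
    have t1 := fr_add_le (1 - v * vᴴ) (v * vᴴ)
    rw [sub_add_cancel, fr_one, Fintype.card_fin] at t1
    have t2 := fr_mul_le_right' v (opNorm_conjTranspose_le_one v1)
    linarith
  have hl : Real.sqrt l ≤ 2 * Real.sqrt k := by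
    have t1 := fr_add_le (1 - vᴴ * v) (vᴴ * v)
    rw [sub_add_cancel, fr_one, Fintype.card_fin] at t1
    have t2 := fr_mul_le_left' (opNorm_conjTranspose_le_one v1) v
    linarith
  have hl' := mul_le_mul_of_nonneg_left hl hν
  generalize Real.sqrt l = r' at *
  have nV := isometry_norm_le a1
  have nV' := isometry_norm_le b1
  have nV1 := opNorm_conjTranspose_le_one nV
  have nV1' := opNorm_conjTranspose_le_one nV'
  obtain ⟨z, -, z2, z3, z4⟩ := C.improve (y := V * v * V'ᴴ) (ν := 2 * ν)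
    (γ := 5 * (1 / (200 * (4096 * L ^ 3))) + 3 * ν) (r := Real.sqrt k)
    (opNorm_mul_le_one (opNorm_mul_le_one nV v1) nV1')
    (by
      rw [← Matrix.mul_assoc, ← Matrix.mul_assoc]
      have t1 := fr_mul_le_right' (W * V * v) nV1'
      have t2 := fr_mul_le_right' (W * V) v1
      have t3 := mul_nonneg hν hr0.le
      linarith)
    (by
      rw [Matrix.mul_assoc]
      have t1 := fr_mul_le_left' (opNorm_mul_le_one nV v1) (V'ᴴ * W)
      rw [← fr_conjTranspose (V'ᴴ * W), conjTranspose_mul, conjTranspose_conjTranspose,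
        C.projW.herm] at t1
      linarith)
    (by
      have t1 := en_mul_le' u (cmp u V') u (opNorm_mul_le_one nV v1) nV1'
      have t2 := en_mul_le' u (cmp u V) (cmp u V') nV v1
      rw [en_conjTranspose C.adj cb] at t1
      linarith)
    ((fr_mul_le_right' _ nV1').trans ((fr_mul_le_left' nV _).trans hfv))
  have c1 : L * (5 * (1 / (200 * (4096 * L ^ 3))) + 3 * ν) + 4 * L ^ 2 * (2 * ν) + 2 * (2 * ν) + ε
      ≤ 2 / 5 := by
    have t1 : L * (5 * (1 / (200 * (4096 * L ^ 3)))) ≤ 1 / 5 := by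
      rw [mul_one_div, ← mul_div_assoc, div_le_iff₀ (by positivity)]
      have : L ≤ L ^ 3 := le_self_pow₀ hL (by norm_num)
      linarith
    have t2 : L * ν ≤ L ^ 3 * ν := mul_le_mul_of_nonneg_right (le_self_pow₀ hL (by norm_num)) hν
    have t3 : L ^ 2 * ν ≤ L ^ 3 * ν :=
      mul_le_mul_of_nonneg_right (pow_le_pow_right₀ hL (by norm_num)) hν
    have t4 : ν ≤ L ^ 3 * ν := le_mul_of_one_le_left hν hL3
    linarith
  replace z3 := z3.trans (mul_le_mul_of_nonneg_right c1 hr0.le)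
  have w1 : fr (Vᴴ * z * V' - v) ≤ 2 / 5 * Real.sqrt k := by
    have : Vᴴ * z * V' - v = Vᴴ * (z - V * v * V'ᴴ) * V' := by
      rw [Matrix.mul_sub, Matrix.sub_mul, Matrix.mul_assoc V, iso_cancel a1, Matrix.mul_assoc v, b1,
        Matrix.mul_one]
    rw [this]
    exact (fr_mul_le_right' _ nV').trans ((fr_mul_le_left' nV1 _).trans z3)
  have w2 : Real.sqrt k ≤ 2 * fr (Vᴴ * z * V') := by
    have t1 := fr_add_le (v - Vᴴ * z * V') (Vᴴ * z * V')
    rw [sub_add_cancel, fr_sub_comm] at t1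
    linarith
  have w3 : en (cmp u V) (cmp u V') (Vᴴ * z * V') ≤ 8 * ν * fr (Vᴴ * z * V') := by
    have t1 := en_mul_le' (cmp u V) u (cmp u V') (opNorm_mul_le_one nV1 z2) nV'
    have t2 := en_mul_le' (cmp u V) u u nV1 z2
    rw [en_conjTranspose C.adj ca] at t2
    have t3 := mul_le_mul_of_nonneg_right hεν hr0.le
    have t4 := mul_le_mul_of_nonneg_left w2 hν
    linarith
  obtain ⟨v', p1, p2, p3, p4⟩ := flatten ca cb (by positivity) (by positivity) hνL a4 b4
    (x := Vᴴ * z * V') (by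
      intro h
      rw [h, fr_zero] at w2
      linarith) w3
  rw [Fintype.card_fin] at p2 p3 p4
  refine ⟨v', p1, p2.trans ?_, p3.trans (le_of_eq (by ring)), p4.trans (le_of_eq (by ring))⟩
  apply mul_le_mul_of_nonneg_right _ hr0.le
  have t4 : ν ≤ L ^ 3 * ν := le_mul_of_one_le_left hν hL3
  linarith

lemma Ctx.classes (C : Ctx L ε σ u W) (hν : 0 ≤ ν) (hεν : ε ≤ ν)
    (hνL : 200 * (4096 * L ^ 3) * (8 * ν) ≤ 1) {I : Type*} [Fintype I] {k : I → ℕ}
    {V : ∀ i, Matrix n (Fin (k i)) ℂ} {x : I → Matrix n n ℂ}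
    (hV : ∀ i, GoodBlock L ν u W (V i) (x i)) :
    ∃ (c : I → I) (v : ∀ i, Matrix (Fin (k i)) (Fin (k (c i))) ℂ),
      (∀ i, ‖v i‖ ≤ 1 ∧
        en (cmp u (V i)) (cmp u (V (c i))) (v i) ≤ 64 * (4096 * L ^ 3) * ν * Real.sqrt (k i) ∧
        fr (1 - v i * (v i)ᴴ) ≤ 64 * (4096 * L ^ 3) * ν * Real.sqrt (k i) ∧
        fr (1 - (v i)ᴴ * v i) ≤ 64 * (4096 * L ^ 3) * ν * Real.sqrt (k i)) ∧
      ∀ i j (y : Matrix (Fin (k (c i))) (Fin (k (c j))) ℂ),
        ∃ z : Matrix (Fin (k (c i))) (Fin (k (c j))) ℂ,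
        (∀ s, cmp u (V (c i)) s * z = z * cmp u (V (c j)) s) ∧
        fr (y - z) ≤ 200 * (4096 * L ^ 3) * en (cmp u (V (c i))) (cmp u (V (c j))) y := by
  classical
  have hL := C.one_le
  let R : I → I → Prop := fun i j => ∃ y : Matrix (Fin (k i)) (Fin (k j)) ℂ, y ≠ 0 ∧
    en (cmp u (V i)) (cmp u (V j)) y ≤ 1 / (200 * (4096 * L ^ 3)) * fr y
  have Rsymm : ∀ i j, R i j → R j i := by
    rintro i j ⟨y, h1, h2⟩
    refine ⟨yᴴ, by simpa using h1, ?_⟩
    rwa [en_conjTranspose (cmp_adj C.adj _) (cmp_adj C.adj _), fr_conjTranspose]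
  obtain ⟨D, hD, hmax⟩ := exists_max_nat {D : Finset I | ∀ p ∈ D, ∀ q ∈ D, p = q ∨ ¬ R p q}
    Finset.card (Fintype.card I) (fun D _ => card_le_univ D) ⟨∅, by simp⟩
  have h1 : ∀ i, ∃ j ∈ D, ∃ v : Matrix (Fin (k i)) (Fin (k j)) ℂ, ‖v‖ ≤ 1 ∧
      en (cmp u (V i)) (cmp u (V j)) v ≤ 64 * (4096 * L ^ 3) * ν * Real.sqrt (k i) ∧
      fr (1 - v * vᴴ) ≤ 64 * (4096 * L ^ 3) * ν * Real.sqrt (k i) ∧
      fr (1 - vᴴ * v) ≤ 64 * (4096 * L ^ 3) * ν * Real.sqrt (k i) := by
    intro i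
    by_cases hi : i ∈ D
    · refine ⟨i, hi, 1, norm_one_le, ?_, ?_, ?_⟩
      · rw [en_one]
        positivity
      · simp only [conjTranspose_one, mul_one, sub_self, fr_zero]
        positivity
      · simp only [conjTranspose_one, mul_one, sub_self, fr_zero]
        positivity
    · have : ∃ j ∈ D, R i j := by
        by_contra hne
        push Not at hne
        have := hmax (insert i D) (by
          intro p hp q hq
          rcases mem_insert.mp hp with hp' | hp' <;> rcases mem_insert.mp hq with hq' | hq'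
          · exact Or.inl (hp'.trans hq'.symm)
          · exact Or.inr (hp' ▸ hne q hq')
          · exact Or.inr (fun h => hne p hp' (hq' ▸ Rsymm _ _ h))
          · exact hD p hp' q hq')
        rw [card_insert_of_notMem hi] at this
        omega
      obtain ⟨j, hj, y, hy, hen⟩ := this
      exact ⟨j, hj, C.match_blocks hν hεν hνL (hV i) (hV j) hy hen⟩
  choose c hc v hv using h1
  refine ⟨c, v, hv, fun i j => ?_⟩
  have key : ∀ p q, (p = q ∨ ¬ R p q) → ∀ (y : Matrix (Fin (k p)) (Fin (k q)) ℂ),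
      ∃ z : Matrix (Fin (k p)) (Fin (k q)) ℂ,
      (∀ s, cmp u (V p) s * z = z * cmp u (V q) s) ∧
        fr (y - z) ≤ 200 * (4096 * L ^ 3) * en (cmp u (V p)) (cmp u (V q)) y := by
    rintro p q (rfl | h) y
    · obtain ⟨α, hα⟩ := (hV p).2.2.2.1 y
      refine ⟨α • 1, fun s => by simp, hα.trans ?_⟩
      apply mul_le_mul_of_nonneg_right _ (en_nonneg _ _ _)
      have : 0 ≤ L ^ 3 := by positivity
      linarith
    · refine ⟨0, fun s => by simp, ?_⟩
      rw [sub_zero]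
      rcases eq_or_ne y 0 with rfl | hy
      · rw [fr_zero, en_zero, mul_zero]
      · have : ¬ (en (cmp u (V p)) (cmp u (V q)) y ≤ 1 / (200 * (4096 * L ^ 3)) * fr y) :=
          fun h' => h ⟨y, hy, h'⟩
        rw [not_le, one_div, inv_mul_lt_iff₀ (by positivity)] at this
        exact this.le
  exact key _ _ (hD _ (hc i) _ (hc j))

end Classes

end Pool.Agent.Lib.MP_f81d8e_an
end
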