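import Mathlib
import Pool.Agent.Lib.MP_f81d8e_an.Classes

-- part Pool.Agent.Lib.MP_f81d8e_an.Assemble
section

set_option autoImplicit false
set_option linter.unusedSectionVars false

namespace Pool.Agent.Lib.MP_f81d8e_an

open Matrix Finset
open scoped Matrix.Norms.L2Operator ComplexOrder

attribute [local irreducible] fr tr en fc

section Orth

variable {N l : Type*} [Fintype N] [DecidableEq N] [Fintype l] [DecidableEq l]
  {I : Type*} [Fintype I] [DecidableEq I] {k : I → ℕ} {S : Type*} [Fintype S]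

/-- A family of isometries with orthogonal ranges. -/
structure Orth (E : ∀ i, Matrix N (Fin (k i)) ℂ) : Prop where
  iso : ∀ i, (E i)ᴴ * E i = 1
  ne : ∀ i j, i ≠ j → (E i)ᴴ * E j = 0

variable {E : ∀ i, Matrix N (Fin (k i)) ℂ}

lemma Orth.sum_mul (hE : Orth E) (y : ∀ i, Matrix l (Fin (k i)) ℂ) (j : I) :
    (∑ i, y i * (E i)ᴴ) * E j = y j := by
  rw [Matrix.sum_mul, sum_eq_single j]
  · rw [Matrix.mul_assoc, hE.iso, Matrix.mul_one]
  · intro i _ hi
    rw [Matrix.mul_assoc, hE.ne i j hi, Matrix.mul_zero]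
  · simp

lemma Orth.mul_sum (hE : Orth E) (y : ∀ i, Matrix (Fin (k i)) l ℂ) (j : I) :
    (E j)ᴴ * (∑ i, E i * y i) = y j := by
  rw [Matrix.mul_sum, sum_eq_single j]
  · rw [iso_cancel (hE.iso j)]
  · intro i _ hi
    rw [← Matrix.mul_assoc, hE.ne j i hi.symm, Matrix.zero_mul]
  · simp

lemma Orth.fr_sum (hE : Orth E) (y : ∀ i, Matrix l (Fin (k i)) ℂ) :
    fr (∑ i, y i * (E i)ᴴ) ^ 2 = ∑ i, fr (y i) ^ 2 := by
  rw [fr_sq_eq_tr', conjTranspose_sum, Matrix.mul_sum, tr_sum]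
  apply sum_congr rfl
  intro j _
  rw [conjTranspose_mul, conjTranspose_conjTranspose, ← Matrix.mul_assoc, hE.sum_mul,
    fr_sq_eq_tr']

lemma Orth.fr_sum' (hE : Orth E) (y : ∀ i, Matrix (Fin (k i)) l ℂ) :
    fr (∑ i, E i * y i) ^ 2 = ∑ i, fr (y i) ^ 2 := by
  rw [← fr_conjTranspose, conjTranspose_sum]
  simp only [conjTranspose_mul]
  rw [hE.fr_sum]
  simp only [fr_conjTranspose]

lemma Orth.isProj (hE : Orth E) : IsProj (∑ i, E i * (E i)ᴴ) := by
  constructor
  · simp [conjTranspose_sum]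
  · conv_lhs => rw [Matrix.mul_sum]
    apply sum_congr rfl
    intro j _
    rw [← Matrix.mul_assoc, hE.sum_mul]

lemma Orth.tr_proj (hE : Orth E) : tr (∑ i, E i * (E i)ᴴ) = ∑ i, (k i : ℝ) := by
  rw [tr_sum]
  apply sum_congr rfl
  intro i _
  rw [tr_mul_comm, hE.iso, tr_one, Fintype.card_fin]

lemma Orth.sum_fr_le (hE : Orth E) (M : Matrix l N ℂ) : ∑ i, fr (M * E i) ^ 2 ≤ fr M ^ 2 := by
  rw [← hE.fr_sum]
  simp only [Matrix.mul_assoc]
  rw [← Matrix.mul_sum]
  exact pow_le_pow_left₀ (fr_nonneg _) (fr_mul_le_right' _ hE.isProj.norm_le) 2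

lemma Orth.sum_fr_le' (hE : Orth E) (M : Matrix N l ℂ) : ∑ i, fr ((E i)ᴴ * M) ^ 2 ≤ fr M ^ 2 := by
  have := hE.sum_fr_le Mᴴ
  rw [fr_conjTranspose] at this
  refine le_trans (le_of_eq ?_) this
  apply sum_congr rfl
  intro i _
  rw [← fr_conjTranspose]
  simp

lemma Orth.unitary_mul (hE : Orth E) {U : Matrix N N ℂ} (hU : Uᴴ * U = 1) :
    Orth (fun i => U * E i) := by
  constructor
  · intro i
    rw [conjTranspose_mul, Matrix.mul_assoc, iso_cancel hU, hE.iso]
  · intro i j h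
    rw [conjTranspose_mul, Matrix.mul_assoc, iso_cancel hU, hE.ne i j h]

lemma Orth.commutant_gap (hE : Orth E) {b : ∀ i, S → Matrix (Fin (k i)) (Fin (k i)) ℂ} {K : ℝ}
    (hK : 0 ≤ K) (hgap : ∀ i j (x : Matrix (Fin (k i)) (Fin (k j)) ℂ),
      ∃ z : Matrix (Fin (k i)) (Fin (k j)) ℂ, (∀ s, b i s * z = z * b j s) ∧
        fr (x - z) ≤ K * en (b i) (b j) x) {B : S → Matrix N N ℂ}
    (hB : ∀ s, B s = ∑ i, E i * b i s * (E i)ᴴ) (x : Matrix N N ℂ) :
    ∃ a : Matrix N N ℂ, (∀ s, B s * a = a * B s) ∧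
      fr (x - a) ≤ K * en B B x + 2 * ‖x‖ * fr (1 - ∑ i, E i * (E i)ᴴ) := by
  have h1 : ∀ s j, B s * E j = E j * b j s := fun s j => by rw [hB, hE.sum_mul]
  have h2 : ∀ s j, (E j)ᴴ * B s = b j s * (E j)ᴴ := fun s j => by
    rw [hB]
    simp only [Matrix.mul_assoc]
    rw [hE.mul_sum]
  choose z hz1 hz2 using fun i j => hgap i j ((E i)ᴴ * x * E j)
  refine ⟨∑ i, E i * ∑ j, z i j * (E j)ᴴ, fun s => ?_, ?_⟩
  · rw [Matrix.mul_sum, Matrix.sum_mul]
    apply sum_congr rfl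
    intro i _
    rw [← Matrix.mul_assoc, h1, Matrix.mul_assoc, Matrix.mul_assoc, Matrix.mul_sum,
      Matrix.sum_mul]
    congr 1
    apply sum_congr rfl
    intro j _
    rw [← Matrix.mul_assoc, hz1, Matrix.mul_assoc, Matrix.mul_assoc, h2]
  · have hP := hE.isProj
    have e1 : (∑ i, E i * (E i)ᴴ) * x * (∑ i, E i * (E i)ᴴ) - ∑ i, E i * ∑ j, z i j * (E j)ᴴ =
        ∑ i, E i * ∑ j, ((E i)ᴴ * x * E j - z i j) * (E j)ᴴ := by
      rw [Matrix.sum_mul, Matrix.sum_mul, ← sum_sub_distrib]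
      apply sum_congr rfl
      intro i _
      rw [Matrix.mul_assoc, Matrix.mul_assoc, ← Matrix.mul_sub, ← Matrix.mul_assoc, Matrix.mul_sum,
        ← sum_sub_distrib]
      congr 1
      apply sum_congr rfl
      intro j _
      simp only [Matrix.sub_mul, Matrix.mul_assoc]
    have e2 : fr ((∑ i, E i * (E i)ᴴ) * x * (∑ i, E i * (E i)ᴴ) -
        ∑ i, E i * ∑ j, z i j * (E j)ᴴ) ≤ K * en B B x := by
      apply (pow_le_pow_iff_left₀ (fr_nonneg _) (mul_nonneg hK (en_nonneg _ _ _)) two_ne_zero).mp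
      rw [e1, hE.fr_sum']
      simp only [hE.fr_sum]
      calc _ ≤ ∑ i, ∑ j, K ^ 2 * ∑ s, fr ((E i)ᴴ * (B s * x - x * B s) * E j) ^ 2 := by
            refine sum_le_sum (fun i _ => sum_le_sum (fun j _ => ?_))
            refine (pow_le_pow_left₀ (fr_nonneg _) (hz2 i j) 2).trans (le_of_eq ?_)
            rw [mul_pow, en_sq]
            congr 1
            apply sum_congr rfl
            intro s _
            congr 2
            rw [Matrix.mul_sub, Matrix.sub_mul, ← Matrix.mul_assoc (E i)ᴴ (B s), h2,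
              Matrix.mul_assoc (E i)ᴴ (x * B s), Matrix.mul_assoc x (B s), h1]
            simp only [Matrix.mul_assoc]
        _ = K ^ 2 * ∑ s, ∑ i, ∑ j, fr ((E i)ᴴ * (B s * x - x * B s) * E j) ^ 2 := by
            simp only [← Finset.mul_sum]
            congr 1
            rw [sum_comm (s := (univ : Finset S))]
            apply sum_congr rfl
            intro i _
            rw [sum_comm]
        _ ≤ (K * en B B x) ^ 2 := by
            rw [mul_pow, en_sq]
            apply mul_le_mul_of_nonneg_left _ (sq_nonneg _)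
            apply sum_le_sum
            intro s _
            exact (sum_le_sum (fun i _ => hE.sum_fr_le _)).trans (hE.sum_fr_le' _)
    generalize ∑ i, E i * (E i)ᴴ = P at hP e2 ⊢
    have e3 : fr (x - P * x * P) ≤ 2 * ‖x‖ * fr (1 - P) := by
      have : x - P * x * P = (1 - P) * x + P * (x * (1 - P)) := by
        simp only [Matrix.sub_mul, Matrix.mul_sub, Matrix.one_mul, Matrix.mul_one, Matrix.mul_assoc]
        abel
      rw [this]
      have t1 := fr_add_le ((1 - P) * x) (P * (x * (1 - P)))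
      have t2 := fr_mul_le_right (1 - P) x
      have t3 := fr_mul_le_left' hP.norm_le (x * (1 - P))
      have t4 := fr_mul_le_left x (1 - P)
      linarith
    have := fr_triangle x (P * x * P) (∑ i, E i * ∑ j, z i j * (E j)ᴴ)
    linarith

end Orth

section Assemble

variable {S : Type*} [Fintype S]

/-- The conclusion of the finite-dimensional structure theorem. -/
def Structured (K η : ℝ) (σ : Equiv.Perm S) {d : ℕ} (u : S → Matrix (Fin d) (Fin d) ℂ) {m : ℕ}
    (h : d ≤ m) (b : S → Matrix (Fin m) (Fin m) ℂ) : Prop :=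
  (m : ℝ) ≤ (1 + η) * d ∧ AdjClosed σ b ∧
    (∀ s, fr (emb (Fin.castLE h) * u s * (emb (Fin.castLE h))ᴴ - b s) ^ 2 ≤ 26 * η * d) ∧
    ∀ x : Matrix (Fin m) (Fin m) ℂ, ∃ a : Matrix (Fin m) (Fin m) ℂ, (∀ s, b s * a = a * b s) ∧
      fr (x - a) ≤ K * en b b x + 2 * ‖x‖ * Real.sqrt (η * d)

lemma assemble {σ : Equiv.Perm S} {d : ℕ} {u : S → Matrix (Fin d) (Fin d) ℂ}
    (hu : ∀ s, ‖u s‖ ≤ 1) {I : Type} [Fintype I] [DecidableEq I] {k : I → ℕ}
    {b : ∀ i, S → Matrix (Fin (k i)) (Fin (k i)) ℂ} (hb : ∀ i s, ‖b i s‖ ≤ 1)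
    (hσ : ∀ i, AdjClosed σ (b i)) {y : ∀ i, Matrix (Fin d) (Fin (k i)) ℂ} {K η : ℝ} (hK : 0 ≤ K)
    (hη : 0 ≤ η) (hη1 : η ≤ 1)
    (hgap : ∀ i j (x : Matrix (Fin (k i)) (Fin (k j)) ℂ),
      ∃ z : Matrix (Fin (k i)) (Fin (k j)) ℂ, (∀ s, b i s * z = z * b j s) ∧
        fr (x - z) ≤ K * en (b i) (b j) x)
    (hcon : ∀ (l : Type) [Fintype l] [DecidableEq l] (w : Matrix l (Fin d) ℂ),
      ∑ i, fr (w * y i) ^ 2 ≤ (1 + η) * fr w ^ 2)
    (hen : ∑ i, en u (b i) (y i) ^ 2 ≤ η * d) (hfr : (1 - η) * d ≤ ∑ i, fr (y i) ^ 2)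
    (hk : ∑ i, (k i : ℝ) ≤ (1 + η) * d) (hk' : (1 - η) * d ≤ ∑ i, (k i : ℝ)) :
    ∃ (m : ℕ) (h : d ≤ m) (B : S → Matrix (Fin m) (Fin m) ℂ), Structured K η σ u h B := by
  obtain ⟨m, hm⟩ : ∃ m, m = max d (∑ i, k i) := ⟨_, rfl⟩
  have h : d ≤ m := hm ▸ le_max_left _ _
  have hd0 : (0 : ℝ) ≤ η * d := by positivity
  have hmd : (m : ℝ) ≤ (1 + η) * d := by
    rw [hm]
    push_cast
    exact max_le (by linarith) hk
  have hmk : (m : ℝ) - ∑ i, (k i : ℝ) ≤ η * d := by
    rw [hm]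
    push_cast
    rw [sub_le_iff_le_add]
    exact max_le (by linarith) (by linarith)
  obtain ⟨e⟩ : Nonempty ((Σ i, Fin (k i)) ↪ Fin m) := by
    apply Function.Embedding.nonempty_of_card_le
    simp [hm]
  obtain ⟨E, hE⟩ : ∃ E : ∀ i, Matrix (Fin m) (Fin (k i)) ℂ, Orth E := by
    refine ⟨fun i => emb (fun a => e ⟨i, a⟩), fun i => emb_iso ?_, fun i j hij => ?_⟩
    · exact e.injective.comp sigma_mk_injective
    · rw [emb_conj_mul_emb]
      ext a c
      simp [hij]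
  have hJ : (emb (Fin.castLE h))ᴴ * emb (Fin.castLE h) = 1 := emb_iso (Fin.castLE_injective h)
  unfold Structured
  refine ⟨m, h, ?_⟩
  generalize emb (Fin.castLE h) = J at hJ ⊢
  have nJ := isometry_norm_le hJ
  obtain ⟨Y, hY⟩ : ∃ Y, Y = ∑ i, J * y i * (E i)ᴴ := ⟨_, rfl⟩
  have Y1 : fr Y ^ 2 = ∑ i, fr (y i) ^ 2 := by
    rw [hY, hE.fr_sum]
    simp only [fr_isometry_mul hJ]
  have Y2 : fr (Yᴴ * Y) ^ 2 ≤ (1 + η) * fr Y ^ 2 := by
    have : Yᴴ * Y = ∑ i, Yᴴ * J * y i * (E i)ᴴ := by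
      conv_lhs => rw [show Yᴴ * Y = Yᴴ * ∑ i, J * y i * (E i)ᴴ by rw [← hY]]
      simp only [Matrix.mul_sum, Matrix.mul_assoc]
    rw [this, hE.fr_sum]
    refine (hcon _ _).trans (mul_le_mul_of_nonneg_left ?_ (by linarith))
    rw [← fr_conjTranspose Y]
    exact pow_le_pow_left₀ (fr_nonneg _) (fr_mul_le_right' _ nJ) 2
  obtain ⟨U, hU, hU', hUY⟩ := exists_unitary_near Y
  have Y3 : fr (U - Y) ^ 2 ≤ 3 * (η * d) := by
    refine (pow_le_pow_left₀ (fr_nonneg _) hUY 2).trans ?_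
    rw [fr_sub_sq, isProj_one.fr_sq, tr_one, Fintype.card_fin, Matrix.mul_one, tr_conjTranspose,
      ← fr_sq_eq_tr]
    rw [← Y1] at hfr
    have := mul_le_mul_of_nonneg_left hfr (sub_nonneg.mpr hη1)
    have h2 : 0 ≤ η * (η * d) := by positivity
    linarith
  have hF := hE.unitary_mul hU
  refine ⟨fun s => ∑ i, U * E i * b i s * (U * E i)ᴴ, hmd, ?_, ?_, ?_⟩
  · intro s
    simp [conjTranspose_sum, hσ _ s, Matrix.mul_assoc]
  · intro s
    obtain ⟨B, hB⟩ : ∃ B, B = ∑ i, E i * b i s * (E i)ᴴ := ⟨_, rfl⟩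
    have e1 : J * u s * Jᴴ - ∑ i, U * E i * b i s * (U * E i)ᴴ =
        (J * u s * Jᴴ * (U - Y) + (J * u s * Jᴴ * Y - Y * B) - (U - Y) * B) * Uᴴ := by
      have : ∑ i, U * E i * b i s * (U * E i)ᴴ = U * B * Uᴴ := by
        simp only [hB, Matrix.mul_sum, Matrix.sum_mul, conjTranspose_mul, Matrix.mul_assoc]
      rw [this]
      simp only [Matrix.mul_sub, Matrix.sub_mul, Matrix.add_mul, Matrix.mul_assoc, hU',
        Matrix.mul_one]
      abel
    have e2 : fr (J * u s * Jᴴ * Y - Y * B) ^ 2 ≤ η * d := by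
      have : J * u s * Jᴴ * Y - Y * B = ∑ i, J * (u s * y i - y i * b i s) * (E i)ᴴ := by
        have t1 : Y * B = ∑ i, J * (y i * b i s) * (E i)ᴴ := by
          rw [hB, Matrix.mul_sum]
          apply sum_congr rfl
          intro i _
          rw [← Matrix.mul_assoc, ← Matrix.mul_assoc, hY, hE.sum_mul, Matrix.mul_assoc J]
        rw [t1, hY, Matrix.mul_sum, ← sum_sub_distrib]
        apply sum_congr rfl
        intro i _
        simp only [Matrix.mul_sub, Matrix.sub_mul, Matrix.mul_assoc, iso_cancel hJ]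
      rw [this, hE.fr_sum]
      simp only [fr_isometry_mul hJ]
      exact (sum_le_sum (fun i _ => pow_le_pow_left₀ (fr_nonneg _) (fr_le_en _ _ _ s) 2)).trans hen
    have e3 : fr ((U - Y) * B) ^ 2 ≤ fr (U - Y) ^ 2 := by
      rw [hB, Matrix.mul_sum]
      simp only [← Matrix.mul_assoc]
      rw [hE.fr_sum]
      exact (sum_le_sum (fun i _ => pow_le_pow_left₀ (fr_nonneg _)
        (fr_mul_le_right' _ (hb i s)) 2)).trans (hE.sum_fr_le _)
    have e4 : fr (J * u s * Jᴴ * (U - Y)) ≤ fr (U - Y) := fr_mul_le_left'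
      (opNorm_mul_le_one (opNorm_mul_le_one nJ (hu s)) (opNorm_conjTranspose_le_one nJ)) _
    have e5 := (pow_le_pow_iff_left₀ (fr_nonneg _) (fr_nonneg _) two_ne_zero).mp e3
    rw [e1, fr_mul_coisometry _ (by simpa using hU)]
    have t1 := fr_sub_le (J * u s * Jᴴ * (U - Y) + (J * u s * Jᴴ * Y - Y * B)) ((U - Y) * B)
    have t2 := fr_add_le (J * u s * Jᴴ * (U - Y)) (J * u s * Jᴴ * Y - Y * B)
    have t3 := pow_le_pow_left₀ (fr_nonneg _) (show fr (J * u s * Jᴴ * (U - Y) +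
      (J * u s * Jᴴ * Y - Y * B) - (U - Y) * B) ≤ 2 * fr (U - Y) +
        fr (J * u s * Jᴴ * Y - Y * B) by linarith) 2
    nlinarith [sq_nonneg (2 * fr (U - Y) - fr (J * u s * Jᴴ * Y - Y * B))]
  · intro x
    obtain ⟨a, a1, a2⟩ := hF.commutant_gap hK hgap (fun s => rfl) x
    refine ⟨a, a1, a2.trans (add_le_add_right ?_ _)⟩
    apply mul_le_mul_of_nonneg_left _ (by positivity)
    rw [hF.isProj.one_sub.fr_eq, tr_sub, tr_one, hF.tr_proj, Fintype.card_fin]
    exact Real.sqrt_le_sqrt hmk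

/-- The finite-dimensional structure theorem. -/
theorem exists_structured {L η : ℝ} (hL : 1 ≤ L) (hη : 0 < η) (hη1 : η ≤ 1) :
    ∃ ε > 0, ∀ (d : ℕ) (σ : Equiv.Perm S) (u : S → Matrix (Fin d) (Fin d) ℂ)
      (W : Matrix (Fin d) (Fin d) ℂ), Ctx L ε σ u W → tr W ≤ ε * d →
      ∃ (m : ℕ) (h : d ≤ m) (B : S → Matrix (Fin m) (Fin m) ℂ),
        Structured (200 * (4096 * L ^ 3)) η σ u h B := by
  classical
  have hL3 : 1 ≤ L ^ 3 := one_le_pow₀ hL
  obtain ⟨ν, hν⟩ : ∃ ν, ν = η / (1600 * (4096 * L ^ 3)) := ⟨_, rfl⟩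
  have hν0 : 0 < ν := by rw [hν]; positivity
  obtain ⟨ν', hν'⟩ : ∃ ν', ν' = 64 * (4096 * L ^ 3) * ν := ⟨_, rfl⟩
  have hν'η : ν' = η / 25 := by
    rw [hν', hν]
    field_simp
    norm_num
  have hνν' : ν ≤ ν' := by
    rw [hν']
    exact le_mul_of_one_le_left hν0.le (by linarith)
  obtain ⟨ε, hε, hεν, H⟩ := exists_blocks (S := S) hL hν0 (by linarith)
  refine ⟨ε, hε, fun d σ u W C hW => ?_⟩
  obtain ⟨I, k, V, x, hV, hcon, hk1, hk2⟩ := H (Fin d) σ u W C (by simpa using hW)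
  rw [Fintype.card_fin] at hk1 hk2
  obtain ⟨c, v, hv, hgap⟩ := C.classes hν0.le hεν (by linarith) hV
  rw [← hν'] at hv
  have hd0 : (0 : ℝ) ≤ d := Nat.cast_nonneg _
  have hν'0 : 0 < ν' := by linarith
  have hν'1 : ν' ≤ 1 / 25 := by linarith
  have fv : ∀ i, (1 - ν') * Real.sqrt (k i) ≤ fr (v i) := fun i => by
    obtain ⟨v1, -, v3, -⟩ := hv i
    have t1 := fr_add_le (1 - v i * (v i)ᴴ) (v i * (v i)ᴴ)
    rw [sub_add_cancel, fr_one, Fintype.card_fin] at t1
    have t2 := fr_mul_le_right' (v i) (opNorm_conjTranspose_le_one v1)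
    linarith
  have up : ∀ (c : ℝ) (f : I → ℝ), (∀ i, 0 ≤ f i) → (∀ i, f i ≤ c * Real.sqrt (k i)) →
      ∑ i, f i ^ 2 ≤ c ^ 2 * ((1 + ν') * d) := fun c f h0 h => by
    refine (sum_le_sum (fun i _ => pow_le_pow_left₀ (h0 i) (h i) 2)).trans ?_
    simp only [mul_pow, Real.sq_sqrt (Nat.cast_nonneg _)]
    rw [← mul_sum]
    exact mul_le_mul_of_nonneg_left (hk2.trans (mul_le_mul_of_nonneg_right (by linarith) hd0))
      (sq_nonneg _)
  have down : ∀ (c : ℝ) (f : I → ℝ), 0 ≤ c → (∀ i, c * Real.sqrt (k i) ≤ f i) →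
      c ^ 2 * ((1 - ν') * d) ≤ ∑ i, f i ^ 2 := fun c f h0 h => by
    refine le_trans ?_ (sum_le_sum (fun i _ => pow_le_pow_left₀ (by positivity) (h i) 2))
    simp only [mul_pow, Real.sq_sqrt (Nat.cast_nonneg _)]
    rw [← mul_sum]
    exact mul_le_mul_of_nonneg_left ((mul_le_mul_of_nonneg_right (by linarith) hd0).trans hk1)
      (sq_nonneg _)
  have sq : ∑ i, (k (c i) : ℝ) = ∑ i, Real.sqrt (k (c i)) ^ 2 := by
    simp only [Real.sq_sqrt (Nat.cast_nonneg _)]
  refine assemble C.contr (k := fun i => k (c i)) (b := fun i => cmp u (V (c i)))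
    (fun i => cmp_contr C.contr (hV _).1) (fun i => cmp_adj C.adj _)
    (y := fun i => x i * V i * v i) (by positivity) hη.le hη1 hgap ?_ ?_ ?_ ?_ ?_
  · intro l _ _ w
    refine le_trans ?_ ((hcon l w).trans (mul_le_mul_of_nonneg_right (by linarith) (sq_nonneg _)))
    apply sum_le_sum
    intro i _
    apply pow_le_pow_left₀ (fr_nonneg _)
    rw [← Matrix.mul_assoc, ← Matrix.mul_assoc]
    exact (fr_mul_le_right' _ (hv i).1).trans (fr_mul_le_right' _ (isometry_norm_le (hV i).1))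
  · refine (up (3 * ν') _ (fun i => en_nonneg _ _ _) (fun i => ?_)).trans ?_
    · obtain ⟨a1, a2, -, -, a5, -, a7⟩ := hV i
      have t1 := en_mul_le' u (cmp u (V i)) (cmp u (V (c i)))
        (opNorm_mul_le_one a5 (isometry_norm_le a1)) (hv i).1
      have t2 := en_mul_le' u u (cmp u (V i)) a5 (isometry_norm_le a1)
      have t3 := mul_le_mul_of_nonneg_right hνν' (Real.sqrt_nonneg (k i))
      linarith [(hv i).2.1]
    · rw [← mul_assoc]
      apply mul_le_mul_of_nonneg_right _ hd0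
      nlinarith [mul_pos hν'0 hν'0]
  · refine le_trans ?_ (down (1 - 2 * ν') _ (by linarith) (fun i => ?_))
    · rw [← mul_assoc]
      apply mul_le_mul_of_nonneg_right _ hd0
      nlinarith [mul_pos hν'0 hν'0]
    · obtain ⟨a1, -, -, -, -, a6, -⟩ := hV i
      have t1 := fr_sub_le (x i * V i * v i) ((x i * V i - V i) * v i)
      rw [Matrix.sub_mul, sub_sub_cancel, fr_isometry_mul a1, ← Matrix.sub_mul] at t1
      have t2 := fr_mul_le_right' (x i * V i - V i) (hv i).1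
      have t3 := mul_le_mul_of_nonneg_right hνν' (Real.sqrt_nonneg (k i))
      linarith [fv i]
  · rw [sq]
    refine (up (1 + ν') _ (fun i => Real.sqrt_nonneg _) (fun i => ?_)).trans ?_
    · obtain ⟨v1, -, -, v4⟩ := hv i
      have t1 := fr_add_le (1 - (v i)ᴴ * v i) ((v i)ᴴ * v i)
      rw [sub_add_cancel, fr_one, Fintype.card_fin] at t1
      have t2 := fr_mul_le_left' (opNorm_conjTranspose_le_one v1) (v i)
      have t3 := fr_le_of_norm_le_left v1
      rw [Fintype.card_fin] at t3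
      linarith
    · rw [← mul_assoc]
      apply mul_le_mul_of_nonneg_right _ hd0
      nlinarith [mul_pos hν'0 hν'0]
  · rw [sq]
    refine le_trans ?_ (down (1 - ν') _ (by linarith) (fun i => ?_))
    · rw [← mul_assoc]
      apply mul_le_mul_of_nonneg_right _ hd0
      nlinarith [mul_pos hν'0 hν'0]
    · have t3 := fr_le_of_norm_le_right (hv i).1
      rw [Fintype.card_fin] at t3
      linarith [fv i]

end Assemble

end Pool.Agent.Lib.MP_f81d8e_an
end

-- part Pool.Agent.Lib.MP_f81d8e_an.Ultra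
section

set_option autoImplicit false
set_option linter.unusedSectionVars false

namespace Pool.Agent.Lib.MP_f81d8e_an

open Matrix Finset Filter Topology
open scoped Matrix.Norms.L2Operator ComplexOrder

attribute [local irreducible] fr tr en fc

section Bounded

variable {n : Type*} [Fintype n] [DecidableEq n] {S : Type*} [Fintype S]

lemma abs_eigenvalues_le {a : Matrix n n ℂ} (ha : a.IsHermitian) (i : n) :
    |ha.eigenvalues i| ≤ ‖a‖ := by
  have h0 := fc_id ha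
  unfold fc at h0
  have h1 := star_mul_eu ha
  have h2 : diagonal (fun i => ((ha.eigenvalues i : ℝ) : ℂ)) = (eu ha)ᴴ * a * eu ha := by
    generalize ha.eigenvalues = μ at h0 ⊢
    generalize eu ha = e at h0 h1 ⊢
    rw [← h0]
    simp only [← Matrix.mul_assoc]
    rw [h1, Matrix.one_mul, Matrix.mul_assoc, h1, Matrix.mul_one]
  have n1 := isometry_norm_le h1
  have h3 : ‖(eu ha)ᴴ * a * eu ha‖ ≤ ‖a‖ :=
    (l2_opNorm_mul _ _).trans ((mul_le_of_le_one_right (norm_nonneg _) n1).trans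
      ((l2_opNorm_mul _ _).trans (mul_le_of_le_one_left (norm_nonneg _)
        (opNorm_conjTranspose_le_one n1))))
  rw [← h2, l2_opNorm_diagonal] at h3
  have := norm_le_pi_norm (fun i => ((ha.eigenvalues i : ℝ) : ℂ)) i
  rw [Complex.norm_real, Real.norm_eq_abs] at this
  exact this.trans h3

lemma exists_clip {b : S → Matrix n n ℂ} {x a : Matrix n n ℂ} (hx : x.IsHermitian)
    (ha : a.IsHermitian) (h : en b b a = 0) {C : ℝ} (hC : ‖x‖ ≤ C) :
    ∃ a', en b b a' = 0 ∧ ‖a'‖ ≤ C ∧ fr (x - a') ≤ fr (x - a) := by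
  have hC0 : 0 ≤ C := (norm_nonneg _).trans hC
  refine ⟨fc ha (clip C), ?_, norm_fc_le _ hC0 (fun i => abs_clip_le hC0 _), ?_⟩
  · have := en_fc_dom ha (f := clip C) (f' := fun t => t) zero_le_one
      (fun i j => by rw [one_mul]; exact clip_lip _ _ _) b
    rw [fc_id, h, mul_zero] at this
    exact le_antisymm this (en_nonneg _ _ _)
  · have := fr_fc_dom hx ha (f := fun t => t) (g := clip C) (f' := fun t => t) (g' := fun t => t)
      zero_le_one (fun i j => by
        rw [one_mul]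
        conv_lhs => rw [← clip_of_le ((abs_eigenvalues_le hx i).trans hC)]
        exact clip_lip _ _ _) 1
    simpa [fc_id] using this

lemma exists_bounded_commutant {σ : Equiv.Perm S} {b : S → Matrix n n ℂ} (hb : AdjClosed σ b)
    {x a : Matrix n n ℂ} (h : ∀ s, b s * a = a * b s) {C : ℝ} (hC : ‖x‖ ≤ C) :
    ∃ a', (∀ s, b s * a' = a' * b s) ∧ ‖a'‖ ≤ 2 * C ∧ fr (x - a') ≤ 2 * fr (x - a) := by
  have h0 := en_eq_zero_of_commute h
  obtain ⟨a₁, p1, p2, p3⟩ := exists_clip (hre_herm x) (hre_herm a)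
    (le_antisymm (h0 ▸ en_hre_le hb a) (en_nonneg _ _ _)) ((norm_hre_le x).trans hC)
  obtain ⟨a₂, q1, q2, q3⟩ := exists_clip (him_herm x) (him_herm a)
    (le_antisymm (h0 ▸ en_him_le hb a) (en_nonneg _ _ _)) ((norm_him_le x).trans hC)
  refine ⟨a₁ + Complex.I • a₂, fun s => ?_, ?_, ?_⟩
  · rw [Matrix.mul_add, Matrix.add_mul, Matrix.mul_smul, Matrix.smul_mul,
      commute_of_en_eq_zero p1, commute_of_en_eq_zero q1]
  · have := norm_add_le a₁ (Complex.I • a₂)
    rw [norm_smul, Complex.norm_I, one_mul] at this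
    linarith
  · have e : x - (a₁ + Complex.I • a₂) = (hre x - a₁) + Complex.I • (him x - a₂) := by
      conv_lhs => rw [← hre_add_him x]
      rw [smul_sub]
      abel
    have t1 := fr_add_le (hre x - a₁) (Complex.I • (him x - a₂))
    rw [fr_smul, Complex.norm_I, one_mul, ← e] at t1
    rw [← hre_sub] at p3
    rw [← him_sub] at q3
    linarith [fr_hre_le (x - a), fr_him_le (x - a)]

lemma en_le_sum (a : S → Matrix n n ℂ) (x : Matrix n n ℂ) :
    en a a x ≤ ∑ s, fr (a s * x - x * a s) := by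
  apply (pow_le_pow_iff_left₀ (en_nonneg _ _ _) (sum_nonneg (fun _ _ => fr_nonneg _))
    two_ne_zero).mp
  rw [en_sq]
  exact sum_sq_le_sq_sum_of_nonneg (fun _ _ => fr_nonneg _)

end Bounded

section Ultra

variable {U : Ultrafilter ℕ} {d m : ℕ → ℕ}

lemma mk_eq_iff {x y : BddSeq d} : Ultra.mk U x = Ultra.mk U y ↔
    Tendsto (fun n => norm2 (x.1 n - y.1 n)) U (𝓝 0) := (nullCon U d).eq

lemma mk_mul (x y : BddSeq d) : Ultra.mk U (x * y) = Ultra.mk U x * Ultra.mk U y := rfl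

lemma mk_one : Ultra.mk U (1 : BddSeq d) = 1 := rfl

lemma mk_star (x : BddSeq d) : Ultra.mk U x.adj = star (Ultra.mk U x) := rfl

lemma mk_surj (x : Ultra U d) : ∃ a, Ultra.mk U a = x := Quotient.exists_rep x

lemma transport_mk (h : Tendsto (fun n => (m n : ℝ) / d n) U (𝓝 1)) (x : BddSeq d) :
    transport h (Ultra.mk U x) = Ultra.mk U (x.resize m) := rfl

lemma corner_eq_emb {d m : ℕ} (h : d ≤ m) : corner m d = emb (Fin.castLE h) := by
  ext i j
  simp [corner, emb, Fin.ext_iff]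

lemma exists_unitary_lift (w : unitary (Ultra U d)) :
    ∃ V : BddSeq d, (∀ n, (V.1 n)ᴴ * V.1 n = 1) ∧ Ultra.mk U V = w := by
  obtain ⟨a, ha⟩ := mk_surj (w : Ultra U d)
  have h1 : Ultra.mk U (a.adj * a) = Ultra.mk U 1 := by
    rw [mk_mul, mk_star, ha, mk_one]
    exact w.2.1
  rw [mk_eq_iff] at h1
  choose V V1 _ V3 using fun n => exists_unitary_near (a.1 n)
  refine ⟨⟨V, 1, fun n => isometry_norm_le (V1 n)⟩, V1, ?_⟩
  rw [← ha, mk_eq_iff]
  refine squeeze_zero (fun _ => norm2_nonneg _) (fun n => ?_) h1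
  rw [norm2_eq, norm2_eq]
  exact div_le_div_of_nonneg_right (V3 n) (Real.sqrt_nonneg _)

lemma exists_diag (hU : (U : Filter ℕ) ≤ cofinite) (P : ℕ → ℕ → Prop)
    (h : ∀ k, ∀ᶠ n in (U : Filter ℕ), P k n) :
    ∃ k : ℕ → ℕ, Tendsto k U atTop ∧ ∀ᶠ n in (U : Filter ℕ), P (k n) n := by
  classical
  rw [Nat.cofinite_eq_atTop] at hU
  refine ⟨fun n => Nat.findGreatest (fun k => P k n) n, ?_, ?_⟩
  · rw [tendsto_atTop]
    intro k
    filter_upwards [h k, hU (eventually_ge_atTop k)] with n h1 h2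
    exact Nat.le_findGreatest h2 h1
  · filter_upwards [h 0] with n h1
    exact Nat.findGreatest_spec (P := fun k => P k n) (Nat.zero_le n) h1

lemma transport_mul (h : Tendsto (fun n => (m n : ℝ) / d n) U (𝓝 1)) (hdm : ∀ n, d n ≤ m n)
    (x y : Ultra U d) : transport h (x * y) = transport h x * transport h y := by
  obtain ⟨a, rfl⟩ := mk_surj x
  obtain ⟨b, rfl⟩ := mk_surj y
  rw [← mk_mul, transport_mk, transport_mk, transport_mk, ← mk_mul]
  congr 1
  apply Subtype.ext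
  ext1 n
  change resize (m n) (a.1 n * b.1 n) = resize (m n) (a.1 n) * resize (m n) (b.1 n)
  simp only [resize_eq, corner_eq_emb (hdm n), Matrix.mul_assoc,
    iso_cancel (emb_iso (Fin.castLE_injective (hdm n)))]

lemma transport_one (h : Tendsto (fun n => (m n : ℝ) / d n) U (𝓝 1)) (hdm : ∀ n, d n ≤ m n)
    (hd : ∀ n, 0 < d n) : transport h 1 = 1 := by
  rw [← mk_one, transport_mk, ← mk_one, mk_eq_iff]
  have h1 := ((h.inv₀ one_ne_zero).const_sub 1).sqrt
  simp only [inv_one, sub_self, Real.sqrt_zero] at h1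
  refine h1.congr (fun n => ?_)
  change _ = norm2 (resize (m n) 1 - 1)
  have hJ := emb_iso (Fin.castLE_injective (hdm n))
  have hP : IsProj (emb (Fin.castLE (hdm n)) * (emb (Fin.castLE (hdm n)))ᴴ) :=
    ⟨by simp, by rw [Matrix.mul_assoc, iso_cancel hJ]⟩
  have hm : (0 : ℝ) < m n := by exact_mod_cast (hd n).trans_le (hdm n)
  rw [norm2_sub_comm, norm2_eq, resize_eq, corner_eq_emb (hdm n), Matrix.mul_one,
    hP.one_sub.fr_eq, tr_sub, tr_mul_comm, hJ, tr_one, tr_one, Fintype.card_fin, Fintype.card_fin,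
    ← Real.sqrt_div' _ hm.le]
  congr 1
  field_simp

lemma main_aux {G : Type} [Group G] {S S₀ : Finset G} (hS : S ⊆ S₀)
    (hgen : Subgroup.closure (S : Set G) = ⊤) (hd : ∀ n, 0 < d n) (π : G →* unitary (Ultra U d))
    (V : G → BddSeq d) (hπ : ∀ g, Ultra.mk U (V g) = π g) (hdm : ∀ n, d n ≤ m n) {η : ℕ → ℝ}
    (hη : Tendsto η U (𝓝 0)) (hη0 : ∀ n, 0 ≤ η n) {Kc : ℝ} (hKc : 0 ≤ Kc)
    (B : ∀ n, S₀ ⊕ S₀ → Matrix (Fin (m n)) (Fin (m n)) ℂ)
    (hB : ∀ᶠ n in (U : Filter ℕ), Structured Kc (η n) (Equiv.sumComm S₀ S₀)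
      (dbl S₀ (fun g => (V g).1 n)) (hdm n) (B n)) :
    ∃ (h : Tendsto (fun n => (m n : ℝ) / d n) U (𝓝 1))
      (A : ∀ n, StarSubalgebra ℂ (Matrix (Fin (m n)) (Fin (m n)) ℂ)),
      {x : Ultra U m | ∀ g, Commute x (transport h (π g))} =
        {x | ∃ a : BddSeq m, (∀ n, a.entry n ∈ A n) ∧ Ultra.mk U a = x} := by
  have hd' : ∀ n, (0 : ℝ) < d n := fun n => by exact_mod_cast hd n
  have hdm' : ∀ n, (d n : ℝ) ≤ m n := fun n => by exact_mod_cast hdm n
  have hm' : ∀ n, (0 : ℝ) < m n := fun n => (hd' n).trans_le (hdm' n)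
  have h : Tendsto (fun n => (m n : ℝ) / d n) U (𝓝 1) := by
    refine tendsto_of_tendsto_of_tendsto_of_le_of_le' tendsto_const_nhds
      (by simpa using hη.const_add 1) (Eventually.of_forall (fun n => ?_)) ?_
    · rw [le_div_iff₀ (hd' n), one_mul]
      exact hdm' n
    · filter_upwards [hB] with n hn
      rw [div_le_iff₀ (hd' n)]
      exact hn.1
  refine ⟨h, fun n => StarSubalgebra.centralizer ℂ (Set.range (B n)), ?_⟩
  let γ : S₀ ⊕ S₀ → G := Sum.elim Subtype.val (fun s => s.1⁻¹)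
  let u : S₀ ⊕ S₀ → BddSeq d := Sum.elim (fun s => V s) (fun s => (V s).adj)
  have hu : ∀ s n, (u s).1 n = dbl S₀ (fun g => (V g).1 n) s := by
    rintro (s | s) n <;> rfl
  have huπ : ∀ s, Ultra.mk U (u s) = π (γ s) := by
    rintro (s | s)
    · exact hπ s
    · change Ultra.mk U (V s).adj = π s.1⁻¹
      rw [mk_star, hπ, map_inv]
      rfl
  let w : S₀ ⊕ S₀ → BddSeq m := fun s => (u s).resize m
  have hw : ∀ s, transport h (π (γ s)) = Ultra.mk U (w s) := fun s => by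
    rw [← huπ, transport_mk]
  have sq_le : ∀ n c, 0 ≤ c → Real.sqrt (c * d n) / Real.sqrt (m n) ≤ Real.sqrt c := by
    intro n c hc
    rw [← Real.sqrt_div' _ (hm' n).le]
    apply Real.sqrt_le_sqrt
    rw [div_le_iff₀ (hm' n)]
    exact mul_le_mul_of_nonneg_left (hdm' n) hc
  have close : ∀ s, Tendsto (fun n => norm2 ((w s).1 n - B n s)) U (𝓝 0) := by
    intro s
    refine squeeze_zero' (Eventually.of_forall (fun _ => norm2_nonneg _)) ?_
      (by simpa using (hη.const_mul 26).sqrt)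
    filter_upwards [hB] with n hn
    have t1 := hn.2.2.1 s
    rw [← corner_eq_emb, ← resize_eq, ← hu] at t1
    rw [norm2_eq]
    refine (div_le_div_of_nonneg_right (Real.le_sqrt_of_sq_le t1) (Real.sqrt_nonneg _)).trans ?_
    refine (sq_le n _ (by have := hη0 n; positivity)).trans (le_of_eq ?_)
    simp
  have swap : ∀ (a : BddSeq m) (p q : ∀ n, Matrix (Fin (m n)) (Fin (m n)) ℂ),
      Tendsto (fun n => norm2 (p n - q n)) U (𝓝 0) →
      Tendsto (fun n => norm2 (a.1 n * p n - p n * a.1 n)) U (𝓝 0) →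
      Tendsto (fun n => norm2 (a.1 n * q n - q n * a.1 n)) U (𝓝 0) := by
    intro a p q h1 h2
    obtain ⟨C, hC⟩ := a.2
    refine squeeze_zero (fun _ => norm2_nonneg _) (fun n => ?_)
      (by simpa using (h2.add (h1.const_mul C)).add (h1.const_mul C))
    have e : a.1 n * q n - q n * a.1 n = (a.1 n * p n - p n * a.1 n) + a.1 n * (q n - p n) +
        (p n - q n) * a.1 n := by
      simp only [mul_sub, sub_mul]
      abel
    rw [e]
    refine (norm2_add_le _ _).trans (add_le_add ((norm2_add_le _ _).trans (add_le_add_right ?_ _)) ?_)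
    · rw [norm2_sub_comm (p n)]
      exact (norm2_mul_le_left _ _).trans (mul_le_mul_of_nonneg_right (hC n) (norm2_nonneg _))
    · exact (norm2_mul_le_right _ _).trans (mul_le_mul_of_nonneg_right (hC n) (norm2_nonneg _))
  ext x
  obtain ⟨a, rfl⟩ := mk_surj x
  constructor
  · intro hx
    obtain ⟨C, hC⟩ := a.2
    have hC0 : 0 ≤ C := (norm_nonneg _).trans (hC 0)
    have h1 : ∀ s, Tendsto (fun n => norm2 (B n s * a.1 n - a.1 n * B n s)) U (𝓝 0) := by
      intro s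
      have t1 := (hx (γ s)).eq
      rw [hw, ← mk_mul, ← mk_mul, mk_eq_iff] at t1
      exact null_symm (swap a _ _ (close s) t1)
    have h2 : ∀ n, ∃ a' ∈ StarSubalgebra.centralizer ℂ (Set.range (B n)), ‖a'‖ ≤ 2 * C ∧
        (Structured Kc (η n) (Equiv.sumComm S₀ S₀) (dbl S₀ (fun g => (V g).1 n)) (hdm n) (B n) →
          fr (a.1 n - a') ≤ 2 * (Kc * en (B n) (B n) (a.1 n) + 2 * C * Real.sqrt (η n * d n))) := by
      intro n
      by_cases hn : Structured Kc (η n) (Equiv.sumComm S₀ S₀) (dbl S₀ (fun g => (V g).1 n))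
        (hdm n) (B n)
      · obtain ⟨a₀, p1, p2⟩ := hn.2.2.2 (a.1 n)
        obtain ⟨a', q1, q2, q3⟩ := exists_bounded_commutant hn.2.1 (x := a.1 n) p1 (hC n)
        refine ⟨a', ?_, q2, fun _ => q3.trans (mul_le_mul_of_nonneg_left (p2.trans ?_) zero_le_two)⟩
        · rw [StarSubalgebra.mem_centralizer_iff]
          rintro _ ⟨s, rfl⟩
          refine ⟨q1 s, ?_⟩
          have := q1 (Equiv.sumComm S₀ S₀ s)
          rwa [hn.2.1 s] at this
        · exact add_le_add_right (mul_le_mul_of_nonneg_right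
            (mul_le_mul_of_nonneg_left (hC n) zero_le_two) (Real.sqrt_nonneg _)) _
      · exact ⟨0, zero_mem _, by simpa using hC0, fun h' => absurd h' hn⟩
    choose a' q1 q2 q3 using h2
    refine ⟨⟨a', 2 * C, q2⟩, q1, Eq.symm ?_⟩
    rw [mk_eq_iff]
    have t1 := (((tendsto_finsetSum univ (fun s _ => h1 s)).const_mul Kc).add
      (hη.sqrt.const_mul (2 * C))).const_mul 2
    simp only [sum_const_zero, mul_zero, Real.sqrt_zero, add_zero] at t1
    refine squeeze_zero' (Eventually.of_forall (fun _ => norm2_nonneg _)) ?_ t1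
    filter_upwards [hB] with n hn
    rw [norm2_eq]
    refine (div_le_div_of_nonneg_right (q3 n hn) (Real.sqrt_nonneg _)).trans ?_
    rw [mul_div_assoc, add_div, mul_div_assoc, mul_div_assoc]
    apply mul_le_mul_of_nonneg_left _ zero_le_two
    refine add_le_add (mul_le_mul_of_nonneg_left ?_ hKc)
      (mul_le_mul_of_nonneg_left (sq_le n _ (hη0 n)) (by positivity))
    simp only [norm2_eq]
    rw [← sum_div]
    exact div_le_div_of_nonneg_right (en_le_sum _ _) (Real.sqrt_nonneg _)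
  · rintro ⟨a', h1, h2⟩ g
    rw [← h2]
    let Φ : G →* Ultra U m :=
      { toFun := fun g => transport h (π g)
        map_one' := by rw [map_one]; exact transport_one h hdm hd
        map_mul' := fun a b => by rw [map_mul]; exact transport_mul h hdm _ _ }
    have hg : g ∈ Subgroup.closure (S : Set G) := hgen ▸ Subgroup.mem_top g
    change Commute _ (Φ g)
    induction hg using Subgroup.closure_induction with
    | mem s hs =>
      change Commute _ (transport h (π (γ (Sum.inl ⟨s, hS hs⟩))))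
      rw [hw, Commute, SemiconjBy, ← mk_mul, ← mk_mul, mk_eq_iff]
      refine swap a' _ _ (null_symm (close _)) ?_
      have : ∀ n, a'.1 n * B n (Sum.inl ⟨s, hS hs⟩) - B n (Sum.inl ⟨s, hS hs⟩) * a'.1 n = 0 :=
        fun n => sub_eq_zero.mpr
          ((StarSubalgebra.mem_centralizer_iff ℂ).mp (h1 n) _ ⟨_, rfl⟩).1.symm
      simp only [this, norm2_zero]
      exact tendsto_const_nhds
    | one => rw [map_one]; exact Commute.one_right _
    | mul a b _ _ ha hb => rw [map_mul]; exact ha.mul_right hb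
    | inv a _ ha =>
      have := Commute.units_inv_right (u := Φ.toHomUnits a) ha
      rwa [← map_inv] at this

theorem main (G : Type) [Group G] (hT : HasPropertyT G) (S : Finset G)
    (hgen : Subgroup.closure (S : Set G) = ⊤) (U : Ultrafilter ℕ)
    (hU : (U : Filter ℕ) ≤ cofinite) (d : ℕ → ℕ) (hd : ∀ n, 0 < d n)
    (π : G →* unitary (Ultra U d)) :
    ∃ (m : ℕ → ℕ) (_ : ∀ n, 0 < m n) (h : Tendsto (fun n => (m n : ℝ) / d n) U (𝓝 1))
      (A : ∀ n, StarSubalgebra ℂ (Matrix (Fin (m n)) (Fin (m n)) ℂ)),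
      {x : Ultra U m | ∀ g, Commute x (transport h (π g))} =
        {x | ∃ a : BddSeq m, (∀ n, a.entry n ∈ A n) ∧ Ultra.mk U a = x} := by
  classical
  obtain ⟨K, κ, hκ, hK⟩ := hT
  obtain ⟨S₀, hS₀⟩ : ∃ S₀, S₀ = K ∪ S := ⟨_, rfl⟩
  obtain ⟨L, hL⟩ : ∃ L, L = max (max 1 (2 / κ)) (Real.sqrt (Fintype.card (S₀ ⊕ S₀))) := ⟨_, rfl⟩
  have hL1 : 1 ≤ L := hL ▸ (le_max_left _ _).trans (le_max_left _ _)
  have hL2 : 2 / κ ≤ L := hL ▸ (le_max_right _ _).trans (le_max_left _ _)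
  have hL3 : Real.sqrt (Fintype.card (S₀ ⊕ S₀)) ≤ L := hL ▸ le_max_right _ _
  choose V hV hπ using fun g => exists_unitary_lift (π g)
  have hdef : ∀ h g, Tendsto (fun n => norm2 ((V h).1 n * (V g).1 n - (V (h * g)).1 n)) U (𝓝 0) :=
    fun h g => (mk_eq_iff (x := V h * V g)).mp (by rw [mk_mul, hπ, hπ, hπ, map_mul]; rfl)
  obtain ⟨Kc, hKc⟩ : ∃ Kc : ℝ, Kc = 200 * (4096 * L ^ 3) := ⟨_, rfl⟩
  have hKc0 : 0 ≤ Kc := by rw [hKc]; positivity
  let P : ℕ → ℕ → Prop := fun k n => ∃ (m : ℕ) (h : d n ≤ m)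
    (B : S₀ ⊕ S₀ → Matrix (Fin m) (Fin m) ℂ), Structured Kc (1 / ((k : ℝ) + 1))
      (Equiv.sumComm S₀ S₀) (dbl S₀ (fun g => (V g).1 n)) h B
  have hP : ∀ k, ∀ᶠ n in (U : Filter ℕ), P k n := by
    intro k
    obtain ⟨ε, hε, H⟩ := exists_structured (S := S₀ ⊕ S₀) hL1
      (show 0 < 1 / ((k : ℝ) + 1) by positivity) (by
        rw [div_le_one (by positivity)]
        simp)
    obtain ⟨F, θ, hθ, H'⟩ := exists_ctx hκ hK (hS₀ ▸ subset_union_left) hL1 hL2 hL3 hε
    have t1 := tendsto_finsetSum F (fun p _ => (hdef p.1 p.2).pow 2)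
    simp only [ne_eq, OfNat.ofNat_ne_zero, not_false_eq_true, zero_pow, sum_const_zero] at t1
    filter_upwards [t1.eventually (ge_mem_nhds hθ)] with n hn
    obtain ⟨W, C, hW⟩ := H' (d n) (fun g => (V g).1 n) (fun g => hV g n) (by
      have hdn : (0 : ℝ) < d n := by exact_mod_cast hd n
      simp only [norm2_eq, div_pow, Real.sq_sqrt hdn.le] at hn
      rwa [← sum_div, div_le_iff₀ hdn] at hn)
    rw [← hKc] at H
    exact H _ _ _ W C hW
  obtain ⟨k, hk, hPk⟩ := exists_diag hU P hP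
  have hη : Tendsto (fun n => 1 / ((k n : ℝ) + 1)) U (𝓝 0) :=
    tendsto_one_div_add_atTop_nhds_zero_nat.comp hk
  have hch : ∀ n, ∃ (m : ℕ) (h : d n ≤ m) (B : S₀ ⊕ S₀ → Matrix (Fin m) (Fin m) ℂ),
      P (k n) n → Structured Kc (1 / ((k n : ℝ) + 1))
        (Equiv.sumComm S₀ S₀) (dbl S₀ (fun g => (V g).1 n)) h B := by
    intro n
    by_cases h : P (k n) n
    · obtain ⟨m, h1, B, h2⟩ := h
      exact ⟨m, h1, B, fun _ => h2⟩
    · exact ⟨d n, le_rfl, 0, fun h' => absurd h' h⟩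
  choose m hdm B hB using hch
  obtain ⟨h, A, hA⟩ := main_aux (hS₀ ▸ subset_union_right) hgen hd π V hπ hdm hη
    (fun n => by positivity) hKc0 B (hPk.mono hB)
  exact ⟨m, fun n => (hd n).trans_le (hdm n), h, A, hA⟩

end Ultra

end Pool.Agent.Lib.MP_f81d8e_an
end
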